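import Pool.Agent.P.MP_8598be_al.Z.Basic

/-!
Two-cocycles on a free Lie algebra are coboundaries.
-/

namespace Pool.Agent.P.MP_8598be_al.Z

variable {R : Type} [CommRing R] {L : Type} [LieRing L] [LieAlgebra R L]

/-- An alternating two-cocycle with values in the ground ring. -/
structure Coc (R L : Type) [CommRing R] [LieRing L] [LieAlgebra R L] where
  /-- The bilinear form. -/
  c : L →ₗ[R] L →ₗ[R] R
  alt : ∀ u, c u u = 0
  jac : ∀ u v w, c u ⁅v, w⁆ = c ⁅u, v⁆ w + c v ⁅u, w⁆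

/-- The central extension defined by a cocycle. -/
def Coc.E (_c : Coc R L) : Type := L × R

instance (c : Coc R L) : AddCommGroup c.E := inferInstanceAs (AddCommGroup (L × R))
instance (c : Coc R L) : Module R c.E := inferInstanceAs (Module R (L × R))

instance (c : Coc R L) : LieRing c.E where
  bracket a b := (⁅a.1, b.1⁆, c.c a.1 b.1)
  add_lie a b d := Prod.ext (add_lie a.1 b.1 d.1) (by
    change c.c (a.1 + b.1) d.1 = c.c a.1 d.1 + c.c b.1 d.1
    rw [map_add, LinearMap.add_apply])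
  lie_add a b d := Prod.ext (lie_add a.1 b.1 d.1) (map_add (c.c a.1) b.1 d.1)
  lie_self a := Prod.ext (lie_self a.1) (c.alt a.1)
  leibniz_lie a b d := Prod.ext (leibniz_lie a.1 b.1 d.1) (c.jac a.1 b.1 d.1)

instance (c : Coc R L) : LieAlgebra R c.E where
  lie_smul t a b := Prod.ext (lie_smul t a.1 b.1) (map_smul (c.c a.1) t b.1)

/-- The projection of the central extension. -/
def Coc.pr (c : Coc R L) : c.E →ₗ⁅R⁆ L where
  toFun a := a.1
  map_add' _ _ := rfl
  map_smul' _ _ := rfl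
  map_lie' := rfl

theorem Coc.exists_prim {X : Type} (c : Coc R (FL R X)) (a : X → R) :
    ∃ φ : FL R X →ₗ[R] R, (∀ x, φ (gen R x) = a x) ∧ ∀ u v, φ ⁅u, v⁆ = c.c u v := by
  let σ : FL R X →ₗ⁅R⁆ c.E := FreeLieAlgebra.lift R fun x => ((gen R x, a x) : FL R X × R)
  have h1 : c.pr.comp σ = LieHom.id := FreeLieAlgebra.hom_ext fun x => by
    change (σ (gen R x)).1 = gen R x
    rw [FreeLieAlgebra.lift_of_apply]
  have h2 : ∀ u, (σ u).1 = u := fun u => LieHom.congr_fun h1 u
  refine ⟨(LinearMap.snd R (FL R X) R).comp (σ : FL R X →ₗ[R] c.E), fun x => ?_, fun u v => ?_⟩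
  · change (σ (gen R x)).2 = a x
    rw [FreeLieAlgebra.lift_of_apply]
  · change (σ ⁅u, v⁆).2 = _
    rw [LieHom.map_lie]
    change c.c (σ u).1 (σ v).1 = _
    rw [h2, h2]

/-- A functional is determined by its values on generators and brackets. -/
theorem ext_fun {X M : Type} [AddCommGroup M] [Module R M] {φ ψ : FL R X →ₗ[R] M}
    (h1 : ∀ x, φ (gen R x) = ψ (gen R x))
    (h2 : ∀ u v : FL R X, φ ⁅u, v⁆ = ψ ⁅u, v⁆) : φ = ψ := by
  let S : LieSubalgebra R (FL R X) :=
    { LinearMap.eqLocus φ ψ with lie_mem' := fun {u v} _ _ => h2 u v }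
  let σ : FL R X →ₗ⁅R⁆ S := FreeLieAlgebra.lift R fun x => ⟨gen R x, h1 x⟩
  have h3 : S.incl.comp σ = LieHom.id := FreeLieAlgebra.hom_ext fun x => by
    change (σ (gen R x)).1 = gen R x
    rw [FreeLieAlgebra.lift_of_apply]
  ext u
  have h4 : (σ u).1 = u := LieHom.congr_fun h3 u
  exact h4 ▸ (σ u).2

end Pool.Agent.P.MP_8598be_al.Z
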