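import Pool.Agent.P.MP_8598be_al.Z.Tys
import Pool.Agent.P.MP_8598be_al.Z.ECc

/-!
From statements for single types to statements for all types of bounded class and given cost.
-/

namespace Pool.Agent.P.MP_8598be_al.Z

variable {X : Type} [Fintype X] [DecidableEq X]

omit [DecidableEq X] in
theorem tyOf_cons (v : (X → ℕ) × ℕ) (l : List ((X → ℕ) × ℕ)) (j : ℕ) (α : X → ℕ) :
    tyOf (v :: l) j α = tyOf l j α + if v.1 = α ∧ j < v.2 then 1 else 0 := by
  simp only [tyOf, List.countP_cons, Bool.and_eq_true, decide_eq_true_eq]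

theorem hasCost_add {γ δ : Ty X} {m n : ℕ} (h : HasCost γ m) (h' : HasCost δ n) :
    HasCost (fun j α => γ j α + δ j α) (m + n) := by
  classical
  obtain ⟨s, hs, -⟩ := id h
  obtain ⟨t, ht, -⟩ := id h'
  refine ⟨s ∪ t, fun j α hq => ?_, ?_⟩
  · rw [Finset.notMem_union] at hq
    change γ j α + δ j α = 0
    rw [hs j α hq.1, ht j α hq.2]
  · rw [Finset.sum_add_distrib,
      h.sum_eq fun j α hq => hs j α fun e => hq (Finset.mem_union_left _ e),
      h'.sum_eq fun j α hq => ht j α fun e => hq (Finset.mem_union_right _ e)]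

theorem hasCost_tyOf (l : List ((X → ℕ) × ℕ)) : HasCost (tyOf l) (l.map Prod.snd).sum := by
  induction l with
  | nil => exact hasCost_zero.2 rfl
  | cons v l ih =>
    have h1 : HasCost (fun j α => if v.1 = α ∧ j < v.2 then 1 else 0 : Ty X) v.2 := by
      refine ⟨Finset.range v.2 ×ˢ {v.1}, fun j α hq => if_neg fun e => hq ?_, ?_⟩
      · rw [Finset.mem_product, Finset.mem_range, Finset.mem_singleton]
        exact ⟨e.2, e.1.symm⟩
      · rw [Finset.sum_product]
        simp only [Finset.sum_singleton, true_and]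
        rw [Finset.sum_congr rfl fun j hj => if_pos (Finset.mem_range.1 hj)]
        simp
    rw [List.map_cons, List.sum_cons, add_comm,
      show tyOf (v :: l) = _ from funext fun j => funext fun α => tyOf_cons v l j α]
    exact hasCost_add ih h1

omit [DecidableEq X] in
theorem cls_tyOf {l : List ((X → ℕ) × ℕ)} {c : ℕ} :
    Cls (tyOf l) c ↔ ∀ v ∈ l, 0 < v.2 → tot v.1 ≤ c := by
  constructor
  · intro h v hv h0
    by_contra hc
    have h1 := h 0 v.1 (not_le.1 hc)
    rw [tyOf, List.countP_eq_zero] at h1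
    exact h1 v hv (by simp [h0])
  · intro h j α hα
    rw [tyOf, List.countP_eq_zero]
    intro v hv e
    simp only [Bool.and_eq_true, decide_eq_true_eq] at e
    have h1 := h v hv (by omega)
    rw [e.1] at h1
    omega

open Classical in
/-- The sum over all types of class at most `c` and cost `n`. -/
theorem ec_cntC {S : Set (Equiv.Perm X)} {L n : ℕ} (c : ℕ) (l : List (Ty X × PF))
    (hl : ∀ e ∈ l, HasCost e.1 n)
    (h : ∀ γ, HasCost γ n → EC L fun p _ => (cntT (ZMod p) S γ : ℤ) -
      (l.map fun e => if γ = e.1 then e.2 p else 0).sum) :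
    EC L fun p _ => (cntC (ZMod p) S c n : ℤ) -
      (l.map fun e => if Cls e.1 c then e.2 p else 0).sum := by
  let T : Finset (Ty X) := tys S c n ∪ (l.map Prod.fst).toFinset.filter fun γ => Cls γ c
  have hT : ∀ γ ∈ T, Cls γ c ∧ HasCost γ n := fun γ hγ => by
    rcases Finset.mem_union.1 hγ with h1 | h1
    · exact (mem_tys.1 h1).2
    · rw [Finset.mem_filter, List.mem_toFinset, List.mem_map] at h1
      obtain ⟨⟨e, he, rfl⟩, h2⟩ := h1
      exact ⟨h2, hl e he⟩
  refine (EC.sum T fun γ hγ => h γ (hT γ hγ).2).congr (Ev.of_forall fun p _ => ?_)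
  rw [Finset.sum_sub_distrib]
  congr 1
  · rw [cntC_eq_sum, Nat.cast_sum]
    refine (Finset.sum_subset Finset.subset_union_left fun γ hγ hn => ?_).symm
    rw [cntT_of_not_adm fun ha => hn (mem_tys.2 ⟨ha, hT γ hγ⟩), Nat.cast_zero]
  · have key : ∀ l' : List (Ty X × PF), (∀ e ∈ l', e ∈ l) →
        ∑ γ ∈ T, (l'.map fun e => if γ = e.1 then e.2 p else 0).sum =
          (l'.map fun e => if Cls e.1 c then e.2 p else 0).sum := by
      intro l'
      induction l' with
      | nil => simp
      | cons e l' ih =>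
        intro h'
        simp only [List.map_cons, List.sum_cons, Finset.sum_add_distrib]
        rw [ih fun e' he' => h' e' (List.mem_cons_of_mem _ he'), Finset.sum_ite_eq']
        congr 1
        refine if_congr ⟨fun h1 => (hT _ h1).1, fun h1 => Finset.mem_union_right _ ?_⟩ rfl rfl
        rw [Finset.mem_filter, List.mem_toFinset]
        exact ⟨List.mem_map_of_mem (h' e List.mem_cons_self), h1⟩
    exact key l fun _ he => he

end Pool.Agent.P.MP_8598be_al.Z
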