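import Pool.Agent.P.MP_8598be_al.K.SDefs
import Pool.Agent.P.MP_8598be_al.K.H2
import Pool.Agent.P.MP_8598be_al.K.TyGlue

/-!
The symmetry, orbits of multidegrees, homogeneous parts and eigenspaces.
-/

set_option linter.unusedSectionVars false

namespace Pool.Agent.P.MP_8598be_al.K

open Module Z

variable {F X : Type} [Field F] [Fintype X] [DecidableEq X] {s : Sy F X}

theorem span_lie : Submodule.span F (Set.range (lie F (X := X))) = ⊤ := by
  let S : LieSubalgebra F (FL F X) :=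
    { Submodule.span F (Set.range (lie F (X := X))) with
      lie_mem' := fun {u v} hu hv => by
        change ⁅u, v⁆ ∈ Submodule.span F (Set.range (lie F (X := X)))
        induction hu using Submodule.span_induction with
        | mem a ha =>
          induction hv using Submodule.span_induction with
          | mem b hb =>
            obtain ⟨a, rfl⟩ := ha
            obtain ⟨b, rfl⟩ := hb
            exact Submodule.subset_span ⟨.mul a b, rfl⟩
          | zero => rw [lie_zero]; exact zero_mem _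
          | add b c _ _ hb hc => rw [lie_add]; exact add_mem hb hc
          | smul c b _ hb => rw [lie_smul]; exact Submodule.smul_mem _ _ hb
        | zero => rw [zero_lie]; exact zero_mem _
        | add b c _ _ hb hc => rw [add_lie]; exact add_mem hb hc
        | smul c b _ hb => rw [smul_lie]; exact Submodule.smul_mem _ _ hb }
  let σ : FL F X →ₗ⁅F⁆ S :=
    FreeLieAlgebra.lift F fun x => ⟨gen F x, Submodule.subset_span ⟨.of x, rfl⟩⟩
  have h3 : S.incl.comp σ = LieHom.id := FreeLieAlgebra.hom_ext fun x => by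
    change (σ (gen F x)).1 = gen F x
    rw [FreeLieAlgebra.lift_of_apply]
  refine eq_top_iff.2 fun u _ => ?_
  have h4 : (σ u).1 = u := LieHom.congr_fun h3 u
  exact h4 ▸ (σ u).2

/-- Linear maps that agree on homogeneous elements are equal. -/
theorem ext_mp {M : Type} [AddCommGroup M] [Module F M] {f g : FL F X →ₗ[F] M}
    (h : ∀ α, ∀ u ∈ mp F α, f u = g u) : f = g :=
  LinearMap.ext_on_range span_lie fun t => h _ _ (lie_mem_mp t)

open TensorProduct in
/-- The projection onto a homogeneous part. -/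
theorem exists_proj (α : X → ℕ) : ∃ P : FL F X →ₗ[F] FL F X,
    (∀ u ∈ mp F α, P u = u) ∧ ∀ β, β ≠ α → ∀ u ∈ mp F β, P u = 0 := by
  let θ : FL F X →ₗ⁅F⁆ AddMonoidAlgebra F (X → ℕ) ⊗[F] FL F X :=
    FreeLieAlgebra.lift F fun x => AddMonoidAlgebra.single (one x) 1 ⊗ₜ gen F x
  have h1 : ∀ t : FreeMagma X, θ (lie F t) = AddMonoidAlgebra.single (wt t) 1 ⊗ₜ lie F t := by
    intro t
    induction t using FreeMagma.rec with
    | of k => exact FreeLieAlgebra.lift_of_apply _ _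
    | mul a b iha ihb =>
      rw [lie, LieHom.map_lie, iha, ihb, LieAlgebra.ExtendScalars.bracket_tmul,
        AddMonoidAlgebra.single_mul_single, one_mul]
      rfl
  let c : AddMonoidAlgebra F (X → ℕ) →ₗ[F] F :=
    (Finsupp.lapply α).comp (AddMonoidAlgebra.coeffLinearEquiv F).toLinearMap
  let P : FL F X →ₗ[F] FL F X := (TensorProduct.lid F (FL F X)).toLinearMap.comp
    ((c.rTensor (FL F X)).comp (θ : FL F X →ₗ[F] _))
  have h2 : ∀ t : FreeMagma X, P (lie F t) = if wt t = α then lie F t else 0 := fun t => by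
    change TensorProduct.lid F (FL F X) (c.rTensor (FL F X) (θ (lie F t))) = _
    rw [h1, LinearMap.rTensor_tmul, TensorProduct.lid_tmul]
    change (Finsupp.single (wt t) (1 : F)) α • lie F t = _
    rw [Finsupp.single_apply]
    split_ifs <;> simp
  refine ⟨P, fun u hu => ?_, fun β hβ u hu => ?_⟩
  · refine LinearMap.eqOn_span (f := P) (g := LinearMap.id) ?_ hu
    rintro _ ⟨t, ht, rfl⟩
    rw [h2, if_pos (show wt t = α from ht)]
    rfl
  · refine LinearMap.eqOn_span (f := P) (g := 0) ?_ hu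
    rintro _ ⟨t, ht, rfl⟩
    rw [h2, if_neg fun e => hβ (ht.symm.trans e)]
    rfl

theorem Sy.L_pos (s : Sy F X) : 0 < s.L := by
  rcases s.hL with h | h
  · omega
  · exact h.pos

theorem Sy.ζ_ne (s : Sy F X) : s.ζ ≠ 0 := s.hζ.ne_zero s.L_pos.ne'

theorem Sy.ζ_inj (s : Sy F X) {e e' : ℕ} (h : e < s.L) (h' : e' < s.L) (he : s.ζ ^ e = s.ζ ^ e') :
    e = e' := s.hζ.pow_inj h h' he

theorem comp_pow_add (w : X → ℕ) (g : Equiv.Perm X) (t t' : ℕ) :
    (w ∘ (g ^ t :)) ∘ (g ^ t' :) = w ∘ (g ^ (t + t') :) := by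
  rw [pow_add, Equiv.Perm.coe_mul, Function.comp_assoc]

theorem comp_pow_succ (w : X → ℕ) (g : Equiv.Perm X) (t : ℕ) :
    (w ∘ (g ^ t :)) ∘ g = w ∘ (g ^ (t + 1) :) := by
  rw [pow_succ, Equiv.Perm.coe_mul, Function.comp_assoc]

theorem comp_pow_zero (w : X → ℕ) (g : Equiv.Perm X) : w ∘ (g ^ 0 :) = w := rfl

theorem comp_pow_back (s : Sy F X) (w : X → ℕ) (t : ℕ) :
    (w ∘ (s.σ ^ t :)) ∘ (s.σ ^ (t * (s.L - 1)) :) = w := by
  have e : t + t * (s.L - 1) = s.L * t := by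
    obtain ⟨k, hk⟩ := Nat.exists_eq_succ_of_ne_zero s.L_pos.ne'
    rw [hk, Nat.succ_sub_one, Nat.succ_mul, mul_comm, add_comm]
  rw [comp_pow_add, e, pow_mul, s.hσ, one_pow]
  rfl

theorem tot_comp (w : X → ℕ) (g : Equiv.Perm X) : tot (w ∘ g) = tot w := Equiv.sum_comp g w

theorem comp_pow_of_fix {w : X → ℕ} {g : Equiv.Perm X} (h : w ∘ g = w) (t : ℕ) :
    w ∘ (g ^ t :) = w := by
  induction t with
  | zero => rfl
  | succ t ih => rw [← comp_pow_succ, ih, h]

theorem Fx.pow {w : X → ℕ} (h : Fx s w) (t : ℕ) : w ∘ (s.σ ^ t :) = w := comp_pow_of_fix h.2 t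

theorem fx_pow {w : X → ℕ} {t : ℕ} : Fx s (w ∘ (s.σ ^ t :)) ↔ Fx s w := by
  refine ⟨fun h => ?_, fun h => by rwa [h.pow]⟩
  have h1 := h.pow (t * (s.L - 1))
  rw [comp_pow_back] at h1
  rwa [← h1] at h

theorem orb_of_fx {w : X → ℕ} (h : Fx s w) : orb s w = 1 := by
  unfold orb
  exact if_pos h.2

theorem orb_of_not_fx {w : X → ℕ} (h : ¬ Fx s w) : orb s w = s.L := by
  unfold orb
  split_ifs with e
  · by_contra h1
    exact h ⟨fun h2 => h1 h2.symm, e⟩
  · rfl

theorem orb_pos (s : Sy F X) (w : X → ℕ) : 0 < orb s w := by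
  by_cases h : Fx s w
  · rw [orb_of_fx h]
    exact one_pos
  · rw [orb_of_not_fx h]
    exact s.L_pos

theorem comp_pow_mod (s : Sy F X) (w : X → ℕ) (t : ℕ) :
    w ∘ (s.σ ^ (t % orb s w) :) = w ∘ (s.σ ^ t :) := by
  by_cases h : Fx s w
  · rw [h.pow, h.pow]
  · rw [orb_of_not_fx h, ← pow_eq_pow_mod _ s.hσ]

theorem orbit_inj {w : X → ℕ} {t t' : ℕ} (h : t < orb s w) (h' : t' < orb s w)
    (e : w ∘ (s.σ ^ t :) = w ∘ (s.σ ^ t' :)) : t = t' := by
  by_cases hw : Fx s w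
  · rw [orb_of_fx hw] at h h'
    omega
  rw [orb_of_not_fx hw] at h h'
  rcases s.hL with h1 | hp
  · omega
  have key : ∀ a b : ℕ, a < b → b < s.L → w ∘ (s.σ ^ a :) ≠ w ∘ (s.σ ^ b :) := by
    intro a b hab hb e
    obtain ⟨d, rfl⟩ := Nat.exists_eq_add_of_lt hab
    have e1 : (w ∘ (s.σ ^ a :)) ∘ (s.σ ^ (d + 1) :) = w ∘ (s.σ ^ a :) := by
      rw [comp_pow_add, e, add_assoc]
    have hc : (d + 1).Coprime s.L :=
      (Nat.coprime_of_lt_prime (Nat.succ_ne_zero d) (by omega) hp).symm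
    obtain ⟨k, -, hk⟩ := Nat.exists_mul_mod_eq_one_of_coprime hc hp.one_lt
    have e2 := comp_pow_of_fix e1 k
    rw [← pow_mul, pow_eq_pow_mod ((d + 1) * k) s.hσ, hk, pow_one] at e2
    exact hw (fx_pow.1 ⟨hp.ne_one, e2⟩)
  rcases lt_trichotomy t t' with h2 | h2 | h2
  · exact absurd e (key _ _ h2 h')
  · exact h2
  · exact absurd e.symm (key _ _ h2 h)

theorem Rel.self (s : Sy F X) (ν : (X → ℕ) × ℕ) : Rel s ν ν.1 ν.2 := by
  by_cases h : Fx s ν.1
  · exact Or.inl ⟨h, rfl, rfl⟩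
  · exact Or.inr ⟨h, 0, rfl⟩

theorem Rel.symm {ν ν' : (X → ℕ) × ℕ} (h : Rel s ν ν'.1 ν'.2) : Rel s ν' ν.1 ν.2 := by
  rcases h with ⟨h, e, e'⟩ | ⟨h, t, e⟩
  · exact Or.inl ⟨e ▸ h, e.symm, e'.symm⟩
  · refine Or.inr ⟨fun h' => h (e ▸ fx_pow.2 h'), t * (s.L - 1), ?_⟩
    rw [← e, comp_pow_back]

theorem Rel.exists {ν : (X → ℕ) × ℕ} {β : X → ℕ} {e : ℕ} (h : Rel s ν β e) :
    ∃ t : ℕ, ν.1 ∘ (s.σ ^ t :) = β := by
  rcases h with ⟨-, e, -⟩ | ⟨-, h⟩
  · exact ⟨0, e⟩
  · exact h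

variable (s) in
/-- The symmetry as a linear map. -/
noncomputable def TT : End F (FL F X) := (ren F s.σ : FL F X →ₗ[F] FL F X)

theorem TT_apply (u : FL F X) : TT s u = ren F s.σ u := rfl

theorem TT_pow (t : ℕ) (u : FL F X) : (TT s ^ t) u = ren F (s.σ ^ t :) u := by
  induction t with
  | zero => exact (ren_id u).symm
  | succ t ih => rw [pow_succ', End.mul_apply, ih, TT_apply, ren_ren, pow_succ']; rfl

theorem TT_pow_L : TT s ^ s.L = 1 := by
  ext u
  rw [TT_pow, s.hσ]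
  exact ren_id u

theorem TT_pow_lie (t : ℕ) (u v : FL F X) : (TT s ^ t) ⁅u, v⁆ = ⁅(TT s ^ t) u, (TT s ^ t) v⁆ := by
  rw [TT_pow, TT_pow, TT_pow, LieHom.map_lie]

theorem TT_pow_gen (t : ℕ) (y : X) : (TT s ^ t) (gen F y) = gen F ((s.σ ^ t) y) := by
  rw [TT_pow, ren_gen]

theorem TT_back (t : ℕ) (u : FL F X) : (TT s ^ t) ((TT s ^ (t * (s.L - 1))) u) = u := by
  have e : t + t * (s.L - 1) = s.L * t := by
    obtain ⟨k, hk⟩ := Nat.exists_eq_succ_of_ne_zero s.L_pos.ne'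
    rw [hk, Nat.succ_sub_one, Nat.succ_mul, mul_comm, add_comm]
  rw [← End.mul_apply, ← pow_add, e, pow_mul, TT_pow_L, one_pow, End.one_apply]

theorem one_comp (g : Equiv.Perm X) (y : X) : one (g y) ∘ g = one y := by
  funext z
  simp [Pi.single_apply]

theorem eq_one_iff (g : Equiv.Perm X) (w : X → ℕ) (y : X) : w ∘ g = one y ↔ w = one (g y) := by
  refine ⟨fun h => ?_, fun h => h ▸ one_comp g y⟩
  rw [← one_comp g y] at h
  exact g.surjective.right_cancellable.1 h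

variable (s) in
/-- An invariant family of subspaces. -/
def FInv (K : Fam F X) : Prop := ∀ w u, u ∈ K (w ∘ s.σ) → TT s u ∈ K w

theorem push_comp_perm (g : Equiv.Perm X) (w : X → ℕ) : push g (w ∘ g) = w := by
  rw [push_equiv, Function.comp_assoc, g.self_comp_symm, Function.comp_id]

theorem inv_iff {J : Chain F X} : Inv {s.σ} J ↔ ∀ j, FInv s (J.J j) := by
  constructor
  · intro h j w u hu
    have := h _ rfl j _ u hu
    rwa [push_comp_perm] at this
  · rintro h _ rfl j α u hu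
    refine h j _ u ?_
    rwa [push_equiv, Function.comp_assoc, s.σ.symm_comp_self, Function.comp_id]

theorem finv_mp : FInv s (mp F) := fun w u hu => by
  have := ren_mem (R := F) s.σ hu
  rwa [push_comp_perm] at this

theorem FInv.pow {K : Fam F X} (h : FInv s K) (t : ℕ) {w : X → ℕ} {u : FL F X}
    (hu : u ∈ K (w ∘ (s.σ ^ t :))) : (TT s ^ t) u ∈ K w := by
  induction t generalizing u with
  | zero => exact hu
  | succ t ih =>
    rw [pow_succ, End.mul_apply]
    exact ih (h _ u (by rwa [comp_pow_succ]))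

theorem FInv.back {K : Fam F X} (h : FInv s K) (t : ℕ) {w : X → ℕ} {u : FL F X} (hu : u ∈ K w) :
    (TT s ^ (t * (s.L - 1))) u ∈ K (w ∘ (s.σ ^ t :)) :=
  h.pow _ (by rwa [comp_pow_back])

/-- Inclusions of invariant families propagate along orbits. -/
theorem FInv.le_pow {J K : Fam F X} (hJ : FInv s J) (hK : FInv s K) {w : X → ℕ} (h : K w ≤ J w)
    (t : ℕ) : K (w ∘ (s.σ ^ t :)) ≤ J (w ∘ (s.σ ^ t :)) := fun u hu => by
  have h1 := hJ.back t (h (hK.pow t hu))
  rwa [← End.mul_apply, ← pow_add, add_comm, pow_add, End.mul_apply, TT_back] at h1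

theorem FInv.fix {K : Fam F X} (h : FInv s K) {w : X → ℕ} (hw : Fx s w) {u : FL F X}
    (hu : u ∈ K w) : TT s u ∈ K w := h w u (by rwa [hw.2])

theorem VV_le (α : X → ℕ) (e : ℕ) : VV s α e ≤ mp F α := by
  unfold VV
  split_ifs
  · exact inf_le_left
  · exact le_rfl

theorem VV_of_not {α : X → ℕ} (h : ¬ Fx s α) (e : ℕ) : VV s α e = mp F α := by
  unfold VV
  exact if_neg h

theorem mem_VV {α : X → ℕ} {e : ℕ} {u : FL F X} :
    u ∈ VV s α e ↔ u ∈ mp F α ∧ (Fx s α → TT s u = s.ζ ^ e • u) := by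
  by_cases h : Fx s α
  · unfold VV
    rw [if_pos h, Submodule.mem_inf, End.mem_eigenspace_iff]
    exact and_congr_right fun _ => ⟨fun h' _ => h', fun h' => h' h⟩
  · rw [VV_of_not h]
    exact ⟨fun h' => ⟨h', fun h'' => absurd h'' h⟩, fun h' => h'.1⟩

variable (s) in
/-- The projection onto an eigenspace. -/
noncomputable def pr (e : ℕ) : End F (FL F X) :=
  (s.L : F)⁻¹ • ∑ t ∈ Finset.range s.L, (s.ζ ^ e)⁻¹ ^ t • TT s ^ t

theorem Sy.cast_ne (s : Sy F X) : (s.L : F) ≠ 0 := by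
  have : NeZero s.L := ⟨s.L_pos.ne'⟩
  exact (s.hζ.neZero').out

theorem pr_apply (e : ℕ) (u : FL F X) :
    pr s e u = (s.L : F)⁻¹ • ∑ t ∈ Finset.range s.L, (s.ζ ^ e)⁻¹ ^ t • (TT s ^ t) u := by
  simp [pr, LinearMap.sum_apply]

theorem pr_mem {W : Submodule F (FL F X)} (hW : ∀ u ∈ W, TT s u ∈ W) (e : ℕ) {u : FL F X}
    (hu : u ∈ W) : pr s e u ∈ W := by
  rw [pr_apply]
  refine W.smul_mem _ (W.sum_mem fun t ht => W.smul_mem _ ?_)
  clear ht
  induction t with
  | zero => exact hu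
  | succ t ih => rw [pow_succ', End.mul_apply]; exact hW _ ih

theorem TT_pr (e : ℕ) (u : FL F X) : TT s (pr s e u) = s.ζ ^ e • pr s e u := by
  have h0 : s.ζ ^ e ≠ 0 := pow_ne_zero _ s.ζ_ne
  have h1 : (s.ζ ^ e)⁻¹ ^ s.L = 1 := by
    rw [inv_pow, ← pow_mul, mul_comm, pow_mul, s.hζ.pow_eq_one, one_pow, inv_one]
  rw [pr_apply, map_smul, smul_comm (s.ζ ^ e), map_sum]
  congr 1
  rw [Finset.smul_sum]
  have h2 := Finset.sum_range_succ (fun t => s.ζ ^ e • (s.ζ ^ e)⁻¹ ^ t • (TT s ^ t) u) s.L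
  rw [Finset.sum_range_succ', h1, TT_pow_L, pow_zero, pow_zero, add_left_inj] at h2
  rw [← h2]
  refine Finset.sum_congr rfl fun t _ => ?_
  rw [map_smul, pow_succ' (TT s), End.mul_apply, pow_succ', mul_smul, smul_inv_smul₀ h0]

theorem sum_pr (u : FL F X) : ∑ e ∈ Finset.range s.L, pr s e u = u := by
  simp only [pr_apply]
  rw [← Finset.smul_sum, Finset.sum_comm]
  simp only [← Finset.sum_smul]
  rw [Finset.sum_eq_single 0]
  · simp [smul_smul, inv_mul_cancel₀ s.cast_ne]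
  · intro t ht h0
    rw [Finset.mem_range] at ht
    have hp : s.L.Prime := s.hL.resolve_left (by omega)
    have h1 := (s.hζ.inv.pow_of_coprime t (Nat.coprime_of_lt_prime h0 ht hp).symm).geom_sum_eq_zero
      hp.one_lt
    rw [Finset.sum_congr rfl fun e _ => show (s.ζ ^ e)⁻¹ ^ t = (s.ζ⁻¹ ^ t) ^ e by
      rw [← inv_pow, ← pow_mul, ← pow_mul, mul_comm], h1, zero_smul]
  · intro h
    exact absurd (Finset.mem_range.2 s.L_pos) h

theorem pr_of_eig {e : ℕ} {u : FL F X} (h : TT s u = s.ζ ^ e • u) : pr s e u = u := by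
  have h0 : s.ζ ^ e ≠ 0 := pow_ne_zero _ s.ζ_ne
  have h1 : ∀ t : ℕ, (TT s ^ t) u = (s.ζ ^ e) ^ t • u := fun t => by
    induction t with
    | zero => simp
    | succ t ih => rw [pow_succ', End.mul_apply, ih, map_smul, h, smul_smul, pow_succ]
  rw [pr_apply, Finset.sum_congr rfl fun t _ => show _ = u by
    rw [h1, smul_smul, ← mul_pow, inv_mul_cancel₀ h0, one_pow, one_smul]]
  simp [← Nat.cast_smul_eq_nsmul F, smul_smul, inv_mul_cancel₀ s.cast_ne]

theorem pr_TT (e : ℕ) (u : FL F X) : pr s e (TT s u) = s.ζ ^ e • pr s e u := by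
  rw [← TT_pr, pr_apply, pr_apply, map_smul, map_sum]
  congr 1
  refine Finset.sum_congr rfl fun t _ => ?_
  rw [map_smul, ← End.mul_apply, ← End.mul_apply, ← pow_succ, ← pow_succ']

/-- An eigenform vanishes on the other eigenspaces. -/
theorem eig_zero {ψ : Dual F (FL F X)} {e e' : ℕ} (h : ∀ u, ψ (TT s u) = s.ζ ^ e * ψ u)
    (he : e < s.L) (he' : e' < s.L) (hne : e ≠ e') {u : FL F X} (hu : TT s u = s.ζ ^ e' • u) :
    ψ u = 0 := by
  have h1 := h u
  rw [hu, map_smul, smul_eq_mul] at h1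
  exact (mul_eq_mul_right_iff.1 h1).resolve_left fun h2 => hne (s.ζ_inj he he' h2.symm)

theorem eig_pr {ψ : Dual F (FL F X)} {e : ℕ} (h : ∀ u, ψ (TT s u) = s.ζ ^ e * ψ u)
    (he : e < s.L) (u : FL F X) : ψ (pr s e u) = ψ u := by
  conv_rhs => rw [← sum_pr (s := s) u, map_sum]
  symm
  refine Finset.sum_eq_single e (fun e' h1 h2 => ?_) fun h1 => ?_
  · exact eig_zero h he (Finset.mem_range.1 h1) h2.symm (TT_pr e' u)
  · exact absurd (Finset.mem_range.2 he) h1

theorem pr_mem_VV {K : Fam F X} (hK : FInv s K) (hle : ∀ β, K β ≤ mp F β) {w : X → ℕ}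
    (hw : Fx s w) (e : ℕ) {u : FL F X} (hu : u ∈ K w) : pr s e u ∈ K w ⊓ VV s w e := by
  have h1 := pr_mem (fun _ => hK.fix hw) e hu
  exact ⟨h1, mem_VV.2 ⟨hle w h1, fun _ => TT_pr e u⟩⟩

/-- An invariant family is determined by its parts in the eigenspaces. -/
theorem FInv.le_of_VV {K : Fam F X} (hK : FInv s K) (hle : ∀ β, K β ≤ mp F β) {w : X → ℕ}
    {W : Submodule F (FL F X)} (h : ∀ e, e < s.L → K w ⊓ VV s w e ≤ W) : K w ≤ W := by
  intro u hu
  by_cases hw : Fx s w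
  · rw [← sum_pr (s := s) u]
    exact W.sum_mem fun e he => h e (Finset.mem_range.1 he) (pr_mem_VV hK hle hw e hu)
  · exact h 0 s.L_pos ⟨hu, by rw [VV_of_not hw]; exact hle w hu⟩

/-- An eigenform that vanishes on the part in the eigenspace vanishes everywhere. -/
theorem FInv.eig_vanish {K : Fam F X} (hK : FInv s K) (hle : ∀ β, K β ≤ mp F β) {w : X → ℕ}
    {e : ℕ} (he : e < s.L) {ψ : Dual F (FL F X)}
    (hψ : Fx s w → ∀ u, ψ (TT s u) = s.ζ ^ e * ψ u) (h : ∀ u ∈ K w ⊓ VV s w e, ψ u = 0) :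
    ∀ u ∈ K w, ψ u = 0 := by
  intro u hu
  by_cases hw : Fx s w
  · rw [← eig_pr (hψ hw) he]
    exact h _ (pr_mem_VV hK hle hw e hu)
  · exact h u ⟨hu, by rw [VV_of_not hw]; exact hle w hu⟩

theorem ep_lt (s : Sy F X) (i : ℕ) : ep s.L i < s.L := by
  unfold ep
  split_ifs
  · exact Nat.mod_lt _ s.L_pos
  · exact s.L_pos

theorem ep_pi (L i : ℕ) : ep L (pi L i) = ep L i := by
  unfold pi
  split_ifs with h
  · rfl
  · unfold ep
    rw [if_neg h, if_neg (by omega)]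

theorem ep_iter (L t i : ℕ) : ep L ((pi L)^[t] i) = ep L i := by
  induction t with
  | zero => rfl
  | succ t ih => rw [Function.iterate_succ_apply', ep_pi, ih]

end Pool.Agent.P.MP_8598be_al.K
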