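import Pool.Agent.P.MP_8598be_al.K.S9

/-!
The steps of the enumeration over a fixed finite field: the dimension of a node.
-/

set_option linter.unusedSectionVars false
set_option linter.unusedVariables false

namespace Pool.Agent.P.MP_8598be_al.K

open Module Z

variable {F X : Type} [Field F] [Fintype X] [DecidableEq X] {s : Sy F X}
  {fr : List (EnF F X)} {ν : (X → ℕ) × ℕ}

theorem exists_of_indep {M ι : Type} [AddCommGroup M] [Module F M] [Finite ι] {g : ι → Dual F M}
    (h : LinearIndependent F g) (y : ι → F) : ∃ u, ∀ i, g i u = y i := by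
  have := Fintype.ofFinite ι
  classical
  by_contra h1
  obtain ⟨χ, h2, h3⟩ := Submodule.exists_dual_map_eq_bot_of_notMem
    (p := LinearMap.range (LinearMap.pi g)) (x := y)
    (fun ⟨u, hu⟩ => h1 ⟨u, congrFun hu⟩) inferInstance
  have h4 := Fintype.linearIndependent_iff.1 h (fun i => χ fun k => if i = k then 1 else 0) (by
    ext u
    have h4 := (Submodule.mem_bot F).1 (h3 ▸ Submodule.mem_map_of_mem (LinearMap.mem_range_self _ u))
    rw [LinearMap.pi_apply_eq_sum_univ] at h4
    simpa [mul_comm] using h4)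
  rw [LinearMap.pi_apply_eq_sum_univ] at h2
  exact h2 (Finset.sum_eq_zero fun i _ => by rw [h4 i, smul_zero])

theorem exists_compl_basis {V ι : Type} [AddCommGroup V] [Module F V] [Fintype ι]
    {N : Submodule F V} [Module.Finite F N] {g : ι → V} (h : LinearIndependent F g)
    (hN : ∀ i, g i ∈ N) : ∃ (m : ℕ) (b : Fin m → V), (∀ k, b k ∈ N) ∧
      LinearIndependent F (Sum.elim b g) ∧ N ≤ Submodule.span F (Set.range (Sum.elim b g)) ∧
      m + Fintype.card ι = finrank F N := by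
  have h5 : Submodule.span F (Set.range g) ≤ N := Submodule.span_le.2 (Set.range_subset_iff.2 hN)
  obtain ⟨C, h6, h7, _⟩ := compl_basic h5
  have : Module.Finite F (Submodule.span F (Set.range g)) := Submodule.finiteDimensional_of_le h5
  have h8 := Submodule.finrank_sup_add_finrank_inf_eq (Submodule.span F (Set.range g)) C
  rw [h6, h7, add_eq_left, Submodule.finrank_eq_zero] at h8
  let b := finBasis F C
  have h9 : Submodule.span F (Set.range fun k => (b k).1) = C := by
    rw [show (fun k => (b k).1) = C.subtype ∘ b from rfl, Set.range_comp, ← Submodule.map_span,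
      b.span_eq, Submodule.map_subtype_top]
  refine ⟨_, fun k => (b k).1, fun k => h6 ▸ Submodule.mem_sup_right (b k).2,
    (b.linearIndependent.map' C.subtype C.ker_subtype).sum_type h
      ((disjoint_iff.2 h8).symm.mono_left h9.le), ?_, ?_⟩
  · rw [Set.Sum.elim_range, Submodule.span_union, h9, sup_comm, h6]
  · rw [← h7, finrank_span_eq_card h, add_comm]

/-- The solutions of the equations of a node. -/
noncomputable def Sol (s : Sy F X) (ν : (X → ℕ) × ℕ) (cols : List (EnF F X × EnF F X)) :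
    Submodule F (Fin cols.length → F) :=
  LinearMap.ker (Fintype.linearCombination F fun k : Fin cols.length => cv (colT s ν cols[k]))

theorem nw_equiv (hg : GoodF s fr) (h2 : 2 ≤ tot ν.1) {cols : List (EnF F X × EnF F X)}
    (hc : ColsOk fr ν.1 cols) : Nonempty (NW s fr ν ≃ₗ[F] Sol s ν cols) := by
  let Φ : NW s fr ν →ₗ[F] Fin cols.length → F :=
    LinearMap.pi fun k => (Dual.eval F _ (EE s fr cols[k])).comp (NW s fr ν).subtype
  have h3 : Function.Injective Φ := fun ψ χ h => by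
    refine Subtype.ext (sub_eq_zero.1 (nw_eq_zero hg h2 hc (sub_mem ψ.2 χ.2) fun c h' => ?_))
    obtain ⟨k, hk, rfl⟩ := List.getElem_of_mem h'
    exact sub_eq_zero.2 (congrFun h ⟨k, hk⟩)
  have h4 : ∀ x : Fin cols.length → F, x ∈ Sol s ν cols ↔
      ∀ k, ((List.ofFn fun i => (x i, cols[i])).map fun p => p.1 * cv (colT s ν p.2) k).sum = 0 :=
    fun x => by
      rw [Sol, LinearMap.mem_ker, Fintype.linearCombination_apply, funext_iff]
      simp only [List.map_ofFn, List.sum_ofFn, Finset.sum_apply, Function.comp_apply, Pi.smul_apply,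
        smul_eq_mul, Pi.zero_apply]
  have h5 : ∀ x : Fin cols.length → F, ∀ p ∈ List.ofFn fun i => (x i, cols[i]), p.2 ∈ cols :=
    fun x p hp => by
      obtain ⟨i, rfl⟩ := List.mem_ofFn.1 hp
      exact List.getElem_mem i.2
  have h6 : LinearMap.range Φ = Sol s ν cols := by
    ext x
    rw [h4, sol_iff hg h2 fun p hp => ⟨(hc.mem _ (h5 x p hp)).1, (hc.mem _ (h5 x p hp)).2.1⟩]
    constructor
    · rintro ⟨ψ, rfl⟩
      refine ⟨ψ, ?_, ψ.2.2.2⟩
      convert nw_real hg h2 hc ψ.2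
      exact List.ext_getElem (by simp [zc]) fun _ _ _ => by simp [zc, Φ]
    · rintro ⟨ψ, h6, h7⟩
      have h8 := sup_tm fun p hp =>
        ⟨(hc.mem _ (h5 x p hp)).1, (hc.mem _ (h5 x p hp)).2.1, (hc.mem _ (h5 x p hp)).2.2.1⟩
      refine ⟨⟨ψ, nw_of_real hg h6 h8 h7⟩, funext fun k => ?_⟩
      obtain ⟨h9, h10, -, h11⟩ := hc.mem _ (List.getElem_mem k.2)
      refine (h6.EE hg h8 h9 h10).trans (co_tm (p := (x k, cols[k])) ?_
        (List.mem_ofFn.2 ⟨k, rfl⟩) h11)
      rw [List.pairwise_ofFn]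
      exact fun i i' h => List.pairwise_iff_getElem.1 hc.pw i i' i.2 i'.2 h
  exact ⟨(LinearEquiv.ofInjective Φ h3).trans (LinearEquiv.ofEq _ _ h6)⟩

/-- A basis exists, and its length is determined by the dimension of the space of solutions. -/
theorem node_dim (hg : GoodF s fr) (h2 : 2 ≤ tot ν.1) (he : ν.2 < s.L)
    {cols : List (EnF F X × EnF F X)} (hc : ColsOk fr ν.1 cols) :
    ∃ κ : List (Tms F), PendOk s fr ν κ ∧ κ.length +
      Set.ncard {i | ∃ a ∈ fr, a.i = i ∧ a.w = ν.1 ∧ (Fx s ν.1 → ep s.L a.i = ν.2)} =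
        finrank F (Sol s ν cols) := by
  classical
  obtain ⟨Φ⟩ := nw_equiv hg h2 hc
  have : Module.Finite F (NW s fr ν) := Module.Finite.equiv Φ.symm
  set S : Set ℕ := {i | ∃ a ∈ fr, a.i = i ∧ a.w = ν.1 ∧ (Fx s ν.1 → ep s.L a.i = ν.2)}
  have h3 : ∀ i : S, i.1 ∈ idx fr := fun ⟨i, a, ha, e, _⟩ => mem_idx.2 ⟨a, ha, e⟩
  have : Fintype S := ((idx fr).finite_toSet.subset fun i hi => h3 ⟨i, hi⟩).fintype
  have h4 : LinearIndependent F fun i : S => ph s fr i := Fintype.linearIndependent_iff.2 fun c h i => by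
    have h4 := LinearMap.congr_fun h (ee s fr i)
    rw [LinearMap.sum_apply, Finset.sum_eq_single_of_mem i (Finset.mem_univ i) fun k _ e => by
      rw [LinearMap.smul_apply, ph_ee' hg (h3 i) (h3 k), if_neg fun e' => e (Subtype.ext e').symm,
        smul_zero], LinearMap.smul_apply, ph_ee' hg (h3 i) (h3 i), if_pos rfl, smul_eq_mul,
      mul_one] at h4
    exact h4
  obtain ⟨m, b, h9, h5, h6, h7⟩ := exists_compl_basis (N := NW s fr ν) h4 (by
    rintro ⟨_, a, ha, rfl, h5⟩
    exact ph_mem_nw hg ha h5.1 h5.2)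
  have h10 := fun k => nw_real hg h2 hc (h9 k)
  refine ⟨List.ofFn fun k => tm (zc s fr cols (b k)), pendOk_of hg h2 he (fun t ht => ?_)
    (fun y => ?_) fun ψ hψ u h11 h12 => ?_, ?_⟩
  · obtain ⟨k, rfl⟩ := List.mem_ofFn.1 ht
    exact ⟨sup_tm hc.zc, _, h10 k, (h9 k).2.2⟩
  · obtain ⟨u, hu⟩ := exists_of_indep h5 (Sum.elim (fun k => y k) 0)
    obtain ⟨P, h11, h12⟩ := exists_proj (F := F) ν.1
    have h13 : ∀ ψ ∈ NW s fr ν, ψ (P u) = ψ u := fun ψ hψ =>
      LinearMap.congr_fun (ext_mp (f := ψ.comp P) fun β v hv => by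
        rw [LinearMap.comp_apply]
        by_cases e : β = ν.1
        · rw [h11 v (e ▸ hv)]
        · rw [h12 β e v hv, map_zero, hψ.1 β e v hv]) u
    have h14 : P u ∈ mp F ν.1 := by
      have h14 : (mp F ν.1).mkQ.comp P = 0 := ext_mp fun β v hv => by
        rw [LinearMap.comp_apply]
        by_cases e : β = ν.1
        · rw [h11 v (e ▸ hv)]
          exact (Submodule.Quotient.mk_eq_zero _).2 (e ▸ hv)
        · rw [h12 β e v hv, map_zero, LinearMap.zero_apply]
      exact (Submodule.Quotient.mk_eq_zero _).1 (LinearMap.congr_fun h14 u)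
    refine ⟨P u, h14, fun k hk => ?_, fun a ha e e' => ?_⟩
    · rw [List.getElem_ofFn, (h10 _).fn_eq, h13 _ (h9 _)]
      exact hu (.inl ⟨k, _⟩)
    · rw [h13 _ (ph_mem_nw hg ha e e')]
      exact hu (.inr ⟨a.i, a, ha, rfl, e, e'⟩)
  · refine (Submodule.span_le.2 ?_ : _ ≤ LinearMap.ker (Dual.eval F _ u)) (h6 hψ)
    rintro _ ⟨k | ⟨_, a, ha, rfl, h13⟩, rfl⟩
    · have h13 := h11 _ (List.mem_ofFn.2 ⟨k, rfl⟩)
      rwa [(h10 k).fn_eq] at h13
    · exact h12 a ha
  · rw [List.length_ofFn, ← Φ.finrank_eq, ← h7, ← Nat.card_coe_set_eq, Nat.card_eq_fintype_card]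

end Pool.Agent.P.MP_8598be_al.K
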