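import Pool.Agent.P.MP_8598be_al.K.Sem

/-!
The cost modulo the order of the symmetry.
-/

set_option linter.unusedSectionVars false
set_option linter.unusedVariables false

namespace Pool.Agent.P.MP_8598be_al.K

open Module Z

variable {F X : Type} [Field F] [Fintype X] [DecidableEq X] {s : Sy F X} {γ : Ty X}
  {fr : List (EnF F X)} {D r lo : ℕ} {todo : List ((X → ℕ) × ℕ)}

theorem ColsOk.perm {α : X → ℕ} {cols cols' : List (EnF F X × EnF F X)} (h : ColsOk fr α cols)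
    (p : cols.Perm cols') : ColsOk fr α cols' where
  mem c hc := h.mem c (p.mem_iff.2 hc)
  all a ha b hb e e' := by simpa only [p.mem_iff] using h.all a ha b hb e e'
  pw := (p.pairwise_iff fun {c c'} h' =>
    ⟨fun e => h'.1 ⟨e.1.symm, e.2.symm⟩, fun e => h'.2 ⟨e.2.symm, e.1.symm⟩⟩).1 h.pw

theorem exists_one {β : X → ℕ} (h : tot β = 1) : ∃ y, β = one y := tot_eq_one.1 h

/-- The sum of an invariant function over a union of free orbits. -/
theorem dvd_sum_free {E : (X → ℕ) → ℕ} (hE : ∀ w, E (w ∘ s.σ) = E w) (U : Finset (X → ℕ))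
    (h1 : ∀ w ∈ U, w ∘ s.σ ∈ U) (h2 : ∀ w ∈ U, ¬ Fx s w) : s.L ∣ ∑ w ∈ U, E w := by
  induction U using Finset.strongInduction with
  | H U ih =>
    rcases U.eq_empty_or_nonempty with rfl | ⟨β, hβ⟩
    · simp
    have h3 : ∀ t : ℕ, β ∘ ⇑(s.σ ^ t) ∈ U ∧ E (β ∘ ⇑(s.σ ^ t)) = E β := fun t => by
      induction t with
      | zero => exact ⟨hβ, rfl⟩
      | succ t iht => rw [← comp_pow_succ, hE]; exact ⟨h1 _ iht.1, iht.2⟩
    let O : Finset (X → ℕ) := (Finset.range s.L).image fun t => β ∘ (s.σ ^ t :)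
    have h4 : ∀ t : ℕ, β ∘ ⇑(s.σ ^ t) ∈ O := fun t => Finset.mem_image.2
      ⟨t % s.L, Finset.mem_range.2 (Nat.mod_lt _ s.L_pos), by rw [← pow_eq_pow_mod _ s.hσ]⟩
    have h5 : O ⊆ U := fun w hw => by
      obtain ⟨t, -, rfl⟩ := Finset.mem_image.1 hw
      exact (h3 t).1
    have h6 := orb_of_not_fx (h2 β hβ)
    rw [← Finset.sum_sdiff h5]
    refine dvd_add (ih _ (Finset.sdiff_ssubset h5 ⟨_, h4 0⟩) (fun w hw => ?_)
      fun w hw => h2 w (Finset.mem_sdiff.1 hw).1) ?_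
    · obtain ⟨h7, h8⟩ := Finset.mem_sdiff.1 hw
      refine Finset.mem_sdiff.2 ⟨h1 w h7, fun h9 => h8 ?_⟩
      obtain ⟨t, -, e⟩ := Finset.mem_image.1 h9
      have h10 := comp_pow_back s w 1
      rw [pow_one, ← e, comp_pow_add] at h10
      exact h10 ▸ h4 _
    · rw [Finset.sum_image fun t ht t' ht' e => orbit_inj (h6 ▸ Finset.mem_range.1 ht)
        (h6 ▸ Finset.mem_range.1 ht') e, Finset.sum_congr rfl fun t _ => (h3 t).2,
        Finset.sum_const, Finset.card_range, smul_eq_mul]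
      exact dvd_mul_right _ _

theorem ty_comp {J : Chain F X} (h : Inv {s.σ} J) (j : ℕ) (w : X → ℕ) :
    J.ty j (w ∘ s.σ) = J.ty j w := by
  rw [← h.adm.inv s.σ rfl j, push_comp_perm]

/-- No new dimension sits on a fixed multidegree. -/
theorem fixed_eq (hg : GoodF s fr) (hb : Bud lo γ 0 fr.length r) (hD : ∀ a ∈ fr, tot a.w ≤ D)
    (ht : ∀ ν ∈ todo, ¬ Fx s ν.1)
    (hr : ∀ β, D < tot β → Fx s β → r < (tot β - D - 1) * s.L + 1) {J : Chain F X}
    (hJ : CC s γ 0 J) (hA : Ag s (KK s fr) D todo (J.J 0)) {β : X → ℕ} (hβ : Fx s β) :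
    J.J 0 β = KK s fr β := by
  induction hn : tot β using Nat.strong_induction_on generalizing β with
  | _ n ih =>
  rcases lt_trichotomy n D with h1 | h1 | h1
  · exact hA.1.2 β (by omega)
  · refine le_antisymm (hA.1.1 β) ((KK_finv hg).le_of_VV KK_le fun e he => ?_)
    rw [← hA.2 β e (by omega) he fun ν hν h2 => ?_]
    · exact inf_le_left
    · rcases h2 with ⟨-, e', -⟩ | ⟨h2, -⟩
      · exact ht ν hν (e' ▸ hβ)
      · exact h2 hβ
  by_contra hne
  have h2 : ∀ δ, D < tot δ → KK s fr δ = mp F δ := fun δ hδ => KK_eq_mp hg fun a ha e => by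
    have := hD a ha
    rw [e] at this
    omega
  have h3 : J.ty 0 β ≠ 0 := fun e => hne (by rw [h2 β (by omega)]; exact J.ty_eq_zero.1 e)
  obtain ⟨x, hx⟩ := Function.ne_iff.1 fun e : β = 0 => by
    rw [tot_eq_zero.2 e] at hn
    omega
  have h4 : ∀ d : ℕ, ∃ δ, D < d → d < n → J.ty 0 δ ≠ 0 ∧ tot δ = d := fun d => by
    by_cases hd : D < d ∧ d < n
    · obtain ⟨δ, -, -, h4⟩ := J.adm_empty.exists_deg h3 hx (m := d) (by omega) (by omega)
      exact ⟨δ, fun _ _ => h4⟩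
    · exact ⟨0, fun h4 h5 => absurd ⟨h4, h5⟩ hd⟩
  choose b hb' using h4
  have h5 : ∀ d ∈ Finset.Ioo D n, tot (b d) = d ∧ J.J 0 (b d) ≠ KK s fr (b d) := fun d hd => by
    obtain ⟨h5, h6⟩ := hb' d (Finset.mem_Ioo.1 hd).1 (Finset.mem_Ioo.1 hd).2
    refine ⟨h6, fun e => h5 (J.ty_eq_zero.2 ?_)⟩
    rw [e, h2 _ (h6.symm ▸ (Finset.mem_Ioo.1 hd).1)]
  have h6 : ∀ d ∈ Finset.Ioo D n, orb s (b d) = s.L := fun d hd => orb_of_not_fx fun hf =>
    (h5 d hd).2 (ih d (Finset.mem_Ioo.1 hd).2 hf (h5 d hd).1)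
  have h7 := budget_orb hg hb hJ hA.1.1 (insert β ((Finset.Ioo D n ×ˢ Finset.range s.L).image
    fun q : ℕ × ℕ => b q.1 ∘ ⇑(s.σ ^ q.2))) fun δ hδ e => by
      rcases Finset.mem_insert.1 hδ with rfl | hδ
      · exact hne e
      · obtain ⟨⟨d, t⟩, hq, rfl⟩ := Finset.mem_image.1 hδ
        have h8 := (hJ.finv 0).le_pow (KK_finv hg) e.ge (t * (s.L - 1))
        rw [comp_pow_back] at h8
        exact (h5 d (Finset.mem_product.1 hq).1).2 (le_antisymm (hA.1.1 _) h8)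
  rw [Finset.card_insert_of_notMem fun h8 => by
      obtain ⟨⟨d, t⟩, hq, e⟩ := Finset.mem_image.1 h8
      have h9 := (Finset.mem_product.1 hq).1
      have h10 := congrArg tot e
      rw [tot_comp, (h5 d h9).1, hn] at h10
      exact (Finset.mem_Ioo.1 h9).2.ne h10,
    Finset.card_image_of_injOn fun ⟨d, t⟩ hq ⟨d', t'⟩ hq' e => by
      obtain ⟨h8, h9⟩ := Finset.mem_product.1 hq
      obtain ⟨h8', h9'⟩ := Finset.mem_product.1 hq'
      have h10 := congrArg tot e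
      rw [tot_comp, tot_comp, (h5 d h8).1, (h5 d' h8').1] at h10
      subst h10
      exact Prod.ext rfl (orbit_inj (h6 d h8 ▸ Finset.mem_range.1 h9)
        (h6 d h8 ▸ Finset.mem_range.1 h9') e),
    Finset.card_product, Nat.card_Ioo, Finset.card_range] at h7
  have h8 := hr β (by omega) hβ
  rw [hn] at h8
  omega

theorem bud_mod (hg : GoodF s fr) (hb : Bud lo γ 0 fr.length r) (hD : ∀ a ∈ fr, tot a.w ≤ D)
    (ht : ∀ ν ∈ todo, ¬ Fx s ν.1)
    (hr : ∀ β, D < tot β → Fx s β → r < (tot β - D - 1) * s.L + 1) (hL : s.L ≠ 1)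
    (h0 : vTodo s γ fr 0 D todo ≠ 0) :
    ∃ e, s.L ∣ e ∧ HasCost (fun i α => if i ≤ 0 then γ i α else 0) (fr.length + e) := by
  obtain ⟨J, hJ, hA⟩ : ∃ J, CC s γ 0 J ∧ Ag s (KK s fr) D todo (J.J 0) := by
    by_contra h1
    exact h0 (cnt_zero fun J hJ hA => h1 ⟨J, hJ, hA⟩)
  have h1 := fun β => fixed_eq hg hb hD ht hr hJ hA (β := β)
  obtain ⟨m, δ, ⟨S, hS, hm⟩, -⟩ := hb
  rw [← hJ.ty_eq] at hS ⊢
  have hK : Inv {s.σ} (KC hg) := inv_iff.2 fun _ => KK_finv hg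
  have h2 : ∀ β, tyL (fr.map EnF.w) β ≤ J.ty 0 β := fun β => by
    have : Module.Finite F (KK s fr β) := Submodule.finiteDimensional_of_le (KK_le β)
    have h2 := Submodule.finrank_mono (hA.1.1 β)
    rw [← KK_ty hg, Chain.ty]
    omega
  let E : (X → ℕ) → ℕ := fun β => J.ty 0 β - tyL (fr.map EnF.w) β
  have h3 : ∀ w, E (w ∘ s.σ) = E w := fun w => by
    simp only [E]
    rw [ty_comp hJ.1, ← KC_ty hg 0, ty_comp hK]
  let T : Finset (X → ℕ) := S.image Prod.snd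
  have h4 : ∀ β, J.ty 0 β ≠ 0 → β ∈ T := fun β h =>
    Finset.mem_image.2 ⟨(0, β), by_contra fun h' => h (hS 0 β h'), rfl⟩
  refine ⟨∑ β ∈ T.filter fun β => E β ≠ 0, E β, dvd_sum_free h3 _ (fun w hw => ?_) fun w hw hf => ?_,
    {0} ×ˢ T, fun j α h => ?_, ?_⟩
  · have h5 := (Finset.mem_filter.1 hw).2
    rw [← h3] at h5
    exact Finset.mem_filter.2 ⟨h4 _ fun e => h5 (by simp only [E, e, Nat.zero_sub]), h5⟩
  · refine (Finset.mem_filter.1 hw).2 ?_
    simp only [E]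
    rw [← KK_ty hg, Chain.ty, h1 w hf, Nat.sub_self]
  · rcases Nat.eq_zero_or_pos j with rfl | hj
    · exact by_contra fun e => h (Finset.mem_product.2 ⟨Finset.mem_singleton_self 0, h4 α e⟩)
    · exact J.ty_eq_zero.2 (congrFun (hJ.2.2 j hj) α)
  · rw [Finset.sum_product, Finset.sum_singleton, Finset.sum_filter_ne_zero,
      ← List.length_map EnF.w, ← sum_tyL (T := T) (fr.map EnF.w) fun α hα => h4 α
        (Nat.pos_iff_ne_zero.1 ((List.count_pos_iff.2 hα).trans_le (h2 α))),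
      ← Finset.sum_add_distrib]
    exact Finset.sum_congr rfl fun β _ => (Nat.add_sub_cancel' (h2 β)).symm

end Pool.Agent.P.MP_8598be_al.K
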