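import Pool.Agent.P.MP_8598be_al.Z.Defs2

/-!
Frames of linear forms on a free Lie algebra and the counting functions of the enumeration.
-/

namespace Pool.Agent.P.MP_8598be_al.K

open Module Z

/-- The symmetry: a permutation of order dividing `L` and a primitive `L`-th root of unity. -/
structure Sy (F X : Type) [Field F] where
  /-- The permutation. -/
  σ : Equiv.Perm X
  /-- The order. -/
  L : ℕ
  /-- The root of unity. -/
  ζ : F
  hL : L = 1 ∨ L.Prime
  hσ : σ ^ L = 1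
  hζ : IsPrimitiveRoot ζ L

/-- The action on indices: odd indices are fixed, even indices come in cycles of length `L`. -/
def pi (L i : ℕ) : ℕ := if i % 2 = 1 then i else 2 * (i / 2 / L * L + (i / 2 % L + 1) % L)

/-- The exponent of the eigenvalue of an index. -/
def ep (L i : ℕ) : ℕ := if i % 2 = 1 then i / 2 % L else 0

/-- Lists of terms of a coproduct. -/
abbrev Tms (F : Type) : Type := List (ℕ × ℕ × F)

/-- An entry of a frame: index, multidegree and coproduct. -/
structure EnF (F X : Type) where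
  /-- The index. -/
  i : ℕ
  /-- The multidegree. -/
  w : X → ℕ
  /-- The coproduct. -/
  t : Tms F

/-- The key of a triple of indices. -/
def k3 (j l b : ℕ) : ℕ := 2 ^ j + 2 ^ l + 2 ^ b

/-- The key of a pair of indices. -/
def k2 (a b : ℕ) : ℕ := 2 ^ a + 2 ^ b

section Lists

variable {F X : Type} [Field F]

/-- The sign of a pair. -/
def sg2 (F : Type) [Field F] (a b : ℕ) : F := if a = b then 0 else if a < b then 1 else -1

/-- The sign of a triple. -/
def sg3 (F : Type) [Field F] (j l b : ℕ) : F := sg2 F j l * sg2 F j b * sg2 F l b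

/-- The coefficient of a key in a list of keys with coefficients. -/
def cv (l : List (ℕ × F)) (k : ℕ) : F := (l.map fun x => if x.1 = k then x.2 else 0).sum

/-- The value of a coproduct on the pair of dual basis vectors of a column. -/
def co (t : Tms F) (a b : ℕ) : F :=
  (t.map fun x => (if x.1 = a ∧ x.2.1 = b then x.2.2 else 0) -
    if x.1 = b ∧ x.2.1 = a then x.2.2 else 0).sum

/-- The bilinear form of a coproduct. -/
def cop {M : Type} [AddCommGroup M] [Module F M] (φ : ℕ → Dual F M) (t : Tms F) (u v : M) : F :=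
  (t.map fun x => x.2.2 * (φ x.1 u * φ x.2.1 v - φ x.2.1 u * φ x.1 v)).sum

/-- The second coproduct is `c` times the first one and uses no new pairs of indices. -/
def TRel (c : F) (t t' : Tms F) : Prop :=
  (∀ a b, co t' a b = c * co t a b) ∧
    ∀ x ∈ t', ∃ y ∈ t, (x.1 = y.1 ∧ x.2.1 = y.2.1) ∨ (x.1 = y.2.1 ∧ x.2.1 = y.1)

/-- The second frame is the first one with all coproducts multiplied by `c`, in any order. -/
def FRel (c : F) (fr fr' : List (EnF F X)) : Prop :=
  ∃ g : List (EnF F X),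
    List.Forall₂ (fun a b => b.i = a.i ∧ b.w = a.w ∧ TRel c a.t b.t) fr g ∧ g.Perm fr'

/-- Every vector lies outside the span of the previous ones. -/
def Tri : List (ℕ → F) → List (ℕ → F) → Prop
  | _, [] => True
  | prev, v :: vs => v ∉ Submodule.span F {x | x ∈ prev} ∧ Tri (v :: prev) vs

/-- The old entries are in echelon form with respect to their columns. -/
def Ech : List (EnF F X) → List (EnF F X × EnF F X) → Prop
  | [], cs => cs = []
  | _ :: _, [] => False
  | o :: os, c :: cs => co o.t c.1.i c.2.i ≠ 0 ∧ (∀ c' ∈ cs, co o.t c'.1.i c'.2.i = 0) ∧ Ech os cs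

/-- The coproduct with the given coefficients on a free column and the pivot columns. -/
def kap (f : EnF F X × EnF F X) (s : F) (ys : List F) (piv : List (EnF F X × EnF F X)) : Tms F :=
  (f.1.i, f.2.i, s) :: List.zipWith (fun y c => (c.1.i, c.2.i, y)) ys piv

/-- A linear combination of coproducts. -/
def comb (t : Tms F) (A : List (Tms F)) (ts : List F) : Tms F :=
  t ++ (List.zipWith (fun c a => a.map fun x => (x.1, x.2.1, c * x.2.2)) ts A).flatten

/-- The indices of the terms belong to the frame and have the right multidegrees. -/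
def Sup (fr : List (EnF F X)) (w : X → ℕ) (t : Tms F) : Prop :=
  ∀ x ∈ t, ∃ a ∈ fr, ∃ b ∈ fr, a.i = x.1 ∧ b.i = x.2.1 ∧ a.w + b.w = w

variable (s : Sy F X)

/-- The multidegree is fixed by a nontrivial symmetry. -/
def Fx (w : X → ℕ) : Prop := s.L ≠ 1 ∧ w ∘ s.σ = w

/-- The length of the orbit of a multidegree. -/
noncomputable def orb (w : X → ℕ) : ℕ := by
  classical
  exact if w ∘ s.σ = w then 1 else s.L

/-- The Jacobi terms of a column and, for a fixed multidegree, the eigenvalue terms. -/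
noncomputable def colT (ν : (X → ℕ) × ℕ) (c : EnF F X × EnF F X) : List (ℕ × F) := by
  classical
  exact (c.1.t.map fun x => (k3 x.1 x.2.1 c.2.i, sg3 F x.1 x.2.1 c.2.i * x.2.2)) ++
    (c.2.t.map fun x => (k3 x.1 x.2.1 c.1.i, -(sg3 F x.1 x.2.1 c.1.i * x.2.2))) ++
    if Fx s ν.1 then
      [(k2 (pi s.L c.1.i) (pi s.L c.2.i),
          sg2 F (pi s.L c.1.i) (pi s.L c.2.i) * s.ζ ^ (ep s.L c.1.i + ep s.L c.2.i)),
        (k2 c.1.i c.2.i, -(sg2 F c.1.i c.2.i * s.ζ ^ ν.2))]
    else []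

/-- The multidegree `β` with the exponent `e` belongs to the node `ν`. -/
def Rel (ν : (X → ℕ) × ℕ) (β : X → ℕ) (e : ℕ) : Prop :=
  (Fx s β ∧ ν.1 = β ∧ ν.2 = e) ∨ (¬ Fx s β ∧ ∃ t : ℕ, ν.1 ∘ (s.σ ^ t :) = β)

/-- The frame with the orbit of a new linear form. -/
noncomputable def install (fr : List (EnF F X)) (w : X → ℕ) (T : Tms F) (ix : ℕ → ℕ) :
    List (EnF F X) :=
  fr ++ (List.range (orb s w)).map fun t => ⟨ix t, w ∘ (s.σ ^ t :), T.map fun x =>
    ((pi s.L)^[t] x.1, (pi s.L)^[t] x.2.1, s.ζ ^ (t * (ep s.L x.1 + ep s.L x.2.1)) * x.2.2)⟩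

/-- The new indices are fresh and form a cycle. -/
structure IxOk (fr : List (EnF F X)) (ν : (X → ℕ) × ℕ) (ix : ℕ → ℕ) : Prop where
  fresh : ∀ t, t < orb s ν.1 → ∀ a ∈ fr, a.i ≠ ix t
  inj : ∀ t t', t < orb s ν.1 → t' < orb s ν.1 → ix t = ix t' → t = t'
  cyc : ∀ t, t < orb s ν.1 → pi s.L (ix t) = ix ((t + 1) % orb s ν.1)
  fix : Fx s ν.1 → ep s.L (ix 0) = ν.2
  free : ¬ Fx s ν.1 → ∀ t, t < orb s ν.1 → ep s.L (ix t) = 0

end Lists

section Frames

variable {F X : Type} [Field F] [Fintype X] [DecidableEq X] (s : Sy F X)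

/-- The linear form `ψ` has the multidegree `w` and the coproduct `t`. -/
def Real (φ : ℕ → Dual F (FL F X)) (w : X → ℕ) (t : Tms F) (ψ : Dual F (FL F X)) : Prop :=
  (∀ u v, ψ ⁅u, v⁆ = cop φ t u v) ∧ ∀ y, ψ (gen F y) = if w = one y then 1 else 0

/-- The linear forms realise the frame. -/
structure Good (fr : List (EnF F X)) (φ : ℕ → Dual F (FL F X)) : Prop where
  nodup : (fr.map EnF.i).Nodup
  real : ∀ a ∈ fr, Real φ a.w a.t (φ a.i)
  sup : ∀ a ∈ fr, Sup fr a.w a.t
  dual : ∃ e : ℕ → FL F X, ∀ a ∈ fr, e a.i ∈ mp F a.w ∧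
    ∀ b ∈ fr, φ b.i (e a.i) = if a.i = b.i then 1 else 0
  act : ∀ a ∈ fr, ∃ b ∈ fr, b.i = pi s.L a.i ∧ b.w = a.w ∘ s.σ ∧
    ∀ u, φ a.i (ren F s.σ u) = s.ζ ^ ep s.L a.i * φ b.i u
  fixd : ∀ a ∈ fr, Fx s a.w → pi s.L a.i = a.i ∧ ep s.L a.i < s.L

/-- The frame can be realised. -/
def GoodF (fr : List (EnF F X)) : Prop := ∃ φ, Good s fr φ

/-- The linear forms of a frame. -/
noncomputable def ph (fr : List (EnF F X)) : ℕ → Dual F (FL F X) := Classical.epsilon (Good s fr)

/-- The linear form with a given coproduct. -/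
noncomputable def fn (fr : List (EnF F X)) (w : X → ℕ) (t : Tms F) : Dual F (FL F X) :=
  Classical.epsilon (Real (ph s fr) w t)

/-- Families of subspaces. -/
abbrev Fam (F X : Type) [Field F] : Type := (X → ℕ) → Submodule F (FL F X)

/-- The ideal of a frame. -/
noncomputable def KK (fr : List (EnF F X)) : Fam F X :=
  fun α => mp F α ⊓ ⨅ a ∈ fr, LinearMap.ker (ph s fr a.i)

/-- The space of a node. -/
noncomputable def VV (α : X → ℕ) (e : ℕ) : Submodule F (FL F X) := by
  classical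
  exact if Fx s α then
    mp F α ⊓ End.eigenspace (ren F s.σ : FL F X →ₗ[F] FL F X) (s.ζ ^ e) else mp F α

/-- The part that is forced by the lower parts. -/
noncomputable def lowK (K : Fam F X) (β : X → ℕ) : Submodule F (FL F X) :=
  ⨆ (α : X → ℕ) (y : X) (_ : α + one y = β), (K α).map (adr F y)

/-- `J` is contained in `K` and agrees with it below degree `D`. -/
def AgD (K : Fam F X) (D : ℕ) (J : Fam F X) : Prop :=
  (∀ β, J β ≤ K β) ∧ ∀ β, tot β < D → J β = K β

/-- `J` also agrees with `K` in degree `D` outside the listed nodes. -/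
def Ag (K : Fam F X) (D : ℕ) (todo : List ((X → ℕ) × ℕ)) (J : Fam F X) : Prop :=
  AgD K D J ∧ ∀ β e, tot β = D → e < s.L → (∀ ν ∈ todo, ¬ Rel s ν β e) →
    J β ⊓ VV s β e = K β ⊓ VV s β e

/-- No nonzero combination of the forms in `A` vanishes on `J`. -/
def Part (K : Fam F X) (ν : (X → ℕ) × ℕ) (A : List (Dual F (FL F X))) (J : Fam F X) : Prop :=
  K ν.1 ⊓ VV s ν.1 ν.2 ≤
    (J ν.1 ⊓ VV s ν.1 ν.2) ⊔ (K ν.1 ⊓ VV s ν.1 ν.2 ⊓ ⨅ ψ ∈ A, LinearMap.ker ψ)

/-- The number of invariant chains that end at level `j`, have the type `γ` up to there and whose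
ideal at level `j` has the property `Q`. -/
noncomputable def cnt (γ : Ty X) (j : ℕ) (Q : Fam F X → Prop) : ℕ :=
  Nat.card {J : Chain F X // Inv {s.σ} J ∧ (∀ i, i ≤ j → J.ty i = γ i) ∧
    (∀ i, j < i → J.J i = mp F) ∧ Q (J.J j)}

/-- The value at the start of a degree. -/
noncomputable def vDeg (γ : Ty X) (fr : List (EnF F X)) (j D : ℕ) : ℕ :=
  cnt s γ j (AgD (KK s fr) D)

/-- The value inside a degree. -/
noncomputable def vTodo (γ : Ty X) (fr : List (EnF F X)) (j D : ℕ)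
    (todo : List ((X → ℕ) × ℕ)) : ℕ :=
  cnt s γ j (Ag s (KK s fr) D todo)

/-- The value inside a node. -/
noncomputable def vPend (γ : Ty X) (fr : List (EnF F X)) (j D : ℕ) (ν : (X → ℕ) × ℕ)
    (rest : List ((X → ℕ) × ℕ)) (A : List (Tms F)) : ℕ :=
  cnt s γ j fun J => Ag s (KK s fr) D (ν :: rest) J ∧
    Part s (KK s fr) ν (A.map (fn s fr ν.1)) J ∧ ¬ Ag s (KK s fr) D rest J

/-- The value at the end of a level. -/
noncomputable def vEnd (γ : Ty X) (fr : List (EnF F X)) (j : ℕ) : ℕ :=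
  cnt s γ j fun J => J = KK s fr

/-- The nodes have degree `D` and belong to different orbits. -/
def TodoOk (D : ℕ) (todo : List ((X → ℕ) × ℕ)) : Prop :=
  (∀ ν ∈ todo, tot ν.1 = D ∧ ν.2 < s.L) ∧ todo.Pairwise fun ν ν' => ¬ Rel s ν ν'.1 ν'.2

/-- The listed coproducts give a basis of the new linear forms at the node. -/
structure PendOk (fr : List (EnF F X)) (ν : (X → ℕ) × ℕ) (l : List (Tms F)) : Prop where
  two : 2 ≤ tot ν.1
  sup : ∀ t ∈ l, Sup fr ν.1 t
  real : ∀ t ∈ l, Real (ph s fr) ν.1 t (fn s fr ν.1 t)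
  eig : Fx s ν.1 → ∀ t ∈ l, ∀ u, fn s fr ν.1 t (ren F s.σ u) = s.ζ ^ ν.2 * fn s fr ν.1 t u
  surj : ∀ y : ℕ → F, ∃ u ∈ KK s fr ν.1 ⊓ VV s ν.1 ν.2,
    ∀ k (hk : k < l.length), fn s fr ν.1 l[k] u = y k
  span : KK s fr ν.1 ⊓ VV s ν.1 ν.2 ⊓ ⨅ t ∈ l, LinearMap.ker (fn s fr ν.1 t) ≤
    lowK (KK s fr) ν.1

/-- The columns are the unordered pairs of entries with multidegree `α`. -/
structure ColsOk (fr : List (EnF F X)) (α : X → ℕ) (cols : List (EnF F X × EnF F X)) : Prop where
  mem : ∀ c ∈ cols, c.1 ∈ fr ∧ c.2 ∈ fr ∧ c.1.w + c.2.w = α ∧ c.1.i ≠ c.2.i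
  all : ∀ a ∈ fr, ∀ b ∈ fr, a.i ≠ b.i → a.w + b.w = α → (a, b) ∈ cols ∨ (b, a) ∈ cols
  pw : cols.Pairwise fun c c' =>
    ¬ (c.1.i = c'.1.i ∧ c.2.i = c'.2.i) ∧ ¬ (c.1.i = c'.2.i ∧ c.2.i = c'.1.i)

end Frames

section Budget

variable {X : Type} [Fintype X] [DecidableEq X]

/-- The budget: the cost of the levels up to `j` is `(j + 1) * N + r` up to an allowed defect. -/
def Bud (lo : ℕ) (γ : Ty X) (j N r : ℕ) : Prop :=
  ∃ m δ, HasCost (fun i α => if i ≤ j then γ i α else 0) m ∧ m + δ = (j + 1) * N + r ∧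
    (δ = 0 ∨ lo ≤ δ)

/-- The type has a living node of degree at least `m`. -/
def Reach (γ : Ty X) (m : ℕ) : Prop := m = 0 ∨ ∃ α, m ≤ tot α ∧ γ 0 α ≠ 0

/-- The dimensions given by a list of multidegrees. -/
def tyL (l : List (X → ℕ)) : (X → ℕ) → ℕ := fun α => l.count α

end Budget

end Pool.Agent.P.MP_8598be_al.K
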