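import Pool.Agent.P.MP_8598be_al.K.S0

/-!
Coproducts and realised frames.
-/

set_option linter.unusedSectionVars false

namespace Pool.Agent.P.MP_8598be_al.K

open Module Z

section Cop

variable {F : Type} [Field F] {M : Type} [AddCommGroup M] [Module F M] {φ φ' : ℕ → Dual F M}
  {t t' : Tms F}

theorem cop_nil (u v : M) : cop φ [] u v = 0 := rfl

theorem cop_cons (x : ℕ × ℕ × F) (u v : M) : cop φ (x :: t) u v =
    x.2.2 * (φ x.1 u * φ x.2.1 v - φ x.2.1 u * φ x.1 v) + cop φ t u v := rfl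

theorem cop_append (u v : M) : cop φ (t ++ t') u v = cop φ t u v + cop φ t' u v := by
  simp [cop]

theorem co_nil (a b : ℕ) : co ([] : Tms F) a b = 0 := rfl

theorem co_cons (x : ℕ × ℕ × F) (a b : ℕ) : co (x :: t) a b =
    ((if x.1 = a ∧ x.2.1 = b then x.2.2 else 0) - if x.1 = b ∧ x.2.1 = a then x.2.2 else 0) +
      co t a b := rfl

theorem co_eq_zero {a b : ℕ}
    (h : ∀ x ∈ t, ¬ (x.1 = a ∧ x.2.1 = b) ∧ ¬ (x.1 = b ∧ x.2.1 = a)) : co t a b = 0 := by
  refine List.sum_eq_zero fun y hy => ?_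
  obtain ⟨x, hx, rfl⟩ := List.mem_map.1 hy
  rw [if_neg (h x hx).1, if_neg (h x hx).2, sub_zero]

theorem cop_congr (h : ∀ x ∈ t, φ x.1 = φ' x.1 ∧ φ x.2.1 = φ' x.2.1) (u v : M) :
    cop φ t u v = cop φ' t u v := by
  unfold cop
  congr 1
  exact List.map_congr_left fun x hx => by rw [(h x hx).1, (h x hx).2]

theorem cop_eq_zero {u v : M}
    (h : ∀ x ∈ t, φ x.1 u * φ x.2.1 v = 0 ∧ φ x.2.1 u * φ x.1 v = 0) : cop φ t u v = 0 := by
  refine List.sum_eq_zero fun y hy => ?_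
  obtain ⟨x, hx, rfl⟩ := List.mem_map.1 hy
  rw [(h x hx).1, (h x hx).2, sub_zero, mul_zero]

theorem cop_eq_sum (S : Finset ℕ) (h : ∀ x ∈ t, x.1 ∈ S ∧ x.2.1 ∈ S) (u v : M) :
    cop φ t u v = ∑ a ∈ S, ∑ b ∈ S, co t a b * (φ a u * φ b v) := by
  induction t with
  | nil => simp [cop_nil, co_nil]
  | cons x t ih =>
    obtain ⟨h1, h2⟩ := h x List.mem_cons_self
    rw [cop_cons, ih fun y hy => h y (List.mem_cons_of_mem _ hy)]
    simp only [co_cons, add_mul, sub_mul, Finset.sum_add_distrib, Finset.sum_sub_distrib, ite_and,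
      ite_mul, zero_mul, Finset.sum_ite_eq, Finset.sum_ite_irrel, Finset.sum_const_zero, h1, h2,
      if_true]
    ring

theorem TRel.cop {c : F} (h : TRel c t t') (u v : M) : cop φ t' u v = c * cop φ t u v := by
  let S : Finset ℕ := (t.map fun x => x.1).toFinset ∪ (t.map fun x => x.2.1).toFinset
  have h1 : ∀ x ∈ t, x.1 ∈ S ∧ x.2.1 ∈ S := fun x hx =>
    ⟨Finset.mem_union_left _ (List.mem_toFinset.2 (List.mem_map_of_mem hx)),
      Finset.mem_union_right _ (List.mem_toFinset.2 (List.mem_map_of_mem hx))⟩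
  rw [cop_eq_sum S h1, cop_eq_sum S fun x hx => ?_]
  · simp only [h.1, Finset.mul_sum, mul_assoc]
  · obtain ⟨y, hy, e | e⟩ := h.2 x hx
    · rw [e.1, e.2]
      exact h1 y hy
    · rw [e.1, e.2]
      exact (h1 y hy).symm

theorem cop_self (u : M) : cop φ t u u = 0 := by
  refine List.sum_eq_zero fun y hy => ?_
  obtain ⟨x, -, rfl⟩ := List.mem_map.1 hy
  ring

variable (φ t) in
/-- The bilinear form of a coproduct as a linear map. -/
def copL : M →ₗ[F] M →ₗ[F] F :=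
  (t.map fun x => x.2.2 • ((LinearMap.mul F F).compl₁₂ (φ x.1) (φ x.2.1) -
    (LinearMap.mul F F).compl₁₂ (φ x.2.1) (φ x.1))).sum

theorem copL_apply (u v : M) : copL φ t u v = cop φ t u v := by
  induction t with
  | nil => rfl
  | cons x t ih =>
    rw [cop_cons, ← ih]
    rfl

theorem cop_scale (c : F) (u v : M) :
    cop φ (t.map fun x => (x.1, x.2.1, c * x.2.2)) u v = c * cop φ t u v := by
  induction t with
  | nil => simp [cop_nil]
  | cons x t ih =>
    rw [List.map_cons, cop_cons, cop_cons, ih]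
    ring

end Cop

variable {F X : Type} [Field F] [Fintype X] [DecidableEq X] {s : Sy F X}
  {fr fr' : List (EnF F X)} {φ φ' : ℕ → Dual F (FL F X)} {w : X → ℕ} {t t' : Tms F}
  {ψ ψ' : Dual F (FL F X)}

theorem TRel.sup {c : F} (h : TRel c t t') (hs : Sup fr w t) : Sup fr w t' := by
  intro x hx
  obtain ⟨y, hy, e⟩ := h.2 x hx
  obtain ⟨a, ha, b, hb, h1, h2, h3⟩ := hs y hy
  rcases e with e | e
  · exact ⟨a, ha, b, hb, h1.trans e.1.symm, h2.trans e.2.symm, h3⟩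
  · exact ⟨b, hb, a, ha, h2.trans e.1.symm, h1.trans e.2.symm, (add_comm _ _).trans h3⟩

theorem Sup.mono (hs : Sup fr w t) (h : ∀ a ∈ fr, a ∈ fr') : Sup fr' w t := fun x hx => by
  obtain ⟨a, ha, b, hb, h1⟩ := hs x hx
  exact ⟨a, h a ha, b, h b hb, h1⟩

theorem Sup.cop_congr (hs : Sup fr w t) (h : ∀ a ∈ fr, φ a.i = φ' a.i) (u v : FL F X) :
    cop φ t u v = cop φ' t u v := K.cop_congr (fun x hx => by
  obtain ⟨a, ha, b, hb, h1, h2, -⟩ := hs x hx
  rw [← h1, ← h2]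
  exact ⟨h a ha, h b hb⟩) u v

theorem Real.congr (h : Real φ w t ψ) (hs : Sup fr w t) (e : ∀ a ∈ fr, φ a.i = φ' a.i) :
    Real φ' w t ψ := ⟨fun u v => (h.1 u v).trans (hs.cop_congr e u v), h.2⟩

theorem Real.uniq (h : Real φ w t ψ) (h' : Real φ w t ψ') : ψ = ψ' :=
  ext_fun (fun y => (h.2 y).trans (h'.2 y).symm) fun u v => (h.1 u v).trans (h'.1 u v).symm

theorem Real.fn_eq (h : Real (ph s fr) w t ψ) : fn s fr w t = ψ :=
  (Classical.epsilon_spec ⟨ψ, h⟩ : Real (ph s fr) w t (fn s fr w t)).uniq h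

theorem GoodF.ph (h : GoodF s fr) : Good s fr (ph s fr) := Classical.epsilon_spec h

theorem Good.inj (hg : Good s fr φ) {a b : EnF F X} (ha : a ∈ fr) (hb : b ∈ fr) (e : a.i = b.i) :
    a = b := List.inj_on_of_nodup_map hg.nodup ha hb e

theorem cop_homog (hφ : ∀ a ∈ fr, ∀ β, β ≠ a.w → ∀ u ∈ mp F β, φ a.i u = 0) (hs : Sup fr w t)
    {α β : X → ℕ} (h : α + β ≠ w) {u v : FL F X} (hu : u ∈ mp F α) (hv : v ∈ mp F β) :
    cop φ t u v = 0 := by
  refine cop_eq_zero fun x hx => ?_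
  obtain ⟨a, ha, b, hb, h1, h2, h3⟩ := hs x hx
  rw [← h1, ← h2]
  constructor
  · by_cases e : α = a.w
    · rw [hφ b hb β (fun e' => h (by rw [e, e', h3])) v hv, mul_zero]
    · rw [hφ a ha α e u hu, zero_mul]
  · by_cases e : α = b.w
    · rw [hφ a ha β (fun e' => h (by rw [e, e', add_comm, h3])) v hv, mul_zero]
    · rw [hφ b hb α e u hu, zero_mul]

theorem Good.homog (hg : Good s fr φ) {a : EnF F X} (ha : a ∈ fr) {β : X → ℕ} (h : β ≠ a.w)
    {u : FL F X} (hu : u ∈ mp F β) : φ a.i u = 0 := by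
  have key : ∀ t : FreeMagma X, ∀ a ∈ fr, wt t ≠ a.w → φ a.i (lie F t) = 0 := by
    intro t
    induction t using FreeMagma.rec with
    | of k => exact fun a ha h => ((hg.real a ha).2 k).trans (if_neg fun e => h e.symm)
    | mul p q ihp ihq =>
      intro a ha h
      rw [lie, (hg.real a ha).1]
      refine cop_eq_zero fun x hx => ?_
      obtain ⟨b, hb, c, hc, h1, h2, h3⟩ := hg.sup a ha x hx
      rw [← h1, ← h2]
      constructor
      · by_cases e : wt p = b.w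
        · rw [ihq c hc fun e' => h (by rw [wt, e, e', h3]), mul_zero]
        · rw [ihp b hb e, zero_mul]
      · by_cases e : wt p = c.w
        · rw [ihq b hb fun e' => h (by rw [wt, e, e', add_comm, h3]), mul_zero]
        · rw [ihp c hc e, zero_mul]
  refine LinearMap.eqOn_span (f := φ a.i) (g := 0) ?_ hu
  rintro _ ⟨t, ht, rfl⟩
  exact key t a ha fun e => h (ht.symm.trans e)

theorem Real.homog (hg : Good s fr φ) (hψ : Real φ w t ψ) (hs : Sup fr w t) {β : X → ℕ}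
    (h : β ≠ w) {u : FL F X} (hu : u ∈ mp F β) : ψ u = 0 := by
  refine LinearMap.eqOn_span (f := ψ) (g := 0) ?_ hu
  rintro _ ⟨p, hp, rfl⟩
  have hp' : wt p ≠ w := fun e => h (hp.symm.trans e)
  cases p with
  | of k => exact (hψ.2 k).trans (if_neg fun e => hp' e.symm)
  | mul p q =>
    exact (hψ.1 _ _).trans (cop_homog (fun a ha β h u hu => hg.homog ha h hu) hs hp'
      (lie_mem_mp p) (lie_mem_mp q))

theorem Good.uniq (hg : Good s fr φ) (hg' : Good s fr φ') {a : EnF F X} (ha : a ∈ fr) :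
    φ a.i = φ' a.i := by
  have key : ∀ t : FreeMagma X, ∀ a ∈ fr, φ a.i (lie F t) = φ' a.i (lie F t) := by
    intro t
    induction t using FreeMagma.rec with
    | of k => exact fun a ha => ((hg.real a ha).2 k).trans ((hg'.real a ha).2 k).symm
    | mul p q ihp ihq =>
      intro a ha
      rw [lie, (hg.real a ha).1, (hg'.real a ha).1]
      unfold cop
      congr 1
      refine List.map_congr_left fun x hx => ?_
      obtain ⟨b, hb, c, hc, h1, h2, -⟩ := hg.sup a ha x hx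
      rw [← h1, ← h2, ihp b hb, ihp c hc, ihq b hb, ihq c hc]
  exact LinearMap.ext_on_range span_lie fun t => key t a ha

theorem Good.ph_eq (hg : Good s fr φ) {a : EnF F X} (ha : a ∈ fr) : ph s fr a.i = φ a.i :=
  (GoodF.ph ⟨φ, hg⟩).uniq hg ha

theorem Good.act_pow (hg : Good s fr φ) (t : ℕ) {a : EnF F X} (ha : a ∈ fr) :
    ∃ b ∈ fr, b.i = (pi s.L)^[t] a.i ∧ b.w = a.w ∘ (s.σ ^ t :) ∧
      ∀ u, φ a.i ((TT s ^ t) u) = s.ζ ^ (t * ep s.L a.i) * φ b.i u := by
  induction t with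
  | zero => exact ⟨a, ha, rfl, rfl, fun u => by simp⟩
  | succ t ih =>
    obtain ⟨b, hb, h1, h2, h3⟩ := ih
    obtain ⟨c, hc, h4, h5, h6⟩ := hg.act b hb
    refine ⟨c, hc, by rw [h4, h1, Function.iterate_succ_apply'], by rw [h5, h2, comp_pow_succ],
      fun u => ?_⟩
    rw [pow_succ, End.mul_apply, h3, TT_apply, h6, h1, ep_iter]
    ring

theorem Good.act_iter (hg : Good s fr φ) (t : ℕ) {a : EnF F X} (ha : a ∈ fr) (u : FL F X) :
    φ a.i ((TT s ^ t) u) = s.ζ ^ (t * ep s.L a.i) * φ ((pi s.L)^[t] a.i) u := by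
  obtain ⟨b, -, h1, -, h3⟩ := hg.act_pow t ha
  rw [h3, h1]

theorem Good.eig (hg : Good s fr φ) {a : EnF F X} (ha : a ∈ fr) (h : Fx s a.w) (u : FL F X) :
    φ a.i (TT s u) = s.ζ ^ ep s.L a.i * φ a.i u := by
  obtain ⟨b, -, h1, -, h3⟩ := hg.act a ha
  rw [TT_apply, h3, h1, (hg.fixd a ha h).1]

theorem mem_KK {α : X → ℕ} {u : FL F X} :
    u ∈ KK s fr α ↔ u ∈ mp F α ∧ ∀ a ∈ fr, ph s fr a.i u = 0 := by
  simp [KK, Submodule.mem_iInf]

theorem KK_le (α : X → ℕ) : KK s fr α ≤ mp F α := inf_le_left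

theorem Sup.cop_left (hs : Sup fr w t) {u : FL F X} (hu : ∀ a ∈ fr, φ a.i u = 0) (v : FL F X) :
    cop φ t u v = 0 := by
  refine cop_eq_zero fun x hx => ?_
  obtain ⟨a, ha, b, hb, h1, h2, -⟩ := hs x hx
  rw [← h1, ← h2, hu a ha, hu b hb, zero_mul, zero_mul]
  exact ⟨rfl, rfl⟩

theorem KK_lie (hg : GoodF s fr) {α β : X → ℕ} {u v : FL F X} (hu : u ∈ KK s fr α)
    (hv : v ∈ mp F β) : ⁅u, v⁆ ∈ KK s fr (α + β) :=
  mem_KK.2 ⟨mp_lie (mem_KK.1 hu).1 hv, fun a ha =>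
    ((hg.ph.real a ha).1 u v).trans ((hg.ph.sup a ha).cop_left (mem_KK.1 hu).2 v)⟩

theorem KK_finv (hg : GoodF s fr) : FInv s (KK s fr) := fun w u hu =>
  mem_KK.2 ⟨finv_mp w u (mem_KK.1 hu).1, fun a ha => by
    obtain ⟨b, hb, -, -, h3⟩ := hg.ph.act a ha
    rw [TT_apply, h3, (mem_KK.1 hu).2 b hb, mul_zero]⟩

theorem KK_eq_mp (hg : GoodF s fr) {β : X → ℕ} (h : ∀ a ∈ fr, a.w ≠ β) : KK s fr β = mp F β :=
  le_antisymm (KK_le β) fun _ hu =>
    mem_KK.2 ⟨hu, fun a ha => hg.ph.homog ha (h a ha).symm hu⟩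

/-- The constant chain of a frame. -/
noncomputable def KC (hg : GoodF s fr) : Chain F X :=
  ⟨fun _ => KK s fr, fun _ => KK_le, fun _ _ => le_rfl,
    fun _ _ y _ hu => KK_lie hg hu (gen_mem_mp y)⟩

variable (s fr) in
/-- The dual basis of a frame. -/
noncomputable def ee : ℕ → FL F X := Classical.epsilon fun e : ℕ → FL F X =>
  ∀ a ∈ fr, e a.i ∈ mp F a.w ∧ ∀ b ∈ fr, ph s fr b.i (e a.i) = if a.i = b.i then 1 else 0

theorem ee_mem (hg : GoodF s fr) {a : EnF F X} (ha : a ∈ fr) : ee s fr a.i ∈ mp F a.w :=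
  (Classical.epsilon_spec hg.ph.dual a ha).1

theorem ph_ee (hg : GoodF s fr) {a b : EnF F X} (ha : a ∈ fr) (hb : b ∈ fr) :
    ph s fr b.i (ee s fr a.i) = if a.i = b.i then 1 else 0 :=
  (Classical.epsilon_spec hg.ph.dual a ha).2 b hb

/-- The indices of a frame. -/
def idx (fr : List (EnF F X)) : Finset ℕ := (fr.map EnF.i).toFinset

theorem mem_idx {i : ℕ} : i ∈ idx fr ↔ ∃ a ∈ fr, a.i = i := by simp [idx]

theorem idx_mem {a : EnF F X} (ha : a ∈ fr) : a.i ∈ idx fr := mem_idx.2 ⟨a, ha, rfl⟩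

theorem Sup.idx (hs : Sup fr w t) : ∀ x ∈ t, x.1 ∈ idx fr ∧ x.2.1 ∈ idx fr := fun x hx => by
  obtain ⟨a, ha, b, hb, h1, h2, -⟩ := hs x hx
  exact ⟨mem_idx.2 ⟨a, ha, h1⟩, mem_idx.2 ⟨b, hb, h2⟩⟩

theorem ph_ee' (hg : GoodF s fr) {i k : ℕ} (hi : i ∈ idx fr) (hk : k ∈ idx fr) :
    ph s fr k (ee s fr i) = if i = k then 1 else 0 := by
  obtain ⟨a, ha, rfl⟩ := mem_idx.1 hi
  obtain ⟨b, hb, rfl⟩ := mem_idx.1 hk
  exact ph_ee hg ha hb

theorem smul_ee_mem (hg : GoodF s fr) {α : X → ℕ} {u : FL F X} (hu : u ∈ mp F α) {i : ℕ}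
    (hi : i ∈ idx fr) : ph s fr i u • ee s fr i ∈ mp F α := by
  obtain ⟨a, ha, rfl⟩ := mem_idx.1 hi
  by_cases e : α = a.w
  · exact Submodule.smul_mem _ _ (e ▸ ee_mem hg ha)
  · rw [hg.ph.homog ha e hu, zero_smul]
    exact zero_mem _

theorem decomp (hg : GoodF s fr) {α : X → ℕ} {u : FL F X} (hu : u ∈ mp F α) :
    u - ∑ i ∈ idx fr, ph s fr i u • ee s fr i ∈ KK s fr α := by
  refine mem_KK.2 ⟨sub_mem hu (sum_mem fun i hi => smul_ee_mem hg hu hi), fun a ha => ?_⟩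
  rw [map_sub, map_sum, Finset.sum_congr rfl fun i hi => show _ = if i = a.i then ph s fr i u else 0
    by rw [map_smul, ph_ee' hg hi (idx_mem ha), smul_eq_mul, mul_ite, mul_one, mul_zero],
    Finset.sum_ite_eq', if_pos (idx_mem ha), sub_self]

/-- A linear map that vanishes on the ideal is determined by its values on the dual basis. -/
theorem apply_eq_sum (hg : GoodF s fr) {M : Type} [AddCommGroup M] [Module F M]
    {f : FL F X →ₗ[F] M} {α : X → ℕ} (hf : ∀ u ∈ KK s fr α, f u = 0) {u : FL F X}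
    (hu : u ∈ mp F α) : f u = ∑ i ∈ idx fr, ph s fr i u • f (ee s fr i) := by
  have h := hf _ (decomp hg hu)
  rw [map_sub, sub_eq_zero, map_sum] at h
  rw [h]
  exact Finset.sum_congr rfl fun i _ => map_smul _ _ _

theorem cop_ee (hg : GoodF s fr) (ht : ∀ x ∈ t, x.1 ∈ idx fr ∧ x.2.1 ∈ idx fr) {i k : ℕ}
    (hi : i ∈ idx fr) (hk : k ∈ idx fr) :
    cop (ph s fr) t (ee s fr i) (ee s fr k) = co t i k := by
  unfold cop co
  congr 1
  refine List.map_congr_left fun x hx => ?_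
  obtain ⟨h1, h2⟩ := ht x hx
  rw [ph_ee' hg hi h1, ph_ee' hg hi h2, ph_ee' hg hk h1, ph_ee' hg hk h2]
  simp only [eq_comm (a := i), eq_comm (a := k), ite_and]
  split_ifs <;> ring

theorem KK_ty (hg : GoodF s fr) (α : X → ℕ) :
    finrank F (mp F α) - finrank F (KK s fr α) = tyL (fr.map EnF.w) α := by
  classical
  let A : Finset (EnF F X) := (fr.filter fun a => a.w = α).toFinset
  have hA : ∀ a, a ∈ A ↔ a ∈ fr ∧ a.w = α := fun a => by simp [A]
  let Φ : mp F α →ₗ[F] A → F := LinearMap.pi fun a => (ph s fr a.1.i).comp (mp F α).subtype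
  have h1 : LinearMap.ker Φ = (KK s fr α).comap (mp F α).subtype := by
    ext u
    rw [LinearMap.mem_ker, Submodule.mem_comap, mem_KK]
    refine ⟨fun h => ⟨u.2, fun a ha => ?_⟩, fun h => funext fun a => h.2 a.1 ((hA _).1 a.2).1⟩
    by_cases e : α = a.w
    · exact congrFun h ⟨a, (hA a).2 ⟨ha, e.symm⟩⟩
    · exact hg.ph.homog ha e u.2
  have h2 : LinearMap.range Φ = ⊤ := by
    rw [eq_top_iff, ← (Pi.basisFun F A).span_eq, Submodule.span_le]
    rintro _ ⟨a, rfl⟩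
    obtain ⟨ha, e⟩ := (hA _).1 a.2
    refine ⟨⟨ee s fr a.1.i, e ▸ ee_mem hg ha⟩, funext fun b => ?_⟩
    change ph s fr b.1.i (ee s fr a.1.i) = _
    rw [ph_ee hg ha ((hA _).1 b.2).1, Pi.basisFun_apply, Pi.single_apply]
    exact if_congr ⟨fun h => Subtype.ext (hg.ph.inj ha ((hA _).1 b.2).1 h).symm,
      fun h => by rw [h]⟩ rfl rfl
  have h3 := Φ.finrank_range_add_finrank_ker
  rw [h1, h2, finrank_top, finrank_fintype_fun_eq_card, Fintype.card_coe,
    (Submodule.comapSubtypeEquivOfLe (KK_le α)).finrank_eq,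
    List.toFinset_card_of_nodup ((List.Nodup.of_map _ hg.ph.nodup).filter _)] at h3
  rw [tyL, List.count, List.countP_map, List.countP_eq_length_filter, ← h3, Nat.add_sub_cancel]
  congr 1

theorem KC_ty (hg : GoodF s fr) (j : ℕ) : (KC hg).ty j = tyL (fr.map EnF.w) :=
  funext fun α => KK_ty hg α

theorem lie_low (J : Chain F X) (j : ℕ) {α β : X → ℕ} {u v : FL F X} (hu : u ∈ J.J j α)
    (hv : v ∈ mp F β) : ⁅u, v⁆ ∈ lowK (J.J j) (α + β) := by
  have key : ∀ (t : FreeMagma X) (α : X → ℕ) (u : FL F X), u ∈ J.J j α →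
      ⁅u, lie F t⁆ ∈ lowK (J.J j) (α + wt t) := by
    intro t
    induction t using FreeMagma.rec with
    | of k =>
      intro α u hu
      exact Submodule.mem_iSup_of_mem α (Submodule.mem_iSup_of_mem k
        (Submodule.mem_iSup_of_mem rfl ⟨u, hu, rfl⟩))
    | mul a b iha ihb =>
      intro α u hu
      rw [lie, ← jacobi_basic]
      refine sub_mem ?_ ?_
      · have := ihb _ _ (J.lie_mem hu (lie_mem_mp a))
        rwa [add_assoc] at this
      · have := iha _ _ (J.lie_mem hu (lie_mem_mp b))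
        rwa [add_assoc, add_comm (wt b)] at this
  induction hv using Submodule.span_induction with
  | mem x hx =>
    obtain ⟨t, ht, rfl⟩ := hx
    exact (show wt t = β from ht) ▸ key t α u hu
  | zero => rw [lie_zero]; exact zero_mem _
  | add a b _ _ ha hb => rw [lie_add]; exact add_mem ha hb
  | smul c a _ ha => rw [lie_smul]; exact Submodule.smul_mem _ _ ha

theorem lowK_congr {K K' : Fam F X} {β : X → ℕ} (h : ∀ α, tot α < tot β → K α = K' α) :
    lowK K β = lowK K' β := by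
  refine iSup_congr fun α => iSup_congr fun y => iSup_congr fun e => ?_
  rw [h α (by rw [← e, tot_add, tot_one]; omega)]

theorem lowK_le (J : Chain F X) (j : ℕ) (β : X → ℕ) : lowK (J.J j) β ≤ J.J j β := J.low_le j β

/-- Parts of degree at least two are spanned by brackets. -/
theorem mp_le_of_lie {α : X → ℕ} (h2 : 2 ≤ tot α) {W : Submodule F (FL F X)}
    (h : ∀ β δ, β + δ = α → tot β < tot α → tot δ < tot α → ∀ u ∈ mp F β, ∀ v ∈ mp F δ,
      ⁅u, v⁆ ∈ W) : mp F α ≤ W := by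
  refine Submodule.span_le.2 ?_
  rintro _ ⟨p, hp, rfl⟩
  have hp' : wt p = α := hp
  cases p with
  | of k =>
    rw [← hp', wt, tot_one] at h2
    omega
  | mul p q =>
    have h1 : tot (wt p) ≠ 0 := fun e => wt_ne_basic p (tot_eq_zero.1 e)
    have h3 : tot (wt q) ≠ 0 := fun e => wt_ne_basic q (tot_eq_zero.1 e)
    have h4 : tot α = tot (wt p) + tot (wt q) := by rw [← hp', wt, tot_add]
    exact h _ _ hp' (by omega) (by omega) _ (lie_mem_mp p) _ (lie_mem_mp q)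

end Pool.Agent.P.MP_8598be_al.K
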