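import Pool.Agent.P.MP_8598be_al.K.S1

/-!
Counting functions and budgets.
-/

set_option linter.unusedSectionVars false
set_option linter.unusedVariables false

namespace Pool.Agent.P.MP_8598be_al.K

open Module Z

variable {F X : Type} [Field F] [Fintype X] [DecidableEq X] {s : Sy F X} {γ : Ty X}
  {fr fr' : List (EnF F X)} {j D N r lo : ℕ} {ν : (X → ℕ) × ℕ} {todo rest : List ((X → ℕ) × ℕ)}
  {Q Q' Q'' : Fam F X → Prop}

variable (s γ j) in
/-- The chains that are counted. -/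
def CC (J : Chain F X) : Prop :=
  Inv {s.σ} J ∧ (∀ i, i ≤ j → J.ty i = γ i) ∧ ∀ i, j < i → J.J i = mp F

theorem cnt_eq : cnt s γ j Q = {J : Chain F X | CC s γ j J ∧ Q (J.J j)}.ncard := by
  rw [← Nat.card_coe_set_eq]
  exact Nat.card_congr (Equiv.subtypeEquivRight fun J => by
    simp only [CC, Set.mem_ofPred_eq, and_assoc])

theorem CC.finv {J : Chain F X} (h : CC s γ j J) (i : ℕ) : FInv s (J.J i) := inv_iff.1 h.1 i

theorem cnt_congr (h : ∀ J, CC s γ j J → (Q (J.J j) ↔ Q' (J.J j))) :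
    cnt s γ j Q = cnt s γ j Q' := by
  rw [cnt_eq, cnt_eq]
  congr 1
  ext J
  exact and_congr_right (h J)

theorem cnt_zero (h : ∀ J, CC s γ j J → ¬ Q (J.J j)) : cnt s γ j Q = 0 := by
  rw [cnt_eq, Set.eq_empty_of_forall_notMem (s := {J : Chain F X | CC s γ j J ∧ Q (J.J j)})
    fun J hJ => h J hJ.1 hJ.2, Set.ncard_empty]

theorem CC.ty_eq {J : Chain F X} (h : CC s γ j J) :
    J.ty = fun i α => if i ≤ j then γ i α else 0 := by
  funext i α
  split_ifs with hi
  · rw [h.2.1 i hi]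
  · exact J.ty_eq_zero.2 (congrFun (h.2.2 i (not_le.1 hi)) α)

theorem finite_CC [Finite F] (hb : Bud lo γ j N r) (Q : Fam F X → Prop) :
    {J : Chain F X | CC s γ j J ∧ Q (J.J j)}.Finite := by
  obtain ⟨m, δ, h, -⟩ := hb
  exact (finite_fibre_Tys (F := F) h).subset fun J hJ => hJ.1.ty_eq

theorem cnt_add [Finite F] (hb : Bud lo γ j N r)
    (h : ∀ J, CC s γ j J → (Q (J.J j) ↔ Q' (J.J j) ∨ Q'' (J.J j)))
    (h' : ∀ J, CC s γ j J → Q' (J.J j) → ¬ Q'' (J.J j)) :
    cnt s γ j Q = cnt s γ j Q' + cnt s γ j Q'' := by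
  rw [cnt_eq, cnt_eq, cnt_eq, ← Set.ncard_union_eq
    (Set.disjoint_left.2 fun J h1 h2 => h' J h1.1 h1.2 h2.2) (finite_CC hb _) (finite_CC hb _)]
  congr 1
  ext J
  simp only [Set.mem_ofPred_eq, Set.mem_union, ← and_or_left]
  exact and_congr_right (h J)

theorem cnt_sum [Finite F] {ι : Type} [Finite ι] (hb : Bud lo γ j N r) {P : ι → Fam F X → Prop}
    (h : ∀ J, CC s γ j J → (Q (J.J j) ↔ ∃ t, P t (J.J j)))
    (h' : ∀ J, CC s γ j J → ∀ t t', P t (J.J j) → P t' (J.J j) → t = t') :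
    cnt s γ j Q = ∑ᶠ t, cnt s γ j (P t) := by
  simp only [cnt_eq]
  rw [← Set.ncard_iUnion_of_finite (fun t => finite_CC hb _) fun t t' e =>
    Set.disjoint_left.2 fun J h1 h2 => e (h' J h1.1 t t' h1.2 h2.2)]
  congr 1
  ext J
  simp only [Set.mem_ofPred_eq, Set.mem_iUnion, exists_and_left]
  exact and_congr_right (h J)

theorem sum_tyL (l : List (X → ℕ)) {T : Finset (X → ℕ)} (h : ∀ α ∈ l, α ∈ T) :
    ∑ α ∈ T, tyL l α = l.length := by
  rw [← List.sum_toFinset_count_eq_length]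
  refine (Finset.sum_subset (fun α hα => h α (List.mem_toFinset.1 hα)) fun α _ hα => ?_).symm
  exact List.count_eq_zero.2 fun e => hα (List.mem_toFinset.2 e)

theorem hasCost_level (l : List (X → ℕ)) (k : ℕ) :
    HasCost (fun i α => if i = k then tyL l α else 0) l.length := by
  refine ⟨{k} ×ˢ l.toFinset, fun i α h => ?_, ?_⟩
  · change (if i = k then tyL l α else 0) = 0
    split_ifs with e
    · exact List.count_eq_zero.2 fun e' =>
        h (Finset.mem_product.2 ⟨Finset.mem_singleton.2 e, List.mem_toFinset.2 e'⟩)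
    · rfl
  · rw [Finset.sum_product, Finset.sum_singleton]
    simp only [if_true]
    exact sum_tyL l fun α hα => List.mem_toFinset.2 hα

theorem bud_start {k n : ℕ} (h : HasCost γ k) (hk : k ≤ n) (h' : k = n ∨ lo ≤ n - k)
    (h0 : ∀ i, n < i → γ i = 0) : Bud lo γ n 0 n := by
  refine ⟨k, n - k, ?_, by omega, by omega⟩
  convert h using 1
  funext i α
  split_ifs with hi
  · rfl
  · rw [h0 i (not_le.1 hi)]
    rfl

/-- The length of an output is bounded by the budget. -/
theorem bud_len {l : List (X → ℕ)} (h : Bud lo γ j N r) (h0 : γ 0 = tyL l)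
    (h1 : ∀ i, 1 ≤ i → i ≤ j → γ i = 0) : l.length ≤ (j + 1) * N + r := by
  obtain ⟨m, δ, h2, h3, -⟩ := h
  obtain ⟨m', h4, h5⟩ := h2.mono (γ' := fun i α => if i = 0 then tyL l α else 0) fun i α => by
    split_ifs with e e'
    · rw [e, h0]
    · omega
    · exact Nat.zero_le _
    · exact le_rfl
  rw [(hasCost_level l 0).unique h5]
  omega

theorem bud_zero {l : List (X → ℕ)} (h : Bud lo γ 0 l.length r) (h0 : γ 0 = tyL l) :
    r = 0 ∨ lo ≤ r := by
  obtain ⟨m, δ, h2, h3, h4⟩ := h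
  have h5 : l.length = m := (hasCost_level l 0).unique (by
    convert h2 using 3 with i α
    split_ifs with e e'
    · rw [e, h0]
    · omega
    · omega
    · rfl)
  omega

theorem bud_succ {l : List (X → ℕ)} (h : Bud lo γ (j + 1) l.length r) (h0 : γ (j + 1) = tyL l) :
    Bud lo γ j l.length r := by
  obtain ⟨m, δ, h2, h3, h4⟩ := h
  obtain ⟨m', -, h5⟩ := h2.mono (γ' := fun i α => if i ≤ j then γ i α else 0) fun i α => by
    split_ifs with e e'
    · exact le_rfl
    · omega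
    · exact Nat.zero_le _
    · exact le_rfl
  have h6 : m' + l.length = m := (hasCost_add h5 (hasCost_level l (j + 1))).unique (by
    convert h2 using 3 with i α
    split_ifs with e e' e'' e'' e' e''
    · omega
    · omega
    · rfl
    · omega
    · rw [e', h0, zero_add]
    · omega
    · omega
    · rfl)
  refine ⟨m', δ, h5, ?_, h4⟩
  rw [add_mul (j + 1), one_mul] at h3
  omega

theorem cnt_high {k n i : ℕ} (h : HasCost γ k) (hk : k ≤ n) (hi : n < i) (h0 : γ i ≠ 0) :
    cntT F {s.σ} γ = 0 := by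
  refine cntT_of_not_adm fun ha => h0 (funext fun α => ?_)
  by_contra h1
  have h2 := h.sum_le (Finset.range (i + 1) ×ˢ {α})
  rw [Finset.sum_product] at h2
  simp only [Finset.sum_singleton] at h2
  have h3 := Finset.card_nsmul_le_sum (Finset.range (i + 1)) (fun i' => γ i' α) 1 fun i' hi' =>
    (Nat.pos_of_ne_zero h1).trans_le (ha.anti' (Nat.lt_succ_iff.1 (Finset.mem_range.1 hi')) α)
  rw [Finset.card_range, smul_eq_mul, mul_one] at h3
  omega

theorem goodF_nil : GoodF s ([] : List (EnF F X)) :=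
  ⟨0, List.nodup_nil, fun _ h => absurd h List.not_mem_nil, fun _ h => absurd h List.not_mem_nil,
    ⟨0, fun _ h => absurd h List.not_mem_nil⟩, fun _ h => absurd h List.not_mem_nil,
    fun _ h => absurd h List.not_mem_nil⟩

theorem agD_one {K : Fam F X} (hK : ∀ β, K β ≤ mp F β) {J : Fam F X} (h : ∀ β, J β ≤ K β) :
    AgD K 1 J := by
  refine ⟨h, fun β hβ => le_antisymm (h β) ((hK β).trans ?_)⟩
  rw [tot_eq_zero.1 (Nat.lt_one_iff.1 hβ), mp_zero]
  exact bot_le

theorem cnt_start {n : ℕ} (h : ∀ i, n < i → γ i = 0) : cntT F {s.σ} γ = vDeg s γ [] n 1 := by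
  refine Nat.card_congr (Equiv.subtypeEquivRight fun J => and_congr_right fun _ => ?_)
  constructor
  · rintro rfl
    refine ⟨fun _ _ => rfl, fun i hi => funext fun α => J.ty_eq_zero.1 (congrFun (h i hi) α),
      agD_one KK_le fun β => ?_⟩
    rw [KK_eq_mp goodF_nil fun _ h => absurd h List.not_mem_nil]
    exact J.le n β
  · rintro ⟨h1, h2, -⟩
    funext i
    rcases le_or_gt i n with hi | hi
    · exact h1 i hi
    · rw [h i hi]
      exact funext fun α => J.ty_eq_zero.2 (congrFun (h2 i hi) α)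

theorem budget_main (hg : GoodF s fr) (hb : Bud lo γ j fr.length r) {J : Chain F X}
    (hJ : CC s γ j J) (hle : ∀ β, J.J j β ≤ KK s fr β) (B : ℕ → Finset (X → ℕ))
    (hB : ∀ i, i ≤ j → ∀ β ∈ B i, J.J i β ≠ KK s fr β) :
    ∑ i ∈ Finset.range (j + 1), (B i).card ≤ r := by
  obtain ⟨m, δ, h2, h3, -⟩ := hb
  let T : Finset (X → ℕ) := (fr.map EnF.w).toFinset ∪ (Finset.range (j + 1)).biUnion B
  rw [← hJ.ty_eq] at h2
  have h4 := h2.sum_le (Finset.range (j + 1) ×ˢ T)
  rw [Finset.sum_product] at h4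
  have h5 : ∀ i ∈ Finset.range (j + 1), fr.length + (B i).card ≤ ∑ β ∈ T, J.ty i β := by
    intro i hi
    have hi' := Nat.lt_succ_iff.1 (Finset.mem_range.1 hi)
    have h6 : B i ⊆ T := (Finset.subset_biUnion_of_mem B hi).trans Finset.subset_union_right
    rw [← List.length_map EnF.w, ← sum_tyL (T := T) (fr.map EnF.w) fun α hα =>
      Finset.mem_union_left _ (List.mem_toFinset.2 hα), ← Finset.inter_eq_right.2 h6,
      ← Finset.filter_mem_eq_inter, Finset.card_filter, ← Finset.sum_add_distrib]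
    refine Finset.sum_le_sum fun β _ => ?_
    have h7 : J.J i β ≤ KK s fr β := (J.mono' hi' β).trans (hle β)
    have : Module.Finite F (KK s fr β) := Submodule.finiteDimensional_of_le (KK_le β)
    have h8 := Submodule.finrank_mono h7
    have h9 := Submodule.finrank_mono (KK_le (s := s) (fr := fr) β)
    have h10 := J.rank_add_ty i β
    rw [← KK_ty hg]
    split_ifs with e
    · have := Submodule.finrank_lt_finrank_of_lt (lt_of_le_of_ne h7 (hB i hi' β e))
      omega
    · omega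
  have h6 := (Finset.sum_le_sum h5).trans h4
  rw [Finset.sum_add_distrib, Finset.sum_const, Finset.card_range, smul_eq_mul] at h6
  omega

theorem budget_orb (hg : GoodF s fr) (hb : Bud lo γ j fr.length r) {J : Chain F X}
    (hJ : CC s γ j J) (hle : ∀ β, J.J j β ≤ KK s fr β) (B : Finset (X → ℕ))
    (hB : ∀ β ∈ B, J.J j β ≠ KK s fr β) : (j + 1) * B.card ≤ r := by
  have h := budget_main hg hb hJ hle (fun _ => B) fun i hi β hβ e =>
    hB β hβ (le_antisymm (hle β) (e ▸ J.mono' hi β))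
  rwa [Finset.sum_const, Finset.card_range, smul_eq_mul] at h

theorem budget_eq (hg : GoodF s fr) (hb : Bud lo γ j fr.length r) (hr : r < j + 1) {J : Chain F X}
    (hJ : CC s γ j J) (hle : ∀ β, J.J j β ≤ KK s fr β) : J.J j = KK s fr := by
  funext β
  by_contra h
  have h1 := budget_orb hg hb hJ hle {β} fun β' h' => Finset.mem_singleton.1 h' ▸ h
  rw [Finset.card_singleton] at h1
  omega

theorem budget_deg (hg : GoodF s fr) (hb : Bud lo γ j fr.length r) (hr : r < j + 1) :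
    vDeg s γ fr j D = vEnd s γ fr j :=
  cnt_congr fun _ hJ => ⟨fun h => budget_eq hg hb hr hJ h.1,
    fun h => h ▸ ⟨fun _ => le_rfl, fun _ _ => rfl⟩⟩

theorem budget_todo (hg : GoodF s fr) (hb : Bud lo γ j fr.length r) (hr : r < j + 1) :
    vTodo s γ fr j D todo = vEnd s γ fr j :=
  cnt_congr fun _ hJ => ⟨fun h => budget_eq hg hb hr hJ h.1.1,
    fun h => h ▸ ⟨⟨fun _ => le_rfl, fun _ _ => rfl⟩, fun _ _ _ _ _ => rfl⟩⟩

theorem Ag.cons {K J : Fam F X} (h : Ag s K D rest J) : Ag s K D (ν :: rest) J :=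
  ⟨h.1, fun β e h1 h2 h3 => h.2 β e h1 h2 fun ν' h' => h3 ν' (List.mem_cons_of_mem _ h')⟩

/-- Agreement on the space of the node removes the node from the list. -/
theorem Ag.of_le {K J : Fam F X} (hK : FInv s K) (hJ : FInv s J) (hle : ∀ β, K β ≤ mp F β)
    (h : Ag s K D (ν :: rest) J) (h' : K ν.1 ⊓ VV s ν.1 ν.2 ≤ J ν.1) : Ag s K D rest J := by
  refine ⟨h.1, fun β e h1 h2 h3 => ?_⟩
  by_cases hr : Rel s ν β e
  · refine le_antisymm (inf_le_inf_right _ (h.1.1 β)) (le_inf ?_ inf_le_right)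
    rcases hr with ⟨-, rfl, rfl⟩ | ⟨hx, t, rfl⟩
    · exact h'
    · rw [VV_of_not fun h4 => hx (fx_pow.2 h4), inf_of_le_left (hle _)] at h'
      exact inf_le_left.trans (hJ.le_pow hK h' t)
  · refine h.2 β e h1 h2 fun ν' h4 => ?_
    rcases List.mem_cons.1 h4 with rfl | h4
    · exact hr
    · exact h3 ν' h4

theorem Ag.le_of {K J : Fam F X} (ht : TodoOk s D (ν :: rest)) (h : Ag s K D rest J) :
    K ν.1 ⊓ VV s ν.1 ν.2 ≤ J ν.1 := by
  obtain ⟨h1, h2⟩ := ht.1 ν List.mem_cons_self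
  rw [← h.2 ν.1 ν.2 h1 h2 fun ν' h' e => (List.pairwise_cons.1 ht.2).1 ν' h' e.symm]
  exact inf_le_left

theorem prune (hg : GoodF s fr) (hb : Bud lo γ j fr.length r) (hr : r < (j + 1) * orb s ν.1)
    (A : List (Tms F)) : vPend s γ fr j D ν rest A = 0 := by
  refine cnt_zero fun J hJ h => ?_
  have h1 := budget_orb hg hb hJ h.1.1.1
    ((Finset.range (orb s ν.1)).image fun t => ν.1 ∘ (s.σ ^ t :)) fun β hβ e => by
      obtain ⟨t, -, rfl⟩ := Finset.mem_image.1 hβ
      have h2 := (hJ.finv j).le_pow (KK_finv hg) e.ge (t * (s.L - 1))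
      rw [comp_pow_back] at h2
      exact h.2.2 (h.1.of_le (KK_finv hg) (hJ.finv j) KK_le (inf_le_left.trans h2))
  rw [Finset.card_image_of_injOn fun t ht t' ht' e =>
    orbit_inj (Finset.mem_range.1 ht) (Finset.mem_range.1 ht') e, Finset.card_range] at h1
  omega

theorem reach_prune {m D₀ : ℕ} (hg : GoodF s fr) (hb : Bud lo γ j fr.length r) (hm : Reach γ m)
    (h : ∀ a ∈ fr, tot a.w ≤ D₀) (hr : r + D₀ < m) {Q : Fam F X → Prop}
    (hQ : ∀ J, Q J → ∀ β, J β ≤ KK s fr β) : cnt s γ j Q = 0 := by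
  refine cnt_zero fun J hJ hq => ?_
  obtain ⟨α, h1, h2⟩ := hm.resolve_left (by omega)
  rw [← hJ.2.1 0 (Nat.zero_le j)] at h2
  obtain ⟨x, hx⟩ := Function.ne_iff.1 fun e : α = 0 => by
    rw [tot_eq_zero.2 e] at h1
    omega
  have h3 : ∀ d : ℕ, ∃ β, D₀ < d → d ≤ m → J.ty 0 β ≠ 0 ∧ tot β = d := fun d => by
    by_cases hd : D₀ < d ∧ d ≤ m
    · obtain ⟨β, -, -, h4⟩ := J.adm_empty.exists_deg h2 hx (m := d) (by omega) (by omega)
      exact ⟨β, fun _ _ => h4⟩
    · exact ⟨0, fun h4 h5 => absurd ⟨h4, h5⟩ hd⟩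
  choose b hb' using h3
  have h4 := budget_main hg hb hJ (hQ _ hq) (fun i => if i = 0 then (Finset.Ioc D₀ m).image b else ∅)
    fun i _ β hβ e => by
      split_ifs at hβ with hi
      · obtain ⟨d, hd, rfl⟩ := Finset.mem_image.1 hβ
        obtain ⟨h5, h6⟩ := hb' d (Finset.mem_Ioc.1 hd).1 (Finset.mem_Ioc.1 hd).2
        rw [hi, KK_eq_mp hg fun a ha e' => by
          have := h a ha
          rw [e', h6] at this
          exact absurd (Finset.mem_Ioc.1 hd).1 (not_lt.2 this)] at e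
        exact h5 (J.ty_eq_zero.2 e)
      · exact absurd hβ (Finset.notMem_empty _)
  have h5 := (Finset.single_le_sum (fun _ _ => Nat.zero_le _)
    (Finset.mem_range.2 (Nat.succ_pos j))).trans h4
  rw [if_pos rfl, Finset.card_image_of_injOn fun d hd d' hd' e => by
    rw [← (hb' d (Finset.mem_Ioc.1 hd).1 (Finset.mem_Ioc.1 hd).2).2, e,
      (hb' d' (Finset.mem_Ioc.1 hd').1 (Finset.mem_Ioc.1 hd').2).2], Nat.card_Ioc] at h5
  omega

/-- The chain that is cut off after level `j`. -/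
noncomputable def cut (J : Chain F X) (j : ℕ) : Chain F X where
  J i := if i ≤ j then J.J i else mp F
  le i α := by
    split_ifs
    · exact J.le i α
    · exact le_rfl
  mono i α := by
    split_ifs
    · exact J.mono i α
    · exact J.le i α
    · omega
    · exact le_rfl
  br i α y u hu := by
    split_ifs at hu ⊢
    · exact J.br i α y u hu
    · exact lie_gen_mem F α y u hu

theorem cut_le (J : Chain F X) {i : ℕ} (h : i ≤ j) : (cut J j).J i = J.J i := if_pos h

theorem cut_gt (J : Chain F X) {i : ℕ} (h : j < i) : (cut J j).J i = mp F := if_neg (not_le.2 h)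

theorem ty_congr {J J' : Chain F X} {i i' : ℕ} (h : J.J i = J'.J i') : J.ty i = J'.ty i' := by
  funext α
  unfold Chain.ty
  rw [h]

theorem cc_cut {J : Chain F X} (h : ∀ i, i ≤ j → FInv s (J.J i))
    (h' : ∀ i, i ≤ j → J.ty i = γ i) : CC s γ j (cut J j) := by
  refine ⟨inv_iff.2 fun i => ?_, fun i hi => (ty_congr (cut_le J hi)).trans (h' i hi),
    fun i hi => cut_gt J hi⟩
  rcases le_or_gt i j with hi | hi
  · rw [cut_le J hi]
    exact h i hi
  · rw [cut_gt J hi]
    exact finv_mp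

theorem vEnd_zero (hg : GoodF s fr) (h : γ j ≠ tyL (fr.map EnF.w)) : vEnd s γ fr j = 0 :=
  cnt_zero fun J hJ e => h (by rw [← hJ.2.1 j le_rfl, ← KC_ty hg 0]; exact ty_congr e)

theorem CC.ext {J J' : Chain F X} (h : CC s γ j J) (h' : CC s γ j J')
    (e : ∀ i, i ≤ j → J.J i = J'.J i) : J = J' := by
  refine Chain.ext (funext fun i => ?_)
  rcases le_or_gt i j with hi | hi
  · exact e i hi
  · rw [h.2.2 i hi, h'.2.2 i hi]

theorem end_zero (hg : GoodF s fr) :
    (γ 0 = tyL (fr.map EnF.w) → vEnd s γ fr 0 = 1) ∧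
      (γ 0 ≠ tyL (fr.map EnF.w) → vEnd s γ fr 0 = 0) := by
  refine ⟨fun h => ?_, vEnd_zero hg⟩
  have h1 : CC s γ 0 (cut (KC hg) 0) :=
    cc_cut (fun _ _ => KK_finv hg) fun i hi => by rw [KC_ty, Nat.le_zero.1 hi, h]
  refine cnt_eq.trans (Set.ncard_eq_one.2 ⟨cut (KC hg) 0, Set.eq_singleton_iff_unique_mem.2
    ⟨⟨h1, cut_le _ le_rfl⟩, fun J hJ => hJ.1.ext h1 fun i hi => ?_⟩⟩)
  rw [Nat.le_zero.1 hi, cut_le _ le_rfl]
  exact hJ.2

theorem end_succ (hg : GoodF s fr) :
    (γ (j + 1) = tyL (fr.map EnF.w) → vEnd s γ fr (j + 1) = vDeg s γ fr j 1) ∧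
      (γ (j + 1) ≠ tyL (fr.map EnF.w) → vEnd s γ fr (j + 1) = 0) := by
  refine ⟨fun h => ?_, vEnd_zero hg⟩
  refine cnt_eq.trans (Eq.trans ?_ cnt_eq.symm)
  refine Set.ncard_congr (fun J _ => cut J j) (fun J hJ => ⟨cc_cut (fun i _ => hJ.1.finv i)
    fun i hi => hJ.1.2.1 i (hi.trans j.le_succ), agD_one KK_le fun β => ?_⟩)
    (fun J J' hJ hJ' e => hJ.1.ext hJ'.1 fun i hi => ?_) fun J hJ => ?_
  · rw [cut_le J le_rfl, ← show J.J (j + 1) = _ from hJ.2]
    exact J.mono j β
  · rcases hi.eq_or_lt with rfl | hi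
    · exact hJ.2.trans hJ'.2.symm
    · rw [← cut_le J (Nat.lt_succ_iff.1 hi), e, cut_le J' (Nat.lt_succ_iff.1 hi)]
  · let G : Chain F X :=
      { J := fun i => if i ≤ j then J.J i else KK s fr
        le := fun i α => by
          split_ifs
          · exact J.le i α
          · exact KK_le α
        mono := fun i α => by
          split_ifs with h1 h2
          · exact J.mono i α
          · exact (J.mono' h1 α).trans (hJ.2.1 α)
          · omega
          · exact le_rfl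
        br := fun i α y u hu => by
          split_ifs at hu ⊢
          · exact J.br i α y u hu
          · exact KK_lie hg hu (gen_mem_mp y) }
    have h1 : ∀ i, i ≤ j → G.J i = J.J i := fun i hi => if_pos hi
    have h2 : G.J (j + 1) = KK s fr := if_neg (Nat.not_succ_le_self j)
    have h3 : CC s γ (j + 1) (cut G (j + 1)) := cc_cut (fun i hi => by
      rcases hi.eq_or_lt with rfl | hi
      · exact h2 ▸ KK_finv hg
      · exact h1 i (Nat.lt_succ_iff.1 hi) ▸ hJ.1.finv i) fun i hi => by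
      rcases hi.eq_or_lt with rfl | hi
      · rw [h, ← KC_ty hg 0]
        exact ty_congr h2
      · rw [← hJ.1.2.1 i (Nat.lt_succ_iff.1 hi)]
        exact ty_congr (h1 i (Nat.lt_succ_iff.1 hi))
    refine ⟨cut G (j + 1), ⟨h3, (cut_le G le_rfl).trans h2⟩, Chain.ext (funext fun i => ?_)⟩
    rcases le_or_gt i j with hi | hi
    · rw [cut_le _ hi, cut_le _ (hi.trans j.le_succ), h1 i hi]
    · rw [cut_gt _ hi, hJ.1.2.2 i hi]

end Pool.Agent.P.MP_8598be_al.K
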