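import Pool.Agent.P.MP_8598be_al.K.S2

/-!
The steps between degrees and the dead nodes.
-/

set_option linter.unusedSectionVars false
set_option linter.unusedVariables false

namespace Pool.Agent.P.MP_8598be_al.K

open Module Z

variable {F X : Type} [Field F] [Fintype X] [DecidableEq X] {s : Sy F X} {γ : Ty X}
  {fr fr' : List (EnF F X)} {j D N r lo : ℕ} {ν : (X → ℕ) × ℕ} {todo rest : List ((X → ℕ) × ℕ)}

theorem TodoOk.perm {todo' : List ((X → ℕ) × ℕ)} (h : TodoOk s D todo) (p : todo.Perm todo') :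
    TodoOk s D todo' :=
  ⟨fun ν hν => h.1 ν (p.mem_iff.2 hν), h.2.perm p fun h1 h2 => h1 h2.symm⟩

theorem vTodo_perm {todo' : List ((X → ℕ) × ℕ)} (p : todo.Perm todo') :
    vTodo s γ fr j D todo = vTodo s γ fr j D todo' :=
  cnt_congr fun J _ => by simp only [Ag, p.mem_iff]

/-- All values can be prescribed on the listed forms. -/
def Sj {M ι : Type} [AddCommGroup M] [Module F M] (W : Submodule F M) (f : ι → Dual F M)
    (l : List ι) : Prop :=
  l.Nodup ∧ ∀ y : ι → F, ∃ u ∈ W, ∀ t ∈ l, f t u = y t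

theorem sj_iff {M ι : Type} [AddCommGroup M] [Module F M] {W : Submodule F M} {f : ι → Dual F M}
    {l : List ι} :
    (∀ y : ℕ → F, ∃ u ∈ W, ∀ k (hk : k < l.length), f l[k] u = y k) ↔ Sj W f l := by
  classical
  constructor
  · intro h
    refine ⟨List.nodup_iff_injective_getElem.2 fun k k' e => ?_, fun y => ?_⟩
    · obtain ⟨u, -, hu⟩ := h fun i => if i = k then 1 else 0
      have h1 := hu k k.2
      rw [show l[k.1] = l[k'.1] from e, hu k' k'.2, if_pos rfl] at h1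
      by_contra hne
      rw [if_neg fun e' => hne (Fin.ext e').symm] at h1
      exact zero_ne_one h1
    · obtain ⟨u, hu, h1⟩ := h fun i => if hi : i < l.length then y l[i] else 0
      refine ⟨u, hu, fun t ht => ?_⟩
      obtain ⟨k, hk, rfl⟩ := List.getElem_of_mem ht
      rw [h1 k hk, dif_pos hk]
  · intro h y
    obtain ⟨u, hu, h1⟩ := h.2 fun t => y (l.idxOf t)
    exact ⟨u, hu, fun k hk => by rw [h1 _ (List.getElem_mem hk), h.1.idxOf_getElem]⟩

theorem PendOk.sj {l : List (Tms F)} (h : PendOk s fr ν l) :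
    Sj (KK s fr ν.1 ⊓ VV s ν.1 ν.2) (fn s fr ν.1) l := sj_iff.1 h.surj

theorem PendOk.perm {l l' : List (Tms F)} (h : PendOk s fr ν l) (p : l.Perm l') :
    PendOk s fr ν l' where
  two := h.two
  sup t ht := h.sup t (p.mem_iff.2 ht)
  real t ht := h.real t (p.mem_iff.2 ht)
  eig hx t ht := h.eig hx t (p.mem_iff.2 ht)
  surj := sj_iff.2 ⟨p.nodup_iff.1 h.sj.1, fun y => by simpa only [p.mem_iff] using h.sj.2 y⟩
  span := by simpa only [p.mem_iff] using h.span

theorem mp_le_start (J : Chain F X) {α : X → ℕ} {x : X} (hx : α x ≠ 0) (h2 : 2 ≤ tot α)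
    (h : ∀ β y, β + one y = α → β x ≠ 0 → mp F β ≤ J.J j β) : mp F α ≤ J.J j α := by
  rw [mp_start hx h2]
  refine iSup₂_le fun y hy => ?_
  rintro _ ⟨u, hu, rfl⟩
  have h1 := J.br j _ y u (h _ y (sub_add_one hy.1) hy.2 hu)
  rwa [sub_add_one hy.1] at h1

theorem deg_end (hg : GoodF s fr) (hD : 2 ≤ D) (h : ∀ a ∈ fr, tot a.w + 1 ≠ D) :
    vDeg s γ fr j D = vEnd s γ fr j := by
  refine cnt_congr fun J _ => ⟨fun h1 => ?_, fun h => h ▸ ⟨fun _ => le_rfl, fun _ _ => rfl⟩⟩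
  have key : ∀ n β, tot β = n → D ≤ n + 1 → mp F β ≤ J.J j β := by
    intro n
    induction n with
    | zero => omega
    | succ n ih =>
      intro β hβ hn
      rcases hn.eq_or_lt with e | hn
      · rw [h1.2 β (by omega), KK_eq_mp hg fun a ha e' => h a ha (by rw [e', hβ, e])]
      · obtain ⟨x, hx⟩ := Function.ne_iff.1 fun e : β = 0 => by
          rw [tot_eq_zero.2 e] at hβ
          omega
        refine mp_le_start J hx (by omega) fun δ y e _ => ih δ ?_ (by omega)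
        rw [← e, tot_add, tot_one] at hβ
        omega
  funext β
  rcases lt_or_ge (tot β) D with h2 | h2
  · exact h1.2 β h2
  · exact le_antisymm (h1.1 β) ((KK_le β).trans (key _ β rfl (by omega)))

/-- Brackets modulo the ideal are combinations of brackets of dual basis vectors. -/
theorem lie_mem_frame (hg : GoodF s fr) {W : Submodule F (FL F X)} {β δ : X → ℕ}
    (h1 : ∀ u ∈ KK s fr β, ∀ v ∈ mp F δ, ⁅u, v⁆ ∈ W)
    (h2 : ∀ v ∈ KK s fr δ, ∀ u ∈ mp F β, ⁅v, u⁆ ∈ W)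
    (h3 : ∀ a ∈ fr, ∀ b ∈ fr, a.i ≠ b.i → a.w = β → b.w = δ → ⁅ee s fr a.i, ee s fr b.i⁆ ∈ W)
    {u v : FL F X} (hu : u ∈ mp F β) (hv : v ∈ mp F δ) : ⁅u, v⁆ ∈ W := by
  have h4 := h1 _ (decomp hg hu) v hv
  have h5 := h2 _ (decomp hg hv) _ (sum_mem fun i hi => smul_ee_mem hg hu hi)
  have h6 : ⁅∑ i ∈ idx fr, ph s fr i u • ee s fr i, ∑ i ∈ idx fr, ph s fr i v • ee s fr i⁆ ∈ W := by
    rw [sum_lie]
    refine sum_mem fun i hi => ?_
    rw [lie_sum]
    refine sum_mem fun k hk => ?_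
    obtain ⟨a, ha, rfl⟩ := mem_idx.1 hi
    obtain ⟨b, hb, rfl⟩ := mem_idx.1 hk
    rw [smul_lie, lie_smul]
    by_cases e : a.i = b.i
    · rw [e, lie_self, smul_zero, smul_zero]
      exact zero_mem _
    by_cases e1 : β = a.w
    · by_cases e2 : δ = b.w
      · exact W.smul_mem _ (W.smul_mem _ (h3 a ha b hb e e1.symm e2.symm))
      · rw [hg.ph.homog hb e2 hv, zero_smul, smul_zero]
        exact zero_mem _
    · rw [hg.ph.homog ha e1 hu, zero_smul]
      exact zero_mem _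
  have h7 := add_mem (sub_mem h4 h5) h6
  rw [sub_lie, sub_lie, ← lie_skew v, ← lie_skew (∑ i ∈ idx fr, ph s fr i v • ee s fr i)] at h7
  convert h7 using 1
  abel

theorem deg_start (hg : GoodF s fr) (hD : 2 ≤ D)
    (h : ∀ a ∈ fr, ∀ b ∈ fr, a.i ≠ b.i → tot (a.w + b.w) = D → ∀ e, e < s.L →
      ∃ ν ∈ todo, Rel s ν (a.w + b.w) e) :
    vDeg s γ fr j D = vTodo s γ fr j D todo := by
  refine cnt_congr fun J _ => ⟨fun h1 => ⟨h1, fun α e h2 h3 h4 => ?_⟩, fun h1 => h1.1⟩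
  have h5 : mp F α ≤ J.J j α := mp_le_of_lie (by omega) fun β δ h6 h7 h8 u hu v hv =>
    lie_mem_frame hg (fun u hu v hv => h6 ▸ J.lie_mem (h1.2 β (by omega) ▸ hu) hv)
      (fun v hv u hu => (add_comm δ β).trans h6 ▸ J.lie_mem (h1.2 δ (by omega) ▸ hv) hu)
      (fun a ha b hb e1 e2 e3 => by
        obtain ⟨ν, h9, h10⟩ := h a ha b hb e1 (by rw [e2, e3, h6, h2]) e h3
        rw [e2, e3, h6] at h10
        exact absurd h10 (h4 ν h9)) hu hv
  rw [le_antisymm (h1.1 α) ((KK_le α).trans h5)]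

theorem deg_one (h : ∀ y e, e < s.L → ∃ ν ∈ todo, Rel s ν (one y) e) :
    vDeg s γ fr j 1 = vTodo s γ fr j 1 todo := by
  refine cnt_congr fun J _ => ⟨fun h1 => ⟨h1, fun α e h2 h3 h4 => ?_⟩, fun h1 => h1.1⟩
  obtain ⟨y, rfl⟩ := tot_eq_one.1 h2
  obtain ⟨ν, h5, h6⟩ := h y e h3
  exact absurd h6 (h4 ν h5)

theorem todo_nil (hg : GoodF s fr) : vTodo s γ fr j D [] = vDeg s γ fr j (D + 1) := by
  refine cnt_congr fun J _ => ⟨fun h => ⟨h.1.1, fun β hβ => ?_⟩,
    fun h => ⟨⟨h.1, fun β hβ => h.2 β (by omega)⟩, fun β e h1 _ _ => by rw [h.2 β (by omega)]⟩⟩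
  rcases (Nat.lt_succ_iff.1 hβ).eq_or_lt with h1 | h1
  · refine le_antisymm (h.1.1 β) ((KK_finv hg).le_of_VV KK_le fun e he => ?_)
    rw [← h.2 β e h1 he fun _ h2 => absurd h2 List.not_mem_nil]
    exact inf_le_left
  · exact h.1.2 β h1

theorem todo_cons [Finite F] (hb : Bud lo γ j N r) :
    vTodo s γ fr j D (ν :: rest) = vTodo s γ fr j D rest + vPend s γ fr j D ν rest [] := by
  refine cnt_add hb (fun J _ => ⟨fun h => ?_, fun h => h.elim Ag.cons fun h => h.1⟩)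
    fun J _ h h' => h'.2.2 h
  by_cases h' : Ag s (KK s fr) D rest (J.J j)
  · exact Or.inl h'
  · exact Or.inr ⟨h, le_sup_of_le_right (by simp), h'⟩

theorem vPend_zero (hg : GoodF s fr) {A : List (Tms F)}
    (h : ∀ J : Chain F X, AgD (KK s fr) D (J.J j) → Part s (KK s fr) ν (A.map (fn s fr ν.1)) (J.J j) →
      KK s fr ν.1 ⊓ VV s ν.1 ν.2 ≤ J.J j ν.1) : vPend s γ fr j D ν rest A = 0 :=
  cnt_zero fun J hJ h' =>
    h'.2.2 (h'.1.of_le (KK_finv hg) (hJ.finv j) KK_le (h J h'.1.1 h'.2.1))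

theorem fix_of_fx {y : X} (h : Fx s (one y)) : s.σ y = y := by
  have h1 := congrFun h.2 y
  by_contra h2
  simp [h2] at h1

theorem gen_dead (hg : GoodF s fr) (ht : TodoOk s 1 (ν :: rest)) {y : X} (hy : ν.1 = one y)
    (h : (∃ a ∈ fr, a.w = ν.1) ∨ (Fx s ν.1 ∧ ν.2 ≠ 0)) : vPend s γ fr j 1 ν rest [] = 0 := by
  refine vPend_zero hg fun J _ _ u hu => ?_
  have h1 := KK_le _ hu.1
  rw [hy, mp_one] at h1
  obtain ⟨c, rfl⟩ := Submodule.mem_span_singleton.1 h1
  rcases h with ⟨a, ha, e⟩ | ⟨h2, h3⟩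
  · have h2 := (mem_KK.1 hu.1).2 a ha
    rw [map_smul, (hg.ph.real a ha).2, if_pos (e.trans hy), smul_eq_mul, mul_one] at h2
    rw [h2, zero_smul]
    exact zero_mem _
  · have h4 := (mem_VV.1 hu.2).2 h2
    rw [map_smul, TT_apply, ren_gen, fix_of_fx (hy ▸ h2), ← sub_eq_zero] at h4
    nth_rewrite 1 [← one_smul F (c • gen F y)] at h4
    rw [← sub_smul, smul_eq_zero, sub_eq_zero, ← pow_zero s.ζ] at h4
    rw [h4.resolve_left fun e =>
      h3 (s.ζ_inj s.L_pos (ht.1 ν List.mem_cons_self).2 e).symm]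
    exact zero_mem _

/-- No living predecessor contains the letter `x` (`mp_start`). -/
theorem node_dead (hg : GoodF s fr) (ht : TodoOk s D (ν :: rest)) (hD : 2 ≤ D) {x : X}
    (hx : ν.1 x ≠ 0) (h : ∀ a ∈ fr, ∀ y, a.w + one y = ν.1 → a.w x = 0) :
    vPend s γ fr j D ν rest [] = 0 := by
  have h0 := (ht.1 ν List.mem_cons_self).1
  refine vPend_zero hg fun J h1 _ => (inf_le_left.trans (KK_le _)).trans
    (mp_le_start J hx (by omega) fun β y e h2 => ?_)
  rw [h1.2 β (by rw [← h0, ← e, tot_add, tot_one]; omega),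
    KK_eq_mp hg fun a ha e' => h2 (by subst e'; exact h a ha y e)]

theorem AgD.low_le {K : Fam F X} {J : Chain F X} (h : AgD K D (J.J j)) {β : X → ℕ}
    (hβ : tot β = D) : lowK K β ≤ J.J j β := by
  rw [← lowK_congr fun α hα => h.2 α (hβ ▸ hα)]
  exact lowK_le J j β

theorem pend_nil (hg : GoodF s fr) (ht : TodoOk s D (ν :: rest)) {A : List (Tms F)}
    (hp : PendOk s fr ν A) : vPend s γ fr j D ν rest A = 0 := by
  refine vPend_zero hg fun J h1 h2 => h2.trans (sup_le inf_le_left (le_trans ?_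
    (hp.span.trans (h1.low_le (ht.1 ν List.mem_cons_self).1))))
  exact inf_le_inf_left _ (le_iInf₂ fun t ht => iInf₂_le _ (List.mem_map_of_mem ht))

end Pool.Agent.P.MP_8598be_al.K
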