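import Pool.Agent.P.MP_8598be_al.K.S3

/-!
Rescaling of frames.
-/

set_option linter.unusedSectionVars false
set_option linter.unusedVariables false

namespace Pool.Agent.P.MP_8598be_al.K

open Module Z

variable {F X : Type} [Field F] [Fintype X] [DecidableEq X] {s : Sy F X} {γ : Ty X}
  {fr fr' : List (EnF F X)} {j D N r lo : ℕ} {ν : (X → ℕ) × ℕ} {todo rest : List ((X → ℕ) × ℕ)}
  {c : F}

/-- The endomorphism that multiplies all generators by `c`. -/
noncomputable def dil (c : F) : FL F X →ₗ⁅F⁆ FL F X := FreeLieAlgebra.lift F fun x => c • gen F x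

theorem dil_gen (c : F) (x : X) : dil c (gen F x) = c • gen F x := FreeLieAlgebra.lift_of_apply _ _

theorem dil_mp (c : F) {α : X → ℕ} {u : FL F X} (hu : u ∈ mp F α) : dil c u = c ^ tot α • u := by
  have key : ∀ t : FreeMagma X, dil c (lie F t) = c ^ tot (wt t) • lie F t := by
    intro t
    induction t using FreeMagma.rec with
    | of k => rw [lie, dil_gen, wt, tot_one, pow_one]
    | mul a b iha ihb =>
      rw [lie, LieHom.map_lie, iha, ihb, smul_lie, lie_smul, wt, tot_add, pow_add, mul_smul]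
  refine LinearMap.eqOn_span (f := (dil (X := X) c).toLinearMap) (g := c ^ tot α • LinearMap.id)
    ?_ hu
  rintro _ ⟨t, ht, rfl⟩
  exact (show wt t = α from ht) ▸ key t

theorem dil_ren (c : F) (g : X → X) (u : FL F X) : dil c (ren F g u) = ren F g (dil c u) :=
  LieHom.congr_fun (show (dil c).comp (ren F g) = (ren F g).comp (dil c) from
    FreeLieAlgebra.hom_ext fun x => by
      change dil c (ren F g (gen F x)) = ren F g (dil c (gen F x))
      rw [ren_gen, dil_gen, dil_gen, map_smul, ren_gen]) u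

/-- The rescaled form. -/
noncomputable def rsc (c : F) (ψ : Dual F (FL F X)) : Dual F (FL F X) :=
  c⁻¹ • ψ.comp (dil c).toLinearMap

theorem rsc_apply (c : F) (ψ : Dual F (FL F X)) (u : FL F X) : rsc c ψ u = c⁻¹ * ψ (dil c u) := rfl

theorem rsc_mp (c : F) (ψ : Dual F (FL F X)) {α : X → ℕ} {u : FL F X} (hu : u ∈ mp F α) :
    rsc c ψ u = c⁻¹ * c ^ tot α * ψ u := by
  rw [rsc_apply, dil_mp c hu, map_smul, smul_eq_mul, mul_assoc]

theorem rsc_eq_zero (hc : c ≠ 0) (ψ : Dual F (FL F X)) {α : X → ℕ} {u : FL F X}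
    (hu : u ∈ mp F α) : rsc c ψ u = 0 ↔ ψ u = 0 := by
  rw [rsc_mp c ψ hu, mul_eq_zero, or_iff_right (mul_ne_zero (inv_ne_zero hc) (pow_ne_zero _ hc))]

theorem Real.rsc (hc : c ≠ 0) {φ : ℕ → Dual F (FL F X)} {w : X → ℕ} {t t' : Tms F}
    {ψ : Dual F (FL F X)} (h : Real φ w t ψ) (ht : TRel c t t') :
    Real (fun i => rsc c (φ i)) w t' (rsc c ψ) := by
  refine ⟨fun u v => ?_, fun y => ?_⟩
  · rw [rsc_apply, LieHom.map_lie, h.1, ht.cop]
    clear h ht
    induction t with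
    | nil => simp [cop_nil]
    | cons x t ih =>
      rw [cop_cons, cop_cons, mul_add, mul_add, ih]
      simp only [rsc_apply]
      field_simp
  · rw [rsc_apply, dil_gen, map_smul, h.2, smul_eq_mul, inv_mul_cancel_left₀ hc]

theorem FRel.left (h : FRel c fr fr') {b : EnF F X} (hb : b ∈ fr') :
    ∃ a ∈ fr, b.i = a.i ∧ b.w = a.w ∧ TRel c a.t b.t := by
  obtain ⟨g, h1, h2⟩ := h
  obtain ⟨k, hk, rfl⟩ := List.getElem_of_mem (h2.mem_iff.2 hb)
  exact ⟨_, List.getElem_mem (h1.length_eq ▸ hk), h1.get (h1.length_eq ▸ hk) hk⟩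

theorem FRel.right (h : FRel c fr fr') {a : EnF F X} (ha : a ∈ fr) :
    ∃ b ∈ fr', b.i = a.i ∧ b.w = a.w ∧ TRel c a.t b.t := by
  obtain ⟨g, h1, h2⟩ := h
  obtain ⟨k, hk, rfl⟩ := List.getElem_of_mem ha
  exact ⟨_, h2.mem_iff.1 (List.getElem_mem (h1.length_eq ▸ hk)), h1.get hk (h1.length_eq ▸ hk)⟩

theorem FRel.nodup (h : FRel c fr fr') (h' : (fr.map EnF.i).Nodup) : (fr'.map EnF.i).Nodup := by
  obtain ⟨g, h1, h2⟩ := h
  rw [← (h2.map _).nodup_iff]
  have h3 : g.map EnF.i = fr.map EnF.i := by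
    clear h2 h'
    induction h1 with
    | nil => rfl
    | cons h _ ih => rw [List.map_cons, List.map_cons, ih, h.1]
  rwa [h3]

theorem FRel.sup (h : FRel c fr fr') {w : X → ℕ} {t : Tms F} (hs : Sup fr w t) : Sup fr' w t := by
  intro x hx
  obtain ⟨a, ha, b, hb, h1, h2, h3⟩ := hs x hx
  obtain ⟨a', ha', h4, h5, -⟩ := h.right ha
  obtain ⟨b', hb', h6, h7, -⟩ := h.right hb
  exact ⟨a', ha', b', hb', h4.trans h1, h6.trans h2, by rw [h5, h7, h3]⟩

theorem FRel.good' (hc : c ≠ 0) (h : FRel c fr fr') (hg : GoodF s fr) :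
    Good s fr' fun i => rsc c (ph s fr i) where
  nodup := h.nodup hg.ph.nodup
  real b hb := by
    obtain ⟨a, ha, h1, h2, h3⟩ := h.left hb
    rw [h1, h2]
    exact (hg.ph.real a ha).rsc hc h3
  sup b hb := by
    obtain ⟨a, ha, h1, h2, h3⟩ := h.left hb
    rw [h2]
    exact h.sup (h3.sup (hg.ph.sup a ha))
  dual := ⟨fun i => c • dil c⁻¹ (ee s fr i), fun b hb => by
    obtain ⟨a, ha, h1, h2, -⟩ := h.left hb
    have h4 := ee_mem hg ha
    beta_reduce
    rw [h1, h2, dil_mp _ h4]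
    refine ⟨Submodule.smul_mem _ _ (Submodule.smul_mem _ _ h4), fun b' hb' => ?_⟩
    obtain ⟨a', ha', h5, -⟩ := h.left hb'
    rw [h5, map_smul, map_smul, rsc_mp _ _ h4, ph_ee hg ha ha', smul_eq_mul, smul_eq_mul, inv_pow]
    have := pow_ne_zero (tot a.w) hc
    field_simp⟩
  act b hb := by
    obtain ⟨a, ha, h1, h2, -⟩ := h.left hb
    obtain ⟨a', ha', h4, h5, h6⟩ := hg.ph.act a ha
    obtain ⟨b', hb', h7, h8, -⟩ := h.right ha'
    refine ⟨b', hb', by rw [h7, h4, h1], by rw [h8, h5, h2], fun u => ?_⟩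
    rw [rsc_apply, rsc_apply, dil_ren, h1, h6, h7]
    ring
  fixd b hb := by
    obtain ⟨a, ha, h1, h2, -⟩ := h.left hb
    rw [h1, h2]
    exact hg.ph.fixd a ha

/-- Rescaling: replace the form with multidegree `w` by `c ^ (tot w - 1)` times this form. -/
theorem FRel.good {c : F} (hc : c ≠ 0) (h : FRel c fr fr') (hg : GoodF s fr) :
    GoodF s fr' ∧ KK s fr' = KK s fr := by
  refine ⟨⟨_, h.good' hc hg⟩, funext fun α => Submodule.ext fun u => ?_⟩
  rw [mem_KK, mem_KK]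
  refine and_congr_right fun hu => ⟨fun h1 a ha => ?_, fun h1 b hb => ?_⟩
  · obtain ⟨b, hb, h2, -⟩ := h.right ha
    have h3 := h1 b hb
    rwa [(h.good' hc hg).ph_eq hb, rsc_eq_zero hc _ hu, h2] at h3
  · obtain ⟨a, ha, h2, -⟩ := h.left hb
    rw [(h.good' hc hg).ph_eq hb, rsc_eq_zero hc _ hu, h2]
    exact h1 a ha

theorem FRel.real (hc : c ≠ 0) (h : FRel c fr fr') (hg : GoodF s fr) {w : X → ℕ} {t t' : Tms F}
    (ht : TRel c t t') (hs : Sup fr w t) (hr : Real (ph s fr) w t (fn s fr w t)) :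
    Real (ph s fr') w t' (rsc c (fn s fr w t)) :=
  (hr.rsc hc ht).congr (h.sup (ht.sup hs)) fun _ ha => ((h.good' hc hg).ph_eq ha).symm

theorem forall₂_left {α β : Type} {R : α → β → Prop} {l : List α} {l' : List β}
    (h : List.Forall₂ R l l') {b : β} (hb : b ∈ l') : ∃ a ∈ l, R a b := by
  obtain ⟨k, hk, rfl⟩ := List.getElem_of_mem hb
  exact ⟨_, List.getElem_mem (h.length_eq ▸ hk), h.get (h.length_eq ▸ hk) hk⟩

theorem forall₂_right {α β : Type} {R : α → β → Prop} {l : List α} {l' : List β}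
    (h : List.Forall₂ R l l') {a : α} (ha : a ∈ l) : ∃ b ∈ l', R a b := by
  obtain ⟨k, hk, rfl⟩ := List.getElem_of_mem ha
  exact ⟨_, List.getElem_mem (h.length_eq ▸ hk), h.get hk (h.length_eq ▸ hk)⟩

theorem FRel.ker (hc : c ≠ 0) (h : FRel c fr fr') (hg : GoodF s fr) {w : X → ℕ}
    {l l' : List (Tms F)} (hl : List.Forall₂ (TRel c) l l') (hs : ∀ t ∈ l, Sup fr w t)
    (hr : ∀ t ∈ l, Real (ph s fr) w t (fn s fr w t)) {u : FL F X} (hu : u ∈ mp F w) :
    (∀ t ∈ l', fn s fr' w t u = 0) ↔ ∀ t ∈ l, fn s fr w t u = 0 := by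
  refine ⟨fun h1 t ht => ?_, fun h1 t' ht' => ?_⟩
  · obtain ⟨t', ht', h2⟩ := forall₂_right hl ht
    have h3 := h1 t' ht'
    rwa [(h.real hc hg h2 (hs t ht) (hr t ht)).fn_eq, rsc_eq_zero hc _ hu] at h3
  · obtain ⟨t, ht, h2⟩ := forall₂_left hl ht'
    rw [(h.real hc hg h2 (hs t ht) (hr t ht)).fn_eq, rsc_eq_zero hc _ hu]
    exact h1 t ht

theorem FRel.pend {c : F} (hc : c ≠ 0) (h : FRel c fr fr') (hg : GoodF s fr)
    {l l' : List (Tms F)} (hl : List.Forall₂ (TRel c) l l') (hp : PendOk s fr ν l) :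
    PendOk s fr' ν l' where
  two := hp.two
  sup t' ht' := by
    obtain ⟨t, ht, h2⟩ := forall₂_left hl ht'
    exact h.sup (h2.sup (hp.sup t ht))
  real t' ht' := by
    obtain ⟨t, ht, h2⟩ := forall₂_left hl ht'
    have h3 := h.real hc hg h2 (hp.sup t ht) (hp.real t ht)
    rwa [h3.fn_eq]
  eig hx t' ht' u := by
    obtain ⟨t, ht, h2⟩ := forall₂_left hl ht'
    rw [(h.real hc hg h2 (hp.sup t ht) (hp.real t ht)).fn_eq, rsc_apply, rsc_apply, dil_ren,
      hp.eig hx t ht]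
    ring
  surj y := by
    obtain ⟨u, hu, h1⟩ := hp.surj fun k => (c⁻¹ * c ^ tot ν.1)⁻¹ * y k
    refine ⟨u, (h.good hc hg).2 ▸ hu, fun k hk => ?_⟩
    have hk' : k < l.length := hl.length_eq ▸ hk
    have h2 : TRel c l[k] l'[k] := hl.get hk' hk
    rw [(h.real hc hg h2 (hp.sup _ (List.getElem_mem hk')) (hp.real _ (List.getElem_mem hk'))).fn_eq,
      rsc_mp _ _ (VV_le _ _ hu.2), h1 k hk',
      mul_inv_cancel_left₀ (mul_ne_zero (inv_ne_zero hc) (pow_ne_zero _ hc))]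
  span := by
    rw [(h.good hc hg).2]
    intro u hu
    refine hp.span ⟨hu.1, ?_⟩
    have h1 := hu.2
    simp only [SetLike.mem_coe, Submodule.mem_iInf, LinearMap.mem_ker] at h1 ⊢
    exact (h.ker hc hg hl hp.sup hp.real (VV_le _ _ hu.1.2)).1 h1

theorem FRel.vPend {c : F} (hc : c ≠ 0) (h : FRel c fr fr') (hg : GoodF s fr)
    {A A' l : List (Tms F)} (hl : List.Forall₂ (TRel c) A A') (hp : PendOk s fr ν (A ++ l)) :
    vPend s γ fr' j D ν rest A' = vPend s γ fr j D ν rest A := by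
  have h1 : KK s fr ν.1 ⊓ VV s ν.1 ν.2 ⊓ ⨅ ψ ∈ A'.map (fn s fr' ν.1), LinearMap.ker ψ =
      KK s fr ν.1 ⊓ VV s ν.1 ν.2 ⊓ ⨅ ψ ∈ A.map (fn s fr ν.1), LinearMap.ker ψ := by
    ext u
    simp only [Submodule.mem_inf, Submodule.mem_iInf, LinearMap.mem_ker, List.forall_mem_map]
    exact and_congr_right fun hu => h.ker hc hg hl (fun t ht => hp.sup t (List.mem_append_left _ ht))
      (fun t ht => hp.real t (List.mem_append_left _ ht)) (VV_le _ _ hu.2)
  unfold K.vPend Part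
  rw [(h.good hc hg).2, h1]

end Pool.Agent.P.MP_8598be_al.K
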