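import Pool.Agent.P.MP_8598be_al.K.S4

/-!
Installing the orbit of a new linear form.
-/

set_option linter.unusedSectionVars false
set_option linter.unusedVariables false

namespace Pool.Agent.P.MP_8598be_al.K

open Module Z

variable {F X : Type} [Field F] [Fintype X] [DecidableEq X] {s : Sy F X} {γ : Ty X}
  {fr fr' : List (EnF F X)} {j D N r lo : ℕ} {ν : (X → ℕ) × ℕ} {todo rest : List ((X → ℕ) × ℕ)}
  {T : Tms F} {ψ : Dual F (FL F X)} {ix : ℕ → ℕ}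

variable (s) in
/-- The rotated coproduct. -/
noncomputable def rot (t : ℕ) (T : Tms F) : Tms F := T.map fun x =>
  ((pi s.L)^[t] x.1, (pi s.L)^[t] x.2.1, s.ζ ^ (t * (ep s.L x.1 + ep s.L x.2.1)) * x.2.2)

theorem mem_install {w : X → ℕ} {a : EnF F X} : a ∈ install s fr w T ix ↔
    a ∈ fr ∨ ∃ t, t < orb s w ∧ a = ⟨ix t, w ∘ (s.σ ^ t :), rot s t T⟩ := by
  simp only [install, List.mem_append, List.mem_map, List.mem_range, rot, eq_comm (a := a)]

theorem Sup.rot (hg : GoodF s fr) {w : X → ℕ} (hs : Sup fr w T) (t : ℕ) :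
    Sup fr (w ∘ (s.σ ^ t :)) (rot s t T) := by
  intro y hy
  obtain ⟨x, hx, rfl⟩ := List.mem_map.1 hy
  obtain ⟨a, ha, b, hb, h1, h2, h3⟩ := hs x hx
  obtain ⟨a', ha', h4, h5, -⟩ := hg.ph.act_pow t ha
  obtain ⟨b', hb', h6, h7, -⟩ := hg.ph.act_pow t hb
  exact ⟨a', ha', b', hb', h1 ▸ h4, h2 ▸ h6, by rw [h5, h7, ← h3]; rfl⟩

theorem cop_rot (hg : GoodF s fr) {w : X → ℕ} (hs : Sup fr w T) (t : ℕ) (u v : FL F X) :
    cop (ph s fr) (rot s t T) u v = cop (ph s fr) T ((TT s ^ t) u) ((TT s ^ t) v) := by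
  unfold cop rot
  rw [List.map_map]
  congr 1
  refine List.map_congr_left fun x hx => ?_
  obtain ⟨a, ha, b, hb, h1, h2, -⟩ := hs x hx
  simp only [Function.comp_apply, ← h1, ← h2, hg.ph.act_iter t ha, hg.ph.act_iter t hb]
  ring

theorem Real.rot (hg : GoodF s fr) {w : X → ℕ} (hs : Sup fr w T) (h : Real (ph s fr) w T ψ)
    (t : ℕ) : Real (ph s fr) (w ∘ (s.σ ^ t :)) (rot s t T) (ψ.comp (TT s ^ t :)) := by
  refine ⟨fun u v => ?_, fun y => ?_⟩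
  · rw [cop_rot hg hs, LinearMap.comp_apply, TT_pow_lie, h.1]
  · rw [LinearMap.comp_apply, TT_pow_gen, h.2]
    exact if_congr (eq_one_iff _ _ _).symm rfl rfl

variable (s fr ν T ψ ix) in
/-- The hypotheses for installing a form. -/
structure Ins : Prop where
  hg : GoodF s fr
  real : Real (ph s fr) ν.1 T ψ
  sup : Sup fr ν.1 T
  eig : Fx s ν.1 → ∀ u, ψ (TT s u) = s.ζ ^ ν.2 * ψ u
  ex : ∃ u ∈ KK s fr ν.1 ⊓ VV s ν.1 ν.2, ψ u = 1
  hx : IxOk s fr ν ix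

theorem Ins.homog (h : Ins s fr ν T ψ ix) (t : ℕ) {β : X → ℕ} (hβ : β ≠ ν.1 ∘ (s.σ ^ t :))
    {u : FL F X} (hu : u ∈ mp F β) : ψ ((TT s ^ t) u) = 0 :=
  (h.real.rot h.hg h.sup t).homog h.hg.ph (h.sup.rot h.hg t) hβ hu

theorem Ins.good (h : Ins s fr ν T ψ ix) : ∃ φ, Good s (install s fr ν.1 T ix) φ ∧
    (∀ a ∈ fr, φ a.i = ph s fr a.i) ∧ ∀ t, t < orb s ν.1 → φ (ix t) = ψ.comp (TT s ^ t :) := by
  have hg := h.hg
  have hinj : Function.Injective fun t : Fin (orb s ν.1) => ix t :=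
    fun t t' e => Fin.ext (h.hx.inj _ _ t.2 t'.2 e)
  have hne : ∀ a ∈ fr, ¬ ∃ t : Fin (orb s ν.1), ix t = a.i :=
    fun a ha ⟨t, e⟩ => h.hx.fresh t t.2 a ha e.symm
  let φ : ℕ → Dual F (FL F X) := Function.extend (fun t : Fin (orb s ν.1) => ix t)
    (fun t => ψ.comp (TT s ^ t.1 :)) (ph s fr)
  have h1 : ∀ a ∈ fr, φ a.i = ph s fr a.i := fun a ha => Function.extend_apply' _ _ _ (hne a ha)
  have h2 : ∀ t, t < orb s ν.1 → φ (ix t) = ψ.comp (TT s ^ t :) :=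
    fun t ht => hinj.extend_apply _ _ ⟨t, ht⟩
  have hsub : ∀ a ∈ fr, a ∈ install s fr ν.1 T ix := fun a ha => mem_install.2 (Or.inl ha)
  refine ⟨φ, ⟨?_, fun a ha => ?_, fun a ha => ?_, ?_, fun a ha => ?_, fun a ha => ?_⟩, h1, h2⟩
  · rw [install, List.map_append, List.map_map, List.nodup_append]
    refine ⟨hg.ph.nodup, List.nodup_range.map_on fun t ht t' ht' e =>
      h.hx.inj t t' (List.mem_range.1 ht) (List.mem_range.1 ht') e, fun i hi k hk => ?_⟩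
    obtain ⟨a, ha, rfl⟩ := List.mem_map.1 hi
    obtain ⟨t, ht, rfl⟩ := List.mem_map.1 hk
    exact h.hx.fresh t (List.mem_range.1 ht) a ha
  · rcases mem_install.1 ha with ha | ⟨t, ht, rfl⟩
    · rw [h1 a ha]
      exact (hg.ph.real a ha).congr (hg.ph.sup a ha) fun b hb => (h1 b hb).symm
    · rw [h2 t ht]
      exact (h.real.rot hg h.sup t).congr (h.sup.rot hg t) fun b hb => (h1 b hb).symm
  · rcases mem_install.1 ha with ha | ⟨t, ht, rfl⟩
    · exact (hg.ph.sup a ha).mono hsub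
    · exact (h.sup.rot hg t).mono hsub
  · obtain ⟨u, hu, hu'⟩ := h.ex
    let d : ℕ → FL F X := fun t => (TT s ^ (t * (s.L - 1))) u
    have h3 : ∀ t, d t ∈ KK s fr (ν.1 ∘ (s.σ ^ t :)) := fun t => (KK_finv hg).back t hu.1
    have h4 : ∀ t t', t < orb s ν.1 → t' < orb s ν.1 →
        ψ ((TT s ^ t') (d t)) = if t = t' then 1 else 0 := fun t t' ht ht' => by
      split_ifs with e
      · rw [← e, TT_back, hu']
      · exact h.homog t' (fun e' => e (orbit_inj ht ht' e')) (KK_le _ (h3 t))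
    let e : ℕ → FL F X := Function.extend (fun t : Fin (orb s ν.1) => ix t) (fun t => d t.1)
      fun i => ee s fr i - ∑ t ∈ Finset.range (orb s ν.1), ψ ((TT s ^ t) (ee s fr i)) • d t
    have h5 : ∀ a ∈ fr, e a.i =
        ee s fr a.i - ∑ t ∈ Finset.range (orb s ν.1), ψ ((TT s ^ t) (ee s fr a.i)) • d t :=
      fun a ha => Function.extend_apply' _ _ _ (hne a ha)
    have h6 : ∀ t, t < orb s ν.1 → e (ix t) = d t := fun t ht => hinj.extend_apply _ _ ⟨t, ht⟩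
    refine ⟨e, fun a ha => ?_⟩
    rcases mem_install.1 ha with ha | ⟨t, ht, rfl⟩
    · rw [h5 a ha]
      refine ⟨sub_mem (ee_mem hg ha) (sum_mem fun t _ => ?_), fun b hb => ?_⟩
      · by_cases e' : a.w = ν.1 ∘ (s.σ ^ t :)
        · exact Submodule.smul_mem _ _ (e' ▸ KK_le _ (h3 t))
        · rw [h.homog t e' (ee_mem hg ha), zero_smul]
          exact zero_mem _
      · rw [map_sub, map_sum]
        rcases mem_install.1 hb with hb | ⟨t', ht', rfl⟩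
        · rw [h1 b hb, ph_ee hg ha hb, Finset.sum_eq_zero fun t _ => by
            rw [map_smul, (mem_KK.1 (h3 t)).2 b hb, smul_zero], sub_zero]
        · rw [h2 t' ht', if_neg (h.hx.fresh t' ht' a ha), sub_eq_zero,
            Finset.sum_eq_single_of_mem t' (Finset.mem_range.2 ht') fun t ht e' => by
              rw [map_smul, LinearMap.comp_apply, h4 t t' (Finset.mem_range.1 ht) ht', if_neg e',
                smul_zero],
            map_smul, LinearMap.comp_apply, LinearMap.comp_apply, h4 t' t' ht' ht', if_pos rfl,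
            smul_eq_mul, mul_one]
    · rw [h6 t ht]
      refine ⟨KK_le _ (h3 t), fun b hb => ?_⟩
      rcases mem_install.1 hb with hb | ⟨t', ht', rfl⟩
      · rw [h1 b hb, (mem_KK.1 (h3 t)).2 b hb, if_neg (h.hx.fresh t ht b hb).symm]
      · rw [h2 t' ht', LinearMap.comp_apply, h4 t t' ht ht']
        exact if_congr ⟨fun e' => by rw [e'], h.hx.inj t t' ht ht'⟩ rfl rfl
  · rcases mem_install.1 ha with ha | ⟨t, ht, rfl⟩
    · obtain ⟨b, hb, h3⟩ := hg.ph.act a ha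
      exact ⟨b, hsub b hb, by rwa [h1 a ha, h1 b hb]⟩
    · have h3 := Nat.mod_lt (t + 1) (orb_pos s ν.1)
      refine ⟨_, mem_install.2 (Or.inr ⟨_, h3, rfl⟩), (h.hx.cyc t ht).symm,
        (comp_pow_mod s _ _).trans (comp_pow_succ _ _ _).symm, fun u => ?_⟩
      change φ (ix t) (TT s u) = s.ζ ^ ep s.L (ix t) * φ (ix _) u
      rw [h2 t ht, h2 _ h3, LinearMap.comp_apply, LinearMap.comp_apply]
      by_cases hx : Fx s ν.1
      · rw [orb_of_fx hx] at ht ⊢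
        rw [Nat.lt_one_iff.1 ht, h.hx.fix hx]
        exact h.eig hx u
      · rw [h.hx.free hx t ht, pow_zero, one_mul, orb_of_not_fx hx, ← pow_eq_pow_mod _ TT_pow_L,
          pow_succ, End.mul_apply]
  · rcases mem_install.1 ha with ha | ⟨t, ht, rfl⟩
    · exact hg.ph.fixd a ha
    · intro hx
      have h3 := h.hx.cyc t ht
      rw [orb_of_fx (fx_pow.1 hx)] at ht h3
      rw [Nat.lt_one_iff.1 ht] at h3 ⊢
      exact ⟨h3, ep_lt s _⟩

theorem Ins.goodF (h : Ins s fr ν T ψ ix) : GoodF s (install s fr ν.1 T ix) :=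
  h.good.imp fun _ h => h.1

theorem Ins.ph_old (h : Ins s fr ν T ψ ix) {a : EnF F X} (ha : a ∈ fr) :
    ph s (install s fr ν.1 T ix) a.i = ph s fr a.i := by
  obtain ⟨φ, h1, h2, -⟩ := h.good
  rw [h1.ph_eq (mem_install.2 (Or.inl ha)), h2 a ha]

theorem Ins.mem (h : Ins s fr ν T ψ ix) {β : X → ℕ} {u : FL F X} :
    u ∈ KK s (install s fr ν.1 T ix) β ↔
      u ∈ KK s fr β ∧ ∀ t, t < orb s ν.1 → ψ ((TT s ^ t) u) = 0 := by
  obtain ⟨φ, h1, h2, h3⟩ := h.good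
  rw [mem_KK, mem_KK, and_assoc]
  refine and_congr_right fun _ => ⟨fun h4 => ⟨fun a ha => ?_, fun t ht => ?_⟩, fun h4 a ha => ?_⟩
  · rw [← h.ph_old ha]
    exact h4 a (mem_install.2 (Or.inl ha))
  · have h5 := mem_install.2 (Or.inr ⟨t, ht, rfl⟩ : _ ∈ fr ∨ ∃ t, t < orb s ν.1 ∧
      _ = (⟨ix t, ν.1 ∘ (s.σ ^ t :), rot s t T⟩ : EnF F X))
    have h6 := h4 _ h5
    rwa [h1.ph_eq h5, h3 t ht] at h6
  · rw [h1.ph_eq ha]
    rcases mem_install.1 ha with ha | ⟨t, ht, rfl⟩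
    · rw [h2 a ha]
      exact h4.1 a ha
    · rw [h3 t ht]
      exact h4.2 t ht

theorem Ins.le (h : Ins s fr ν T ψ ix) (β : X → ℕ) :
    KK s (install s fr ν.1 T ix) β ≤ KK s fr β := fun _ hu => (h.mem.1 hu).1

theorem Ins.eq_of_tot (h : Ins s fr ν T ψ ix) {β : X → ℕ} (hβ : tot β ≠ tot ν.1) :
    KK s (install s fr ν.1 T ix) β = KK s fr β :=
  le_antisymm (h.le β) fun _ hu => h.mem.2
    ⟨hu, fun t _ => h.homog t (fun e => hβ (by rw [e, tot_comp])) (KK_le _ hu)⟩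

theorem Ins.mem_self (h : Ins s fr ν T ψ ix) {u : FL F X} :
    u ∈ KK s (install s fr ν.1 T ix) ν.1 ↔ u ∈ KK s fr ν.1 ∧ ψ u = 0 := by
  rw [h.mem]
  refine and_congr_right fun hu => ⟨fun h1 => h1 0 (orb_pos s _), fun h1 t ht => ?_⟩
  rcases t.eq_zero_or_pos with rfl | h2
  · exact h1
  · exact h.homog t (fun e => h2.ne (orbit_inj (orb_pos s _) ht e)) (KK_le _ hu)

theorem Ins.low (h : Ins s fr ν T ψ ix) :
    lowK (KK s (install s fr ν.1 T ix)) ν.1 = lowK (KK s fr) ν.1 :=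
  lowK_congr fun _ hα => h.eq_of_tot hα.ne

theorem Ins.eq_of_not_rel (h : Ins s fr ν T ψ ix) {β : X → ℕ} {e : ℕ} (he : e < s.L)
    (hr : ¬ Rel s ν β e) :
    KK s (install s fr ν.1 T ix) β ⊓ VV s β e = KK s fr β ⊓ VV s β e := by
  refine le_antisymm (inf_le_inf_right _ (h.le β)) fun u hu => ⟨h.mem.2 ⟨hu.1, fun t ht => ?_⟩, hu.2⟩
  by_cases e' : β = ν.1 ∘ (s.σ ^ t :)
  · have hx : Fx s β := by_contra fun hx => hr (Or.inr ⟨hx, t, e'.symm⟩)
    have hx' : Fx s ν.1 := fx_pow.1 (e' ▸ hx)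
    rw [orb_of_fx hx'] at ht
    rw [Nat.lt_one_iff.1 ht] at e' ⊢
    exact eig_zero (h.eig hx') (h.hx.fix hx' ▸ ep_lt s _) he
      (fun e'' => hr (Or.inl ⟨hx, e'.symm, e''⟩)) ((mem_VV.1 hu.2).2 hx)
  · exact h.homog t e' (KK_le _ hu.1)

theorem Ins.ag (h : Ins s fr ν T ψ ix) (ht : TodoOk s D (ν :: rest)) {J : Fam F X}
    (hJ : FInv s J) : Ag s (KK s (install s fr ν.1 T ix)) D (ν :: rest) J ↔
      Ag s (KK s fr) D (ν :: rest) J ∧ ∀ u ∈ J ν.1 ⊓ VV s ν.1 ν.2, ψ u = 0 := by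
  obtain ⟨hD, he⟩ := ht.1 ν List.mem_cons_self
  constructor
  · intro h1
    refine ⟨⟨⟨fun β => (h1.1.1 β).trans (h.le β), fun β hβ => ?_⟩, fun β e h2 h3 h4 => ?_⟩,
      fun u hu => (h.mem_self.1 (h1.1.1 _ hu.1)).2⟩
    · rw [h1.1.2 β hβ, h.eq_of_tot (by omega)]
    · rw [h1.2 β e h2 h3 h4, h.eq_of_not_rel h3 (h4 ν List.mem_cons_self)]
  · rintro ⟨h1, h5⟩
    refine ⟨⟨fun β u hu => h.mem.2 ⟨h1.1.1 β hu, fun t _ => ?_⟩, fun β hβ => ?_⟩,
      fun β e h2 h3 h4 => ?_⟩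
    · by_cases e' : β = ν.1 ∘ (s.σ ^ t :)
      · exact hJ.eig_vanish (fun δ => (h1.1.1 δ).trans (KK_le δ)) he h.eig h5 _
          (hJ.pow t (e' ▸ hu))
      · exact h.homog t e' (KK_le _ (h1.1.1 β hu))
    · rw [h1.1.2 β hβ, h.eq_of_tot (by omega)]
    · rw [h1.2 β e h2 h3 h4, h.eq_of_not_rel h3 (h4 ν List.mem_cons_self)]

theorem Ins.fn (h : Ins s fr ν T ψ ix) {w : X → ℕ} {t : Tms F} (hs : Sup fr w t)
    (hr : Real (ph s fr) w t (fn s fr w t)) :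
    Real (ph s (install s fr ν.1 T ix)) w t (fn s fr w t) :=
  hr.congr hs fun _ ha => (h.ph_old ha).symm

theorem gen_new (hg : GoodF s fr) (ht : TodoOk s 1 (ν :: rest)) {y : X} (hy : ν.1 = one y)
    (h : ∀ a ∈ fr, a.w ≠ ν.1) (h' : Fx s ν.1 → ν.2 = 0) {ix : ℕ → ℕ} (hx : IxOk s fr ν ix) :
    GoodF s (install s fr ν.1 [] ix) ∧
      vPend s γ fr j 1 ν rest [] = vTodo s γ (install s fr ν.1 [] ix) j 1 rest := by
  obtain ⟨ψ, h1, h2⟩ := (⟨0, fun _ => rfl, fun _ _ _ => by simp⟩ : Coc F (FL F X)).exists_prim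
    fun z => if ν.1 = one z then 1 else 0
  have h3 : gen F y ∈ KK s fr ν.1 ⊓ VV s ν.1 ν.2 := by
    rw [KK_eq_mp hg h]
    refine ⟨hy ▸ gen_mem_mp y, mem_VV.2 ⟨hy ▸ gen_mem_mp y, fun hx => ?_⟩⟩
    rw [h' hx, pow_zero, one_smul, TT_apply, ren_gen, fix_of_fx (hy ▸ hx)]
  have h4 : ψ (gen F y) = 1 := (h1 y).trans (if_pos hy)
  have hI : Ins s fr ν [] ψ ix := ⟨hg, ⟨h2, h1⟩, fun _ h => absurd h List.not_mem_nil,
    fun hx u => by
      rw [h' hx, pow_zero, one_mul]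
      refine LinearMap.congr_fun (ext_fun (φ := ψ.comp (TT s)) (fun z => ?_) fun u v => ?_) u
      · rw [LinearMap.comp_apply, TT_apply, ren_gen, h1, h1]
        exact if_congr (by rw [← eq_one_iff, hx.2]) rfl rfl
      · rw [LinearMap.comp_apply, TT_apply, LieHom.map_lie, h2, h2]
        rfl,
    ⟨_, h3, h4⟩, hx⟩
  have h5 : ∀ u ∈ mp F ν.1, u = ψ u • gen F y := fun u hu => by
    rw [hy, mp_one] at hu
    obtain ⟨c, rfl⟩ := Submodule.mem_span_singleton.1 hu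
    rw [map_smul, h4, smul_eq_mul, mul_one]
  refine ⟨hI.goodF, cnt_congr fun J hJ => ⟨fun h6 => ?_, fun h6 => ?_⟩⟩
  · refine ((hI.ag ht (hJ.finv j)).2 ⟨h6.1, fun u hu => ?_⟩).of_le (KK_finv hI.goodF) (hJ.finv j)
      KK_le fun u hu => ?_
    · by_contra h7
      refine h6.2.2 (h6.1.of_le (KK_finv hg) (hJ.finv j) KK_le fun v hv => ?_)
      have h8 := (J.J j ν.1).smul_mem (ψ v * (ψ u)⁻¹) hu.1
      rwa [h5 u (J.le j _ hu.1), map_smul, h4, smul_eq_mul, mul_one, smul_smul,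
        inv_mul_cancel_right₀ h7, ← h5 v (KK_le _ hv.1)] at h8
    · rw [h5 u (KK_le _ hu.1), (hI.mem_self.1 hu.1).2, zero_smul]
      exact zero_mem _
  · have h7 := (hI.ag ht (hJ.finv j)).1 h6.cons
    refine ⟨h7.1, le_sup_of_le_right (by simp), fun h8 => ?_⟩
    exact one_ne_zero (h4.symm.trans (h7.2 _ ⟨h8.le_of ht h3, h3.2⟩))

end Pool.Agent.P.MP_8598be_al.K
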