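import Pool.Agent.P.MP_8598be_al.K.S5

/-!
The steps inside a node.
-/

set_option linter.unusedSectionVars false
set_option linter.unusedVariables false

namespace Pool.Agent.P.MP_8598be_al.K

open Module Z

variable {F X : Type} [Field F] [Fintype X] [DecidableEq X] {s : Sy F X} {γ : Ty X}
  {fr fr' : List (EnF F X)} {j D N r lo : ℕ} {ν : (X → ℕ) × ℕ} {todo rest : List ((X → ℕ) × ℕ)}

/-- A linear combination of forms. -/
noncomputable def lcm' (f : Tms F → Dual F (FL F X)) (ts : List F) (A : List (Tms F)) :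
    Dual F (FL F X) := (List.zipWith (fun c a => c • f a) ts A).sum

theorem lcm'_apply (f : Tms F → Dual F (FL F X)) (ts : List F) (A : List (Tms F)) (u : FL F X) :
    lcm' f ts A u = (List.zipWith (fun c a => c * f a u) ts A).sum := by
  unfold lcm'
  induction A generalizing ts with
  | nil => simp
  | cons a A ih =>
    cases ts with
    | nil => simp
    | cons c ts => simp [ih]

theorem zip_congr {g g' : Tms F → F} (k : F) (ts : List F) {A : List (Tms F)}
    (h : ∀ a ∈ A, g a = k * g' a) : (List.zipWith (fun c a => c * g a) ts A).sum =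
      k * (List.zipWith (fun c a => c * g' a) ts A).sum := by
  induction A generalizing ts with
  | nil => simp
  | cons a A ih =>
    cases ts with
    | nil => simp
    | cons c ts =>
      rw [List.zipWith_cons_cons, List.zipWith_cons_cons, List.sum_cons, List.sum_cons,
        ih ts fun a ha => h a (List.mem_cons_of_mem _ ha), h a List.mem_cons_self]
      ring

theorem lcm'_congr {f : Tms F → Dual F (FL F X)} (ts : List F) {A : List (Tms F)} {u : FL F X}
    {y : Tms F → F} (h : ∀ a ∈ A, f a u = y a) :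
    lcm' f ts A u = (List.zipWith (fun c a => c * y a) ts A).sum := by
  rw [lcm'_apply, zip_congr 1 ts fun a ha => (h a ha).trans (one_mul _).symm, one_mul]

theorem lcm'_zero {f : Tms F → Dual F (FL F X)} (ts : List F) {A : List (Tms F)} {u : FL F X}
    (h : ∀ a ∈ A, f a u = 0) : lcm' f ts A u = 0 := by
  rw [lcm'_apply, zip_congr (g' := fun _ => 0) 0 ts fun a ha => (h a ha).trans (mul_zero _).symm,
    zero_mul]

theorem lcm'_ofFn (f : Tms F → Dual F (FL F X)) {A : List (Tms F)} (t : Fin A.length → F) :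
    lcm' f (List.ofFn t) A = ∑ k, t k • f A[k] := by
  rw [lcm', ← List.sum_ofFn]
  congr 1
  exact List.ext_getElem (by simp) fun _ _ _ => by simp

theorem cop_comb (φ : ℕ → Dual F (FL F X)) (ψ : Tms F) (A : List (Tms F)) (ts : List F)
    (u v : FL F X) : cop φ (comb ψ A ts) u v =
      cop φ ψ u v + (List.zipWith (fun c a => c * cop φ a u v) ts A).sum := by
  rw [comb, cop_append]
  congr 1
  induction A generalizing ts with
  | nil => simp [cop_nil]
  | cons a A ih =>
    cases ts with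
    | nil => simp [cop_nil]
    | cons c ts =>
      rw [List.zipWith_cons_cons, List.zipWith_cons_cons, List.flatten_cons, cop_append, ih,
        cop_scale, List.sum_cons]

theorem sup_comb {w : X → ℕ} {ψ : Tms F} {A : List (Tms F)} (h : Sup fr w ψ)
    (h' : ∀ a ∈ A, Sup fr w a) (ts : List F) : Sup fr w (comb ψ A ts) := by
  intro x hx
  rcases List.mem_append.1 hx with hx | hx
  · exact h x hx
  · induction A generalizing ts with
    | nil => simp at hx
    | cons a A ih =>
      cases ts with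
      | nil => simp at hx
      | cons c ts =>
        rw [List.zipWith_cons_cons, List.flatten_cons, List.mem_append] at hx
        rcases hx with hx | hx
        · obtain ⟨y, hy, rfl⟩ := List.mem_map.1 hx
          exact h' a List.mem_cons_self y hy
        · exact ih (fun a ha => h' a (List.mem_cons_of_mem _ ha)) ts (List.mem_append_right _ hx) hx

variable {A l : List (Tms F)} {ψ : Tms F} {ix : ℕ → ℕ}

theorem PendOk.ex (hp : PendOk s fr ν (A ++ ψ :: l)) (y : Tms F → F) (c : F) :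
    ∃ u ∈ KK s fr ν.1 ⊓ VV s ν.1 ν.2, fn s fr ν.1 ψ u = c ∧
      ∀ t ∈ A ++ l, fn s fr ν.1 t u = y t := by
  classical
  obtain ⟨u, hu, h1⟩ := hp.sj.2 fun t => if t = ψ then c else y t
  have h2 := (List.nodup_cons.1 (List.perm_middle.nodup_iff.1 hp.sj.1)).1
  refine ⟨u, hu, (h1 ψ (by simp)).trans (if_pos rfl), fun t ht => ?_⟩
  rw [h1 t (List.perm_middle.mem_iff.2 (List.mem_cons_of_mem _ ht)), if_neg fun e : t = ψ => h2 (e ▸ ht)]

theorem PendOk.ins (hg : GoodF s fr) (hp : PendOk s fr ν (A ++ ψ :: l)) (hx : IxOk s fr ν ix)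
    (ts : List F) :
    Ins s fr ν (comb ψ A ts) (fn s fr ν.1 ψ + lcm' (fn s fr ν.1) ts A) ix where
  hg := hg
  real := by
    have h1 : ∀ t ∈ A ++ ψ :: l, ∀ y, fn s fr ν.1 t (gen F y) = 0 := fun t ht y =>
      ((hp.real t ht).2 y).trans (if_neg fun e => by
        have := hp.two
        rw [e, tot_one] at this
        omega)
    refine ⟨fun u v => ?_, fun y => ?_⟩
    · rw [cop_comb, LinearMap.add_apply, (hp.real ψ (by simp)).1,
        lcm'_congr ts fun a ha => (hp.real a (List.mem_append_left _ ha)).1 u v]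
    · rw [LinearMap.add_apply, lcm'_zero ts fun a ha => h1 a (List.mem_append_left _ ha) y,
        add_zero, (hp.real ψ (by simp)).2]
  sup := sup_comb (hp.sup ψ (by simp)) (fun a ha => hp.sup a (List.mem_append_left _ ha)) ts
  eig h u := by
    rw [LinearMap.add_apply, LinearMap.add_apply, lcm'_apply, lcm'_apply, mul_add, TT_apply,
      hp.eig h ψ (by simp), zip_congr _ ts fun a ha => hp.eig h a (List.mem_append_left _ ha) u]
  ex := by
    obtain ⟨u, hu, h1, h2⟩ := hp.ex 0 1
    exact ⟨u, hu, by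
      rw [LinearMap.add_apply, h1, lcm'_zero ts fun a ha => h2 a (List.mem_append_left _ ha),
        add_zero]⟩
  hx := hx

theorem pend_good (hg : GoodF s fr) {A l : List (Tms F)} {ψ : Tms F}
    (hp : PendOk s fr ν (A ++ ψ :: l)) {ix : ℕ → ℕ} (hx : IxOk s fr ν ix) (ts : List F) :
    GoodF s (install s fr ν.1 (comb ψ A ts) ix) ∧
      PendOk s (install s fr ν.1 (comb ψ A ts) ix) ν (A ++ l) := by
  have hI := hp.ins hg hx ts
  have h1 : ∀ t ∈ A ++ l, t ∈ A ++ ψ :: l :=
    fun t ht => List.perm_middle.mem_iff.2 (List.mem_cons_of_mem _ ht)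
  have h2 := fun t ht => hI.fn (hp.sup t (h1 t ht)) (hp.real t (h1 t ht))
  refine ⟨hI.goodF, hp.two, fun t ht => (hp.sup t (h1 t ht)).mono fun a ha =>
    mem_install.2 (Or.inl ha), fun t ht => by rw [(h2 t ht).fn_eq]; exact h2 t ht,
    fun h t ht => by rw [(h2 t ht).fn_eq]; exact hp.eig h t (h1 t ht),
    sj_iff.2 ⟨(List.nodup_cons.1 (List.perm_middle.nodup_iff.1 hp.sj.1)).2, fun y => ?_⟩,
    fun u hu => ?_⟩
  · obtain ⟨u, hu, h3, h4⟩ := hp.ex y (-(List.zipWith (fun c a => c * y a) ts A).sum)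
    refine ⟨u, ⟨hI.mem_self.2 ⟨hu.1, ?_⟩, hu.2⟩, fun t ht => by rw [(h2 t ht).fn_eq, h4 t ht]⟩
    rw [LinearMap.add_apply, h3, lcm'_congr ts fun a ha => h4 a (List.mem_append_left _ ha),
      neg_add_cancel]
  · rw [hI.low]
    have h3 := hI.mem_self.1 hu.1.1
    have h4 := hu.2
    refine hp.span ⟨⟨h3.1, hu.1.2⟩, ?_⟩
    simp only [SetLike.mem_coe, Submodule.mem_iInf, LinearMap.mem_ker] at h4 ⊢
    have h5 : ∀ t ∈ A ++ l, fn s fr ν.1 t u = 0 := fun t ht => (h2 t ht).fn_eq ▸ h4 t ht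
    intro t ht
    rcases List.mem_cons.1 (List.perm_middle.mem_iff.1 ht) with rfl | ht
    · have h6 := h3.2
      rwa [LinearMap.add_apply, lcm'_zero ts fun a ha => h5 a (List.mem_append_left _ ha),
        add_zero] at h6
    · exact h5 t ht

theorem part_iff {K J : Fam F X} {f : Tms F → Dual F (FL F X)} (hle : J ν.1 ≤ K ν.1) :
    Part s K ν (A.map f) J ↔
      ∀ w ∈ K ν.1 ⊓ VV s ν.1 ν.2, ∃ u ∈ J ν.1 ⊓ VV s ν.1 ν.2, ∀ a ∈ A, f a u = f a w := by
  refine forall₂_congr fun w hw => ?_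
  rw [Submodule.mem_sup]
  simp only [Submodule.mem_iInf, LinearMap.mem_ker, List.forall_mem_map,
    Submodule.mem_inf (p := K ν.1 ⊓ VV s ν.1 ν.2)]
  refine exists_congr fun u => and_congr_right fun hu => ⟨?_, fun h => ?_⟩
  · rintro ⟨k, hk, rfl⟩ a ha
    rw [map_add, hk.2 a ha, add_zero]
  · exact ⟨w - u, ⟨sub_mem hw ⟨hle hu.1, hu.2⟩, fun a ha => by rw [map_sub, h a ha, sub_self]⟩,
      add_sub_cancel u w⟩

theorem pend_cons [Finite F] (hg : GoodF s fr) (hb : Bud lo γ j N r)
    (ht : TodoOk s D (ν :: rest)) {A l : List (Tms F)} {ψ : Tms F}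
    (hp : PendOk s fr ν (A ++ ψ :: l)) {ix : ℕ → ℕ} (hx : IxOk s fr ν ix) :
    vPend s γ fr j D ν rest A = vPend s γ fr j D ν rest (ψ :: A) +
      ∑ᶠ t : Fin A.length → F,
        (vPend s γ (install s fr ν.1 (comb ψ A (List.ofFn t)) ix) j D ν rest A +
          vTodo s γ (install s fr ν.1 (comb ψ A (List.ofFn t)) ix) j D rest) := by
  classical
  have hI := fun t : Fin A.length → F => hp.ins hg hx (List.ofFn t)
  have h1 : ∀ t : Fin A.length → F,
      A.map (fn s (install s fr ν.1 (comb ψ A (List.ofFn t)) ix) ν.1) = A.map (fn s fr ν.1) :=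
    fun t => List.map_congr_left fun a ha => ((hI t).fn (hp.sup a (List.mem_append_left _ ha))
      (hp.real a (List.mem_append_left _ ha))).fn_eq
  let P : (Fin A.length → F) → Fam F X → Prop := fun t J =>
    Ag s (KK s (install s fr ν.1 (comb ψ A (List.ofFn t)) ix)) D (ν :: rest) J ∧
      Part s (KK s (install s fr ν.1 (comb ψ A (List.ofFn t)) ix)) ν (A.map (fn s fr ν.1)) J
  obtain ⟨u₁, hu₁, h2, h3⟩ := hp.ex 0 1
  have h4 : ∀ a ∈ A, fn s fr ν.1 a u₁ = 0 := fun a ha => h3 a (List.mem_append_left _ ha)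
  have h5 : ∀ t : Fin A.length → F, (fn s fr ν.1 ψ + lcm' (fn s fr ν.1) (List.ofFn t) A) u₁ = 1 :=
    fun t => by rw [LinearMap.add_apply, h2, lcm'_zero _ h4, add_zero]
  have h6 : ∀ J, CC s γ j J → ∀ t, P t (J.J j) → ∀ w ∈ KK s fr ν.1 ⊓ VV s ν.1 ν.2,
      ∃ u ∈ J.J j ν.1 ⊓ VV s ν.1 ν.2, ∀ a ∈ A, fn s fr ν.1 a u = fn s fr ν.1 a w := by
    intro J hJ t h w hw
    have h7 := sub_mem hw (Submodule.smul_mem _
      ((fn s fr ν.1 ψ + lcm' (fn s fr ν.1) (List.ofFn t) A) w) hu₁)
    obtain ⟨u, hu, h8⟩ := (part_iff (h.1.1.1 _)).1 h.2 _ ⟨(hI t).mem_self.2 ⟨h7.1, by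
      rw [map_sub, map_smul, h5, smul_eq_mul, mul_one, sub_self]⟩, h7.2⟩
    exact ⟨u, hu, fun a ha => by rw [h8 a ha, map_sub, map_smul, h4 a ha, smul_zero, sub_zero]⟩
  have h0 : ∀ t : Fin A.length → F, cnt s γ j (P t) =
      vPend s γ (install s fr ν.1 (comb ψ A (List.ofFn t)) ix) j D ν rest A +
        vTodo s γ (install s fr ν.1 (comb ψ A (List.ofFn t)) ix) j D rest := fun t => by
    refine cnt_add hb (fun J hJ => ?_) fun J _ h h' => h.2.2 h'
    rw [h1]
    refine ⟨fun h => ?_, fun h => h.elim (fun h => ⟨h.1, h.2.1⟩) fun h =>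
      ⟨h.cons, le_sup_of_le_left (le_inf (h.le_of ht) inf_le_right)⟩⟩
    by_cases h' : Ag s (KK s (install s fr ν.1 (comb ψ A (List.ofFn t)) ix)) D rest (J.J j)
    · exact Or.inr h'
    · exact Or.inl ⟨h.1, h.2, h'⟩
  rw [← finsum_congr h0,
    ← cnt_sum (Q := fun J => ∃ t, P t J) hb (fun _ _ => Iff.rfl) fun J hJ t t' h h' => ?_]
  · refine cnt_add hb (fun J hJ => ⟨fun h => ?_, ?_⟩) ?_
    · have h7 := (part_iff (h.1.1.1 _)).1 h.2.1
      by_cases h8 : ∃ u ∈ J.J j ν.1 ⊓ VV s ν.1 ν.2,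
          (∀ a ∈ A, fn s fr ν.1 a u = 0) ∧ fn s fr ν.1 ψ u ≠ 0
      · obtain ⟨u₀, hu₀, h9, h10⟩ := h8
        refine Or.inl ⟨h.1, (part_iff (h.1.1.1 _)).2 fun w hw => ?_, h.2.2⟩
        obtain ⟨u, hu, h11⟩ := h7 w hw
        refine ⟨u + ((fn s fr ν.1 ψ w - fn s fr ν.1 ψ u) * (fn s fr ν.1 ψ u₀)⁻¹) • u₀,
          add_mem hu (Submodule.smul_mem _ _ hu₀), fun a ha => ?_⟩
        rw [map_add, map_smul, smul_eq_mul]
        rcases List.mem_cons.1 ha with rfl | ha
        · rw [inv_mul_cancel_right₀ h10, add_sub_cancel]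
        · rw [h9 a ha, mul_zero, add_zero, h11 a ha]
      · have h9 := mem_span_of_iInf_ker_le_ker
          (L := fun k : Fin A.length => (fn s fr ν.1 A[k]).comp (J.J j ν.1 ⊓ VV s ν.1 ν.2).subtype)
          (K := (fn s fr ν.1 ψ).comp (J.J j ν.1 ⊓ VV s ν.1 ν.2).subtype) fun u hu => by
            by_contra h10
            refine h8 ⟨u, u.2, fun a ha => ?_, h10⟩
            obtain ⟨k, hk, rfl⟩ := List.getElem_of_mem ha
            exact (Submodule.mem_iInf _).1 hu ⟨k, hk⟩
        obtain ⟨t, h10⟩ := (Submodule.mem_span_range_iff_exists_fun F).1 h9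
        have h11 : ∀ u ∈ J.J j ν.1 ⊓ VV s ν.1 ν.2,
            (fn s fr ν.1 ψ + lcm' (fn s fr ν.1) (List.ofFn (-t)) A) u = 0 := fun u hu => by
          have h12 := LinearMap.congr_fun h10 ⟨u, hu⟩
          simp only [LinearMap.sum_apply, LinearMap.smul_apply, LinearMap.comp_apply,
            Submodule.subtype_apply] at h12
          simp only [lcm'_ofFn, LinearMap.add_apply, LinearMap.sum_apply, LinearMap.smul_apply,
            Pi.neg_apply, neg_smul, Finset.sum_neg_distrib, h12, add_neg_cancel]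
        have h12 := ((hI (-t)).ag ht (hJ.finv j)).2 ⟨h.1, h11⟩
        exact Or.inr ⟨-t, h12, (part_iff (h12.1.1 _)).2 fun w hw =>
          h7 w ⟨(hI (-t)).le _ hw.1, hw.2⟩⟩
    · rintro (h | ⟨t, h⟩)
      · exact ⟨h.1, (part_iff (h.1.1.1 _)).2 fun w hw =>
          ((part_iff (h.1.1.1 _)).1 h.2.1 w hw).imp fun u hu =>
            ⟨hu.1, fun a ha => hu.2 a (List.mem_cons_of_mem _ ha)⟩, h.2.2⟩
      · have h7 := ((hI t).ag ht (hJ.finv j)).1 h.1
        exact ⟨h7.1, (part_iff (h7.1.1.1 _)).2 (h6 J hJ t h), fun h8 =>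
          one_ne_zero ((h5 t).symm.trans (h7.2 _ ⟨h8.le_of ht hu₁, hu₁.2⟩))⟩
    · rintro J hJ h ⟨t, h'⟩
      obtain ⟨u, hu, h7⟩ := (part_iff (h.1.1.1 _)).1 h.2.1 u₁ hu₁
      have h8 := (((hI t).ag ht (hJ.finv j)).1 h'.1).2 u hu
      rw [LinearMap.add_apply, h7 ψ List.mem_cons_self, h2,
        lcm'_zero _ fun a ha => (h7 a (List.mem_cons_of_mem _ ha)).trans (h4 a ha), add_zero] at h8
      exact one_ne_zero h8
  · funext k
    obtain ⟨w, hw, h7⟩ := hp.surj fun i => if i = k then 1 else 0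
    obtain ⟨u, hu, h8⟩ := h6 J hJ t h w hw
    have h12 : ∀ k' : Fin A.length, fn s fr ν.1 A[k'] u = if k' = k then 1 else 0 := fun k' => by
      have h13 := h7 k' (k'.2.trans_le (by simp))
      rw [List.getElem_append_left k'.2] at h13
      rw [Fin.getElem_fin, h8 _ (List.getElem_mem k'.2), h13]
      exact if_congr Fin.ext_iff.symm rfl rfl
    have h9 : ∀ t : Fin A.length → F, lcm' (fn s fr ν.1) (List.ofFn t) A u = t k := fun t => by
      simp only [lcm'_ofFn, LinearMap.sum_apply, LinearMap.smul_apply, h12, smul_eq_mul, mul_ite,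
        mul_one, mul_zero, Finset.sum_ite_eq', Finset.mem_univ, if_true]
    have h10 := (((hI t).ag ht (hJ.finv j)).1 h.1).2 u hu
    have h11 := (((hI t').ag ht (hJ.finv j)).1 h'.1).2 u hu
    rw [LinearMap.add_apply, h9] at h10 h11
    exact add_left_cancel (h10.trans h11.symm)

theorem exists_ixOk (fr : List (EnF F X)) (he : ν.2 < s.L) : ∃ ix, IxOk s fr ν ix := by
  obtain ⟨M, hM⟩ : ∃ M, ∀ a ∈ fr, a.i < M :=
    ⟨(idx fr).sup id + 1, fun a ha => Nat.lt_succ_of_le (Finset.le_sup (f := id) (idx_mem ha))⟩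
  have h1 : M ≤ M * s.L := Nat.le_mul_of_pos_right M s.L_pos
  by_cases hx : Fx s ν.1
  · refine ⟨fun _ => 2 * (M * s.L + ν.2) + 1, fun t _ a ha => ?_, fun t t' h h' _ => ?_,
      fun t _ => if_pos (by omega), fun _ => ?_, fun h => absurd hx h⟩
    · have := hM a ha
      omega
    · rw [orb_of_fx hx] at h h'
      omega
    · rw [ep, if_pos (by omega), show (2 * (M * s.L + ν.2) + 1) / 2 = M * s.L + ν.2 by omega,
        Nat.mul_add_mod', Nat.mod_eq_of_lt he]
  · refine ⟨fun t => 2 * (M * s.L + t), fun t _ a ha => ?_, fun t t' _ _ e => by omega,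
      fun t ht => ?_, fun h => absurd h hx, fun _ t _ => if_neg (by omega)⟩
    · have := hM a ha
      omega
    · rw [orb_of_not_fx hx] at ht ⊢
      rw [pi, if_neg (by omega), Nat.mul_div_cancel_left _ two_pos, Nat.mul_add_mod',
        Nat.mod_eq_of_lt ht, add_comm (M * s.L) t, Nat.add_mul_div_right _ _ s.L_pos,
        Nat.div_eq_of_lt ht, zero_add]

/-- The last step: induction on `l` with `pend_cons`, `prune`, `budget_todo` and `end_zero`. -/
theorem pend_last [Finite F] (hg : GoodF s fr) (hb : Bud lo γ 0 fr.length (orb s ν.1))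
    (ht : TodoOk s D (ν :: rest)) {A l : List (Tms F)} (hp : PendOk s fr ν (A ++ l))
    {w : List (X → ℕ)}
    (hw : w = fr.map EnF.w ++ (List.range (orb s ν.1)).map fun t => ν.1 ∘ ⇑(s.σ ^ t)) :
    (γ 0 = tyL w → ((Nat.card F : ℤ) - 1) ∣ (vPend s γ fr 0 D ν rest A : ℤ) - l.length) ∧
      (γ 0 ≠ tyL w → vPend s γ fr 0 D ν rest A = 0) := by
  classical
  induction l generalizing A with
  | nil =>
    rw [pend_nil hg ht (List.append_nil A ▸ hp)]
    simp
  | cons ψ l ih =>
    obtain ⟨ix, hx⟩ := exists_ixOk fr (ht.1 ν List.mem_cons_self).2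
    obtain ⟨h1, h2⟩ := ih (A := ψ :: A) (hp.perm List.perm_middle)
    have h3 : ∀ t : Fin A.length → F,
        vPend s γ (install s fr ν.1 (comb ψ A (List.ofFn t)) ix) 0 D ν rest A +
          vTodo s γ (install s fr ν.1 (comb ψ A (List.ofFn t)) ix) 0 D rest =
        if γ 0 = tyL w then 1 else 0 := fun t => by
      have h4 := (pend_good hg hp hx (List.ofFn t)).1
      have h5 : Bud lo γ 0 (install s fr ν.1 (comb ψ A (List.ofFn t)) ix).length 0 := by
        obtain ⟨m, δ, h5, h6, h7⟩ := hb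
        refine ⟨m, δ, h5, ?_, h7⟩
        rw [h6, install, List.length_append, List.length_map, List.length_range]
        omega
      have h6 : (install s fr ν.1 (comb ψ A (List.ofFn t)) ix).map EnF.w = w := by
        rw [hw, install, List.map_append, List.map_map]
        rfl
      rw [prune h4 h5 (by have := orb_pos s ν.1; omega), budget_todo h4 h5 one_pos, zero_add]
      split_ifs with e
      · exact (end_zero h4).1 (h6 ▸ e)
      · exact (end_zero h4).2 (h6 ▸ e)
    rw [pend_cons hg hb ht hp hx, finsum_congr h3]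
    refine ⟨fun e => ?_, fun e => by rw [h2 e, if_neg e, finsum_zero, add_zero]⟩
    have := Fintype.ofFinite F
    rw [if_pos e, finsum_eq_sum_of_fintype, Finset.sum_const, Finset.card_univ, smul_eq_mul, mul_one,
      Fintype.card_fun, Fintype.card_fin, ← Nat.card_eq_fintype_card]
    refine (dvd_add (h1 e) (sub_one_dvd_pow_sub_one (Nat.card F : ℤ) A.length)).trans
      (dvd_of_eq ?_)
    rw [List.length_cons]
    push_cast
    ring

end Pool.Agent.P.MP_8598be_al.K
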