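import Pool.Agent.P.MP_8598be_al.K.S6

/-!
Alternating functions of indices and their keys; echelon forms.
-/

set_option linter.unusedSectionVars false
set_option linter.unusedVariables false

namespace Pool.Agent.P.MP_8598be_al.K

open Module Z

variable {F : Type} [Field F]

/-- An alternating function of two indices. -/
def Alt2 (H : ℕ → ℕ → F) : Prop := (∀ j l, H j l = -H l j) ∧ ∀ j, H j j = 0

/-- An alternating function of three indices. -/
def Alt3 (H : ℕ → ℕ → ℕ → F) : Prop :=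
  (∀ j l b, H j l b = -H l j b) ∧ (∀ j l b, H j l b = -H j b l) ∧ ∀ j b, H j j b = 0

theorem Alt2.ext {H H' : ℕ → ℕ → F} (h : Alt2 H) (h' : Alt2 H')
    (e : ∀ j l, j < l → H j l = H' j l) (j l : ℕ) : H j l = H' j l := by
  rcases lt_trichotomy j l with a | a | a
  · exact e j l a
  · rw [a, h.2, h'.2]
  · rw [h.1, h'.1, e l j a]

theorem Alt3.ext {H H' : ℕ → ℕ → ℕ → F} (h : Alt3 H) (h' : Alt3 H')
    (e : ∀ j l b, j < l → l < b → H j l b = H' j l b) (j l b : ℕ) : H j l b = H' j l b := by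
  have h1 : ∀ j l b, j < l → H j l b = H' j l b := by
    intro j l b a
    rcases lt_trichotomy l b with c | c | c
    · exact e j l b a c
    · rw [← c, h.1, h'.1, h.2.1, h'.2.1, h.2.2, h'.2.2]
    · rw [h.2.1, h'.2.1]
      rcases lt_trichotomy j b with d | d | d
      · rw [e j b l d c]
      · rw [d, h.2.2, h'.2.2]
      · rw [h.1, h'.1, e b j l d a]
  rcases lt_trichotomy j l with a | a | a
  · exact h1 j l b a
  · rw [a, h.2.2, h'.2.2]
  · rw [h.1, h'.1, h1 l j b a]

theorem sg2_self (a : ℕ) : sg2 F a a = 0 := if_pos rfl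

theorem sg2_of_lt {a b : ℕ} (h : a < b) : sg2 F a b = 1 := by
  rw [sg2, if_neg h.ne, if_pos h]

theorem sg2_swap (a b : ℕ) : sg2 F a b = -sg2 F b a := by
  rcases lt_trichotomy a b with h | h | h
  · rw [sg2_of_lt h, sg2, if_neg h.ne', if_neg h.not_gt, neg_neg]
  · rw [h, sg2_self, neg_zero]
  · rw [sg2_of_lt h, sg2, if_neg h.ne', if_neg h.not_gt]

theorem alt2_key (Δ : ℕ → F) : Alt2 fun j l => sg2 F j l * Δ (k2 j l) := by
  refine ⟨fun j l => ?_, fun j => by beta_reduce; rw [sg2_self, zero_mul]⟩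
  beta_reduce
  rw [sg2_swap, k2, k2, add_comm, neg_mul]

theorem alt3_key (Δ : ℕ → F) : Alt3 fun j l b => sg3 F j l b * Δ (k3 j l b) := by
  refine ⟨fun j l b => ?_, fun j l b => ?_, fun j b => ?_⟩
  · simp only [sg3, k3]
    rw [sg2_swap j l, add_comm (2 ^ j)]
    ring
  · simp only [sg3, k3]
    rw [sg2_swap l b, add_right_comm]
    ring
  · simp only [sg3, sg2_self, zero_mul]

theorem k2_eq {a b : ℕ} (h : a < b) : k2 a b = ∑ i ∈ ({a, b} : Finset ℕ), 2 ^ i := by
  rw [Finset.sum_pair h.ne, k2]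

theorem k3_eq {j l b : ℕ} (h : j < l) (h' : l < b) :
    k3 j l b = ∑ i ∈ ({j, l, b} : Finset ℕ), 2 ^ i := by
  rw [Finset.sum_insert (by simp; omega), Finset.sum_pair h'.ne, k3, add_assoc]

theorem k2_ne_k3 {a c j l b : ℕ} (h0 : a < c) (h : j < l) (h' : l < b) : k2 a c ≠ k3 j l b := by
  rw [k2_eq h0, k3_eq h h']
  intro e
  have h1 := Finset.ext_iff.1 (Finset.geomSum_injective le_rfl e)
  have h2 := (h1 j).2
  have h3 := (h1 l).2
  have h4 := (h1 b).2
  simp only [Finset.mem_insert, Finset.mem_singleton, true_or, or_true, forall_const] at h2 h3 h4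
  omega

theorem exists_key2 {H : ℕ → ℕ → F} (h : Alt2 H) : ∃ Δ : ℕ → F,
    (∀ j l, sg2 F j l * Δ (k2 j l) = H j l) ∧ ∀ j l b, sg3 F j l b * Δ (k3 j l b) = 0 := by
  let g : {p : ℕ × ℕ // p.1 < p.2} → ℕ := fun p => k2 p.1.1 p.1.2
  have hg : Function.Injective g := by
    rintro ⟨⟨a, b⟩, h1⟩ ⟨⟨c, d⟩, h2⟩ e
    change k2 a b = k2 c d at e
    change a < b at h1
    change c < d at h2
    rw [k2_eq h1, k2_eq h2] at e
    have h3 := Finset.ext_iff.1 (Finset.geomSum_injective le_rfl e)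
    have h4 := (h3 a).1
    have h5 := (h3 b).1
    simp only [Finset.mem_insert, Finset.mem_singleton, true_or, or_true, forall_const] at h4 h5
    exact Subtype.ext (Prod.ext (show a = c by omega) (show b = d by omega))
  refine ⟨Function.extend g (fun p => H p.1.1 p.1.2) 0, (alt2_key _).ext h fun j l h1 => ?_,
    (alt3_key _).ext (H' := 0) ⟨by simp, by simp, by simp⟩ fun j l b h1 h2 => ?_⟩
  · rw [sg2_of_lt h1, one_mul]
    exact hg.extend_apply _ _ ⟨(j, l), h1⟩
  · rw [Function.extend_apply' _ _ _ fun ⟨p, e⟩ => k2_ne_k3 p.2 h1 h2 e]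
    exact mul_zero _

theorem exists_key3 {H : ℕ → ℕ → ℕ → F} (h : Alt3 H) : ∃ Δ : ℕ → F,
    (∀ j l b, sg3 F j l b * Δ (k3 j l b) = H j l b) ∧ ∀ j l, sg2 F j l * Δ (k2 j l) = 0 := by
  let g : {p : ℕ × ℕ × ℕ // p.1 < p.2.1 ∧ p.2.1 < p.2.2} → ℕ := fun p => k3 p.1.1 p.1.2.1 p.1.2.2
  have hg : Function.Injective g := by
    rintro ⟨⟨a, b, c⟩, h1, h1'⟩ ⟨⟨a', b', c'⟩, h2, h2'⟩ e
    change k3 a b c = k3 a' b' c' at e
    change a < b at h1
    change b < c at h1'
    change a' < b' at h2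
    change b' < c' at h2'
    rw [k3_eq h1 h1', k3_eq h2 h2'] at e
    have h3 := Finset.ext_iff.1 (Finset.geomSum_injective le_rfl e)
    have h4 := (h3 a).1
    have h5 := (h3 b).1
    have h6 := (h3 c).1
    simp only [Finset.mem_insert, Finset.mem_singleton, true_or, or_true, forall_const] at h4 h5 h6
    exact Subtype.ext (Prod.ext (show a = a' by omega)
      (Prod.ext (show b = b' by omega) (show c = c' by omega)))
  refine ⟨Function.extend g (fun p => H p.1.1 p.1.2.1 p.1.2.2) 0,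
    (alt3_key _).ext h fun j l b h1 h2 => ?_,
    (alt2_key _).ext (H' := 0) ⟨by simp, by simp⟩ fun j l h1 => ?_⟩
  · rw [sg3, sg2_of_lt h1, sg2_of_lt h2, sg2_of_lt (h1.trans h2), one_mul, one_mul, one_mul]
    exact hg.extend_apply _ _ ⟨(j, l, b), h1, h2⟩
  · rw [Function.extend_apply' _ _ _ fun ⟨p, e⟩ => k2_ne_k3 h1 p.2.1 p.2.2 e.symm]
    exact mul_zero _

section Forms

variable {M : Type} [AddCommGroup M] [Module F M] (φ : ℕ → Dual F M)

/-- The determinant of two forms. -/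
def W2 (u v : M) (j l : ℕ) : F := φ j u * φ l v - φ l u * φ j v

/-- The determinant of three forms. -/
def W3 (u v w : M) (j l b : ℕ) : F :=
  W2 φ u v j l * φ b w - W2 φ u w j l * φ b v + W2 φ v w j l * φ b u

theorem alt_W2 (u v : M) : Alt2 (W2 φ u v) :=
  ⟨fun j l => by unfold W2; ring, fun j => by unfold W2; ring⟩

theorem alt_W3 (u v w : M) : Alt3 (W3 φ u v w) :=
  ⟨fun j l b => by unfold W3 W2; ring, fun j l b => by unfold W3 W2; ring,
    fun j b => by unfold W3 W2; ring⟩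

variable {φ} {I : Finset ℕ} {e : ℕ → M}

theorem Alt2.eq_sum {H : ℕ → ℕ → F} (h : Alt2 H)
    (he : ∀ i ∈ I, ∀ k ∈ I, φ k (e i) = if i = k then 1 else 0) {j l : ℕ} (hj : j ∈ I)
    (hl : l ∈ I) : H j l = ∑ p ∈ I, ∑ q ∈ I, (if p < q then H p q else 0) * W2 φ (e p) (e q) j l := by
  have h1 : ∀ (G : ℕ → ℕ → F) j l, j ∈ I → l ∈ I →
      ∑ p ∈ I, ∑ q ∈ I, G p q * (φ j (e p) * φ l (e q)) = G j l := fun G j l hj hl => by
    rw [Finset.sum_congr rfl fun p hp => Finset.sum_congr rfl fun q hq => by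
      rw [he p hp j hj, he q hq l hl]]
    simp [hj, hl]
  simp only [W2, mul_sub, Finset.sum_sub_distrib]
  rw [h1 _ j l hj hl, h1 _ l j hl hj]
  refine h.ext (H' := fun j l => (if j < l then H j l else 0) - if l < j then H l j else 0)
    ⟨fun j l => by ring, fun j => by ring⟩ (fun j l h2 => ?_) j l
  rw [if_pos h2, if_neg h2.not_gt, sub_zero]

theorem Alt3.eq_sum {H : ℕ → ℕ → ℕ → F} (h : Alt3 H)
    (he : ∀ i ∈ I, ∀ k ∈ I, φ k (e i) = if i = k then 1 else 0) {j l b : ℕ} (hj : j ∈ I)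
    (hl : l ∈ I) (hb : b ∈ I) : H j l b = ∑ p ∈ I, ∑ q ∈ I, ∑ r ∈ I,
      (if p < q ∧ q < r then H p q r else 0) * W3 φ (e p) (e q) (e r) j l b := by
  have h1 : ∀ (G : ℕ → ℕ → ℕ → F) j l b, j ∈ I → l ∈ I → b ∈ I →
      ∑ p ∈ I, ∑ q ∈ I, ∑ r ∈ I, G p q r * (φ j (e p) * φ l (e q) * φ b (e r)) = G j l b :=
    fun G j l b hj hl hb => by
      rw [Finset.sum_congr rfl fun p hp => Finset.sum_congr rfl fun q hq =>
        Finset.sum_congr rfl fun r hr => by rw [he p hp j hj, he q hq l hl, he r hr b hb]]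
      simp [hj, hl, hb]
  have h2 : ∀ p q r, W3 φ (e p) (e q) (e r) j l b =
      φ j (e p) * φ l (e q) * φ b (e r) - φ l (e p) * φ j (e q) * φ b (e r) -
      φ j (e p) * φ b (e q) * φ l (e r) + φ l (e p) * φ b (e q) * φ j (e r) +
      φ b (e p) * φ j (e q) * φ l (e r) - φ b (e p) * φ l (e q) * φ j (e r) := fun p q r => by
    unfold W3 W2
    ring
  simp only [h2, mul_sub, mul_add, Finset.sum_sub_distrib, Finset.sum_add_distrib]
  rw [h1 _ j l b hj hl hb, h1 _ l j b hl hj hb, h1 _ j b l hj hb hl, h1 _ l b j hl hb hj,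
    h1 _ b j l hb hj hl, h1 _ b l j hb hl hj]
  let G : ℕ → ℕ → ℕ → F := fun p q r => if p < q ∧ q < r then H p q r else 0
  refine h.ext (H' := fun j l b => G j l b - G l j b - G j b l + G l b j + G b j l - G b l j)
    ⟨fun j l b => by ring, fun j l b => by ring, fun j b => by ring⟩ (fun j l b h3 h4 => ?_) j l b
  simp only [G]
  rw [if_pos ⟨h3, h4⟩, if_neg (by omega), if_neg (by omega), if_neg (by omega), if_neg (by omega),
    if_neg (by omega)]
  ring

/-- The forms are in echelon form with respect to the vectors. -/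
def EchA : List (Dual F M) → List M → Prop
  | [], ms => ms = []
  | _ :: _, [] => False
  | g :: gs, m :: ms => g m ≠ 0 ∧ (∀ m' ∈ ms, g m' = 0) ∧ EchA gs ms

theorem EchA.sj {gs : List (Dual F M)} {ms : List M} (h : EchA gs ms) {W : Submodule F M}
    (hW : ∀ m ∈ ms, m ∈ W) : Sj W id gs := by
  induction gs generalizing ms W with
  | nil => exact ⟨List.nodup_nil, fun _ => ⟨0, zero_mem _, fun _ h => absurd h List.not_mem_nil⟩⟩
  | cons g gs ih =>
    cases ms with
    | nil => exact h.elim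
    | cons m ms =>
      obtain ⟨h1, h2⟩ := ih h.2.2 (W := W ⊓ LinearMap.ker g)
        fun m' hm => ⟨hW m' (List.mem_cons_of_mem _ hm), h.2.1 m' hm⟩
      refine ⟨List.nodup_cons.2 ⟨fun hg => ?_, h1⟩, fun y => ?_⟩
      · obtain ⟨u, hu, h3⟩ := h2 1
        exact zero_ne_one ((show g u = 0 from hu.2).symm.trans (h3 g hg))
      · obtain ⟨u, hu, h3⟩ := h2 fun g' => y g' - y g * (g m)⁻¹ * g' m
        refine ⟨(y g * (g m)⁻¹) • m + u,
          add_mem (W.smul_mem _ (hW m List.mem_cons_self)) hu.1, fun g' hg' => ?_⟩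
        rw [map_add, map_smul, smul_eq_mul]
        rcases List.mem_cons.1 hg' with rfl | hg'
        · rw [id, show g' u = 0 from hu.2, add_zero, inv_mul_cancel_right₀ h.1]
        · rw [h3 g' hg', id, add_sub_cancel]

theorem EchA.exists_span {gs : List (Dual F M)} {ms : List M} (h : EchA gs ms) (χ : Dual F M) :
    ∃ χ' ∈ Submodule.span F {g | g ∈ gs}, ∀ m ∈ ms, χ' m = χ m := by
  induction gs generalizing ms with
  | nil => exact ⟨0, zero_mem _, fun m hm => absurd ((show ms = [] from h) ▸ hm) List.not_mem_nil⟩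
  | cons g gs ih =>
    cases ms with
    | nil => exact h.elim
    | cons m ms =>
      obtain ⟨χ', h1, h2⟩ := ih h.2.2
      refine ⟨((χ m - χ' m) * (g m)⁻¹) • g + χ', add_mem
        (Submodule.smul_mem _ _ (Submodule.subset_span List.mem_cons_self))
        (Submodule.span_mono (fun _ => List.mem_cons_of_mem _) h1), fun m' hm => ?_⟩
      rw [LinearMap.add_apply, LinearMap.smul_apply, smul_eq_mul]
      rcases List.mem_cons.1 hm with rfl | hm
      · rw [inv_mul_cancel_right₀ h.1, sub_add_cancel]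
      · rw [h.2.1 m' hm, mul_zero, zero_add, h2 m' hm]

theorem Sj.left {ι : Type} {W : Submodule F M} {f : ι → Dual F M} {l : List ι}
    {l' : List (Dual F M)} (h : Sj W id (l.map f ++ l')) (y : ℕ → F) :
    ∃ u ∈ W, (∀ k (hk : k < l.length), f l[k] u = y k) ∧ ∀ g ∈ l', g u = 0 := by
  obtain ⟨u, hu, h1⟩ := sj_iff.2 h fun k => if k < l.length then y k else 0
  refine ⟨u, hu, fun k hk => ?_, fun g hg => ?_⟩
  · have h2 := h1 k (by simp; omega)
    rwa [List.getElem_append_left (by simpa using hk), List.getElem_map, if_pos hk] at h2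
  · obtain ⟨k, hk, rfl⟩ := List.getElem_of_mem hg
    have h2 := h1 (l.length + k) (by simpa using hk)
    rw [List.getElem_append_right (by simp), if_neg (by omega)] at h2
    simpa using h2

end Forms

theorem Tri.eq_zero {κ : Type} {v : κ → ℕ → F} {ρ : κ → F} {prev : List (ℕ → F)} {l : List κ}
    (h : Tri prev (l.map v))
    (h' : (l.map fun c => ρ c • v c).sum ∈ Submodule.span F {x | x ∈ prev}) : ∀ c ∈ l, ρ c = 0 := by
  induction l generalizing prev with
  | nil => exact fun _ h => absurd h List.not_mem_nil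
  | cons c l ih =>
    rw [List.map_cons, List.sum_cons] at h'
    have h1 := ih h.2 (by
      have h2 := sub_mem (Submodule.span_mono (fun _ => List.mem_cons_of_mem (v c)) h')
        (Submodule.smul_mem _ (ρ c) (Submodule.subset_span List.mem_cons_self))
      rwa [add_sub_cancel_left] at h2)
    rw [List.sum_eq_zero fun x hx => by
      obtain ⟨c', hc, rfl⟩ := List.mem_map.1 hx
      rw [h1 c' hc, zero_smul], add_zero] at h'
    intro c' hc
    rcases List.mem_cons.1 hc with rfl | hc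
    · by_contra h2
      exact h.1 ((Submodule.smul_mem_iff _ h2).1 h')
    · exact h1 c' hc

end Pool.Agent.P.MP_8598be_al.K
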