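import Pool.Agent.P.MP_8598be_al.K.S7

/-!
The equations of a node and the linear forms that solve them.
-/

set_option linter.unusedSectionVars false
set_option linter.unusedVariables false

namespace Pool.Agent.P.MP_8598be_al.K

open Module Z

variable {F X : Type} [Field F] [Fintype X] [DecidableEq X] {s : Sy F X}
  {fr : List (EnF F X)} {ν : (X → ℕ) × ℕ} {z : List (F × EnF F X × EnF F X)}

/-- The coproduct with given coefficients on columns. -/
def tm (z : List (F × EnF F X × EnF F X)) : Tms F := z.map fun p => (p.2.1.i, p.2.2.i, p.1)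

/-- The pairing of a list of keys with a function. -/
def pair (l : List (ℕ × F)) (Δ : ℕ → F) : F := (l.map fun y => y.2 * Δ y.1).sum

/-- Evaluation of functions of two indices. -/
def ev2 (j l : ℕ) : (ℕ → ℕ → F) →ₗ[F] F where
  toFun H := H j l
  map_add' _ _ := rfl
  map_smul' _ _ := rfl

/-- Evaluation of functions of three indices. -/
def ev3 (j l b : ℕ) : (ℕ → ℕ → ℕ → F) →ₗ[F] F where
  toFun H := H j l b
  map_add' _ _ := rfl
  map_smul' _ _ := rfl

/-- The Jacobi terms of a coproduct. -/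
def J1 (t : Tms F) (i : ℕ) : (ℕ → ℕ → ℕ → F) →ₗ[F] F :=
  (t.map fun x => x.2.2 • ev3 x.1 x.2.1 i).sum

/-- The Jacobi terms of a combination of columns. -/
def L3 (z : List (F × EnF F X × EnF F X)) : (ℕ → ℕ → ℕ → F) →ₗ[F] F :=
  (z.map fun p => p.1 • (J1 p.2.1.t p.2.2.i - J1 p.2.2.t p.2.1.i)).sum

variable (s ν) in
/-- The eigenvalue terms of a combination of columns. -/
def L2 (z : List (F × EnF F X × EnF F X)) : (ℕ → ℕ → F) →ₗ[F] F :=
  (z.map fun p => p.1 • (s.ζ ^ (ep s.L p.2.1.i + ep s.L p.2.2.i) •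
    ev2 (pi s.L p.2.1.i) (pi s.L p.2.2.i) - s.ζ ^ ν.2 • ev2 p.2.1.i p.2.2.i)).sum

theorem J1_cons (x : ℕ × ℕ × F) (t : Tms F) (i : ℕ) (H : ℕ → ℕ → ℕ → F) :
    J1 (x :: t) i H = x.2.2 * H x.1 x.2.1 i + J1 t i H := rfl

theorem L3_cons (p : F × EnF F X × EnF F X) (H : ℕ → ℕ → ℕ → F) :
    L3 (p :: z) H = p.1 * (J1 p.2.1.t p.2.2.i H - J1 p.2.2.t p.2.1.i H) + L3 z H := rfl

theorem L2_cons (p : F × EnF F X × EnF F X) (H : ℕ → ℕ → F) :
    L2 s ν (p :: z) H = p.1 * (s.ζ ^ (ep s.L p.2.1.i + ep s.L p.2.2.i) *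
      H (pi s.L p.2.1.i) (pi s.L p.2.2.i) - s.ζ ^ ν.2 * H p.2.1.i p.2.2.i) + L2 s ν z H := rfl

theorem cop_tm_cons (φ : ℕ → Dual F (FL F X)) (p : F × EnF F X × EnF F X) (u v : FL F X) :
    cop φ (tm (p :: z)) u v = p.1 * W2 φ u v p.2.1.i p.2.2.i + cop φ (tm z) u v := rfl

theorem pair_append (l l' : List (ℕ × F)) (Δ : ℕ → F) :
    pair (l ++ l') Δ = pair l Δ + pair l' Δ := by simp [pair]

theorem pair_J1 (c : F) (t : Tms F) (i : ℕ) (Δ : ℕ → F) :
    pair (t.map fun x => (k3 x.1 x.2.1 i, c * (sg3 F x.1 x.2.1 i * x.2.2))) Δ =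
      c * J1 t i fun j l b => sg3 F j l b * Δ (k3 j l b) := by
  induction t with
  | nil => exact (mul_zero c).symm
  | cons x t ih =>
    rw [J1_cons, mul_add, ← ih]
    simp only [pair, List.map_cons, List.sum_cons]
    ring

open Classical in
theorem pair_cols (Δ : ℕ → F) : (z.map fun p => p.1 * pair (colT s ν p.2) Δ).sum =
    (L3 z fun j l b => sg3 F j l b * Δ (k3 j l b)) +
      if Fx s ν.1 then L2 s ν z fun j l => sg2 F j l * Δ (k2 j l) else 0 := by
  induction z with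
  | nil => simp [L3, L2]
  | cons p z ih =>
    have h1 := pair_J1 1 p.2.1.t p.2.2.i Δ
    have h2 := pair_J1 (-1) p.2.2.t p.2.1.i Δ
    simp only [one_mul, neg_mul] at h1 h2
    rw [List.map_cons, List.sum_cons, ih, L3_cons, L2_cons, colT, pair_append, pair_append, h1, h2]
    split_ifs
    · simp only [pair, List.map_cons, List.sum_cons, List.map_nil, List.sum_nil]
      ring
    · simp only [pair, List.map_nil, List.sum_nil]
      ring

theorem pair_eq_sum (l : List (ℕ × F)) (Δ : ℕ → F) {S : Finset ℕ} (h : ∀ y ∈ l, y.1 ∈ S) :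
    pair l Δ = ∑ k ∈ S, cv l k * Δ k := by
  induction l with
  | nil => simp [pair, cv]
  | cons y l ih =>
    have h1 := ih fun y hy => h y (List.mem_cons_of_mem _ hy)
    simp only [pair, cv, List.map_cons, List.sum_cons, add_mul, Finset.sum_add_distrib, ite_mul,
      zero_mul, Finset.sum_ite_eq, h y List.mem_cons_self, if_true] at h1 ⊢
    rw [h1]

theorem eqn_iff {κ : Type} {g : κ → List (ℕ × F)} {z : List (F × κ)} :
    (∀ k, (z.map fun p => p.1 * cv (g p.2) k).sum = 0) ↔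
      ∀ Δ, (z.map fun p => p.1 * pair (g p.2) Δ).sum = 0 := by
  refine ⟨fun h Δ => ?_, fun h k => ?_⟩
  · have key : ∀ S : Finset ℕ, (∀ p ∈ z, ∀ y ∈ g p.2, y.1 ∈ S) →
        (z.map fun p => p.1 * pair (g p.2) Δ).sum =
          ∑ k ∈ S, (z.map fun p => p.1 * cv (g p.2) k).sum * Δ k := by
      clear h
      intro S hS
      induction z with
      | nil => simp
      | cons p z ih =>
        simp only [List.map_cons, List.sum_cons, add_mul, Finset.sum_add_distrib]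
        rw [ih fun p hp => hS p (List.mem_cons_of_mem _ hp),
          pair_eq_sum _ _ (hS p List.mem_cons_self), Finset.mul_sum]
        simp only [mul_assoc]
    rw [key (z.flatMap fun p => (g p.2).map Prod.fst).toFinset fun p hp y hy =>
      List.mem_toFinset.2 (List.mem_flatMap.2 ⟨p, hp, List.mem_map_of_mem hy⟩)]
    simp [h]
  · have h1 := h fun k' => if k' = k then 1 else 0
    simpa only [pair, cv, mul_ite, mul_one, mul_zero] using h1

theorem J1_W3 (φ : ℕ → Dual F (FL F X)) (t : Tms F) (i : ℕ) (u v w : FL F X) :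
    J1 t i (W3 φ u v w) = cop φ t u v * φ i w - cop φ t u w * φ i v + cop φ t v w * φ i u := by
  induction t with
  | nil => simp [J1, cop_nil]
  | cons x t ih =>
    rw [J1_cons, ih, cop_cons, cop_cons, cop_cons, W3, W2, W2, W2]
    ring

theorem L3_W3 (hg : GoodF s fr) (hz : ∀ p ∈ z, p.2.1 ∈ fr ∧ p.2.2 ∈ fr) (u v w : FL F X) :
    L3 z (W3 (ph s fr) u v w) = cop (ph s fr) (tm z) ⁅u, v⁆ w + cop (ph s fr) (tm z) v ⁅u, w⁆ -
      cop (ph s fr) (tm z) u ⁅v, w⁆ := by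
  induction z with
  | nil => simp [L3, tm, cop_nil]
  | cons p z ih =>
    obtain ⟨h1, h2⟩ := hz p List.mem_cons_self
    rw [L3_cons, ih fun p hp => hz p (List.mem_cons_of_mem _ hp), J1_W3, J1_W3, cop_tm_cons,
      cop_tm_cons, cop_tm_cons]
    simp only [W2, (hg.ph.real _ h1).1, (hg.ph.real _ h2).1]
    ring

theorem L2_W2 (hg : GoodF s fr) (hz : ∀ p ∈ z, p.2.1 ∈ fr ∧ p.2.2 ∈ fr) (u v : FL F X) :
    L2 s ν z (W2 (ph s fr) u v) =
      cop (ph s fr) (tm z) (TT s u) (TT s v) - s.ζ ^ ν.2 * cop (ph s fr) (tm z) u v := by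
  induction z with
  | nil => simp [L2, tm, cop_nil]
  | cons p z ih =>
    obtain ⟨h1, h2⟩ := hz p List.mem_cons_self
    have h3 := fun u => hg.ph.act_iter 1 h1 u
    have h4 := fun u => hg.ph.act_iter 1 h2 u
    simp only [pow_one, one_mul, Function.iterate_one] at h3 h4
    rw [L2_cons, ih fun p hp => hz p (List.mem_cons_of_mem _ hp), cop_tm_cons, cop_tm_cons]
    simp only [W2, h3, h4]
    ring

theorem J1_congr {I : Finset ℕ} {t : Tms F} {i : ℕ} (ht : ∀ x ∈ t, x.1 ∈ I ∧ x.2.1 ∈ I)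
    (hi : i ∈ I) {H H' : ℕ → ℕ → ℕ → F} (h : ∀ j ∈ I, ∀ l ∈ I, ∀ b ∈ I, H j l b = H' j l b) :
    J1 t i H = J1 t i H' := by
  induction t with
  | nil => rfl
  | cons x t ih =>
    rw [J1_cons, J1_cons, ih fun x hx => ht x (List.mem_cons_of_mem _ hx),
      h _ (ht x List.mem_cons_self).1 _ (ht x List.mem_cons_self).2 i hi]

theorem L3_congr (hg : GoodF s fr) (hz : ∀ p ∈ z, p.2.1 ∈ fr ∧ p.2.2 ∈ fr)
    {H H' : ℕ → ℕ → ℕ → F}
    (h : ∀ j ∈ idx fr, ∀ l ∈ idx fr, ∀ b ∈ idx fr, H j l b = H' j l b) : L3 z H = L3 z H' := by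
  induction z with
  | nil => rfl
  | cons p z ih =>
    obtain ⟨h1, h2⟩ := hz p List.mem_cons_self
    rw [L3_cons, L3_cons, ih fun p hp => hz p (List.mem_cons_of_mem _ hp),
      J1_congr (hg.ph.sup _ h1).idx (idx_mem h2) h, J1_congr (hg.ph.sup _ h2).idx (idx_mem h1) h]

theorem L2_congr (hg : GoodF s fr) (hz : ∀ p ∈ z, p.2.1 ∈ fr ∧ p.2.2 ∈ fr) {H H' : ℕ → ℕ → F}
    (h : ∀ j ∈ idx fr, ∀ l ∈ idx fr, H j l = H' j l) : L2 s ν z H = L2 s ν z H' := by
  induction z with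
  | nil => rfl
  | cons p z ih =>
    obtain ⟨h1, h2⟩ := hz p List.mem_cons_self
    obtain ⟨a, ha, h3, -⟩ := hg.ph.act _ h1
    obtain ⟨b, hb, h4, -⟩ := hg.ph.act _ h2
    rw [L2_cons, L2_cons, ih fun p hp => hz p (List.mem_cons_of_mem _ hp),
      h _ (idx_mem h1) _ (idx_mem h2), h _ (mem_idx.2 ⟨a, ha, h3⟩) _ (mem_idx.2 ⟨b, hb, h4⟩)]

theorem ne_one_of_two {α : X → ℕ} (h : 2 ≤ tot α) (y : X) : α ≠ one y := fun e => by
  rw [e, tot_one] at h
  omega

/-- The solutions of the equations are the coproducts of eigenforms. -/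
theorem sol_iff (hg : GoodF s fr) (h2 : 2 ≤ tot ν.1) (hz : ∀ p ∈ z, p.2.1 ∈ fr ∧ p.2.2 ∈ fr) :
    (∀ k, (z.map fun p => p.1 * cv (colT s ν p.2) k).sum = 0) ↔
      ∃ ψ, Real (ph s fr) ν.1 (tm z) ψ ∧ (Fx s ν.1 → ∀ u, ψ (TT s u) = s.ζ ^ ν.2 * ψ u) := by
  rw [eqn_iff]
  simp only [pair_cols]
  constructor
  · intro h
    obtain ⟨ψ, h3, h4⟩ := (⟨copL (ph s fr) (tm z), fun u => (copL_apply u u).trans (cop_self u),
      fun u v w => by
        obtain ⟨Δ, h3, h4⟩ := exists_key3 (alt_W3 (ph s fr) u v w)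
        have h5 := h Δ
        rw [funext₃ h3, show (fun j l => sg2 F j l * Δ (k2 j l)) = 0 from funext₂ h4, map_zero,
          ite_self, add_zero, L3_W3 hg hz, sub_eq_zero] at h5
        rw [copL_apply, copL_apply, copL_apply, h5]⟩ : Coc F (FL F X)).exists_prim 0
    have h5 : ∀ u v, ψ ⁅u, v⁆ = cop (ph s fr) (tm z) u v := fun u v => (h4 u v).trans (copL_apply u v)
    refine ⟨ψ, ⟨h5, fun y => (h3 y).trans (if_neg (ne_one_of_two h2 y)).symm⟩, fun hx u => ?_⟩
    refine LinearMap.congr_fun (ext_fun (φ := ψ.comp (TT s)) (ψ := s.ζ ^ ν.2 • ψ) (fun y => ?_)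
      fun u v => ?_) u
    · rw [LinearMap.comp_apply, TT_apply, ren_gen, h3, LinearMap.smul_apply, h3]
      exact (smul_zero _).symm
    · obtain ⟨Δ, h6, h7⟩ := exists_key2 (alt_W2 (ph s fr) u v)
      have h8 := h Δ
      rw [funext₂ h6, show (fun j l b => sg3 F j l b * Δ (k3 j l b)) = 0 from funext₃ h7, map_zero,
        if_pos hx, zero_add, L2_W2 hg hz, sub_eq_zero] at h8
      rw [LinearMap.comp_apply, TT_apply, LieHom.map_lie, h5, LinearMap.smul_apply, h5]
      exact h8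
  · rintro ⟨ψ, h3, h4⟩ Δ
    have he := fun i hi k hk => ph_ee' hg (i := i) (k := k) hi hk
    rw [L3_congr hg hz (H' := ∑ p ∈ idx fr, ∑ q ∈ idx fr, ∑ r ∈ idx fr,
      (if p < q ∧ q < r then sg3 F p q r * Δ (k3 p q r) else 0) •
        W3 (ph s fr) (ee s fr p) (ee s fr q) (ee s fr r)) fun j hj l hl b hb => by
      rw [(alt3_key Δ).eq_sum he hj hl hb]
      simp only [Finset.sum_apply, Pi.smul_apply, smul_eq_mul]]
    have h5 : ∀ u v w, L3 z (W3 (ph s fr) u v w) = 0 := fun u v w => by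
      rw [L3_W3 hg hz, ← h3.1, ← h3.1, ← h3.1, leibniz_lie u v w, map_add, sub_self]
    simp only [map_sum, map_smul, h5, smul_zero, Finset.sum_const_zero, zero_add]
    split_ifs with hx
    · rw [L2_congr hg hz (H' := ∑ p ∈ idx fr, ∑ q ∈ idx fr,
        (if p < q then sg2 F p q * Δ (k2 p q) else 0) •
          W2 (ph s fr) (ee s fr p) (ee s fr q)) fun j hj l hl => by
        rw [(alt2_key Δ).eq_sum he hj hl]
        simp only [Finset.sum_apply, Pi.smul_apply, smul_eq_mul]]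
      have h6 : ∀ u v, L2 s ν z (W2 (ph s fr) u v) = 0 := fun u v => by
        rw [L2_W2 hg hz, ← h3.1, ← h3.1, ← h4 hx, TT_apply, TT_apply, TT_apply, LieHom.map_lie,
          sub_self]
      simp only [map_sum, map_smul, h6, smul_zero, Finset.sum_const_zero]
    · rfl

end Pool.Agent.P.MP_8598be_al.K
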