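import Pool.Agent.P.MP_8598be_al.K.S8

/-!
The certificate of a node.
-/

set_option linter.unusedSectionVars false
set_option linter.unusedVariables false

namespace Pool.Agent.P.MP_8598be_al.K

open Module Z

variable {F X : Type} [Field F] [Fintype X] [DecidableEq X] {s : Sy F X}
  {fr : List (EnF F X)} {ν : (X → ℕ) × ℕ} {z : List (F × EnF F X × EnF F X)}
  {cols : List (EnF F X × EnF F X)} {ψ : Dual F (FL F X)} {t : Tms F}

variable (s fr ν) in
/-- The forms of a node. -/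
def NW : Submodule F (Dual F (FL F X)) where
  carrier := {ψ | (∀ β, β ≠ ν.1 → ∀ u ∈ mp F β, ψ u = 0) ∧ (∀ u ∈ lowK (KK s fr) ν.1, ψ u = 0) ∧
    (Fx s ν.1 → ∀ u, ψ (TT s u) = s.ζ ^ ν.2 * ψ u)}
  add_mem' {a b} ha hb := ⟨fun β h u hu => by
      rw [LinearMap.add_apply, ha.1 β h u hu, hb.1 β h u hu, add_zero],
    fun u hu => by rw [LinearMap.add_apply, ha.2.1 u hu, hb.2.1 u hu, add_zero],
    fun h u => by rw [LinearMap.add_apply, LinearMap.add_apply, ha.2.2 h, hb.2.2 h, mul_add]⟩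
  zero_mem' := ⟨fun _ _ _ _ => rfl, fun _ _ => rfl, fun _ _ => (mul_zero _).symm⟩
  smul_mem' c a ha := ⟨fun β h u hu => by rw [LinearMap.smul_apply, ha.1 β h u hu, smul_zero],
    fun u hu => by rw [LinearMap.smul_apply, ha.2.1 u hu, smul_zero],
    fun h u => by
      rw [LinearMap.smul_apply, LinearMap.smul_apply, ha.2.2 h, smul_eq_mul, smul_eq_mul,
        mul_left_comm]⟩

theorem nw_of_real (hg : GoodF s fr) (h : Real (ph s fr) ν.1 t ψ) (hs : Sup fr ν.1 t)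
    (he : Fx s ν.1 → ∀ u, ψ (TT s u) = s.ζ ^ ν.2 * ψ u) : ψ ∈ NW s fr ν := by
  refine ⟨fun β hβ u hu => h.homog hg.ph hs hβ hu, ?_, he⟩
  refine (iSup_le fun α => iSup₂_le fun y _ => ?_ : lowK (KK s fr) ν.1 ≤ LinearMap.ker ψ)
  rintro _ ⟨u, hu, rfl⟩
  exact (h.1 u _).trans (hs.cop_left (mem_KK.1 hu).2 _)

theorem ph_mem_nw (hg : GoodF s fr) {a : EnF F X} (ha : a ∈ fr) (h : a.w = ν.1)
    (h' : Fx s ν.1 → ep s.L a.i = ν.2) : ph s fr a.i ∈ NW s fr ν :=
  nw_of_real hg (h ▸ hg.ph.real a ha) (h ▸ hg.ph.sup a ha)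
    fun hx u => h' hx ▸ hg.ph.eig ha (h ▸ hx) u

variable (s fr) in
/-- The bracket of the dual basis vectors of a column. -/
noncomputable def EE (c : EnF F X × EnF F X) : FL F X := ⁅ee s fr c.1.i, ee s fr c.2.i⁆

theorem Real.EE (hg : GoodF s fr) {w : X → ℕ} (h : Real (ph s fr) w t ψ) (hs : Sup fr w t)
    {c : EnF F X × EnF F X} (h1 : c.1 ∈ fr) (h2 : c.2 ∈ fr) :
    ψ (EE s fr c) = co t c.1.i c.2.i :=
  (h.1 _ _).trans (cop_ee hg hs.idx (idx_mem h1) (idx_mem h2))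

/-- The two columns are different. -/
def Dst (c c' : EnF F X × EnF F X) : Prop :=
  ¬ (c.1.i = c'.1.i ∧ c.2.i = c'.2.i) ∧ ¬ (c.1.i = c'.2.i ∧ c.2.i = c'.1.i)

theorem Dst.symm {c c' : EnF F X × EnF F X} (h : Dst c c') : Dst c' c :=
  ⟨fun e => h.1 ⟨e.1.symm, e.2.symm⟩, fun e => h.2 ⟨e.2.symm, e.1.symm⟩⟩

theorem co_tm_zero {c : EnF F X × EnF F X} (h : ∀ p ∈ z, Dst p.2 c) : co (tm z) c.1.i c.2.i = 0 :=
  co_eq_zero fun x hx => by
    obtain ⟨p, hp, rfl⟩ := List.mem_map.1 hx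
    exact h p hp

theorem co_tm_cons {p : F × EnF F X × EnF F X} (h : ∀ q ∈ z, Dst q.2 p.2) (h' : p.2.1.i ≠ p.2.2.i) :
    co (tm (p :: z)) p.2.1.i p.2.2.i = p.1 := by
  rw [tm, List.map_cons, co_cons, if_pos ⟨rfl, rfl⟩, if_neg fun e => h' e.1, sub_zero]
  exact add_eq_left.2 (co_tm_zero h)

theorem co_tm (hz : z.Pairwise fun p q => Dst p.2 q.2) {p : F × EnF F X × EnF F X} (hp : p ∈ z)
    (h' : p.2.1.i ≠ p.2.2.i) : co (tm z) p.2.1.i p.2.2.i = p.1 := by
  induction z with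
  | nil => exact absurd hp List.not_mem_nil
  | cons q z ih =>
    obtain ⟨h1, h2⟩ := List.pairwise_cons.1 hz
    rcases List.mem_cons.1 hp with rfl | hp
    · exact co_tm_cons (fun q hq => (h1 q hq).symm) h'
    · rw [tm, List.map_cons, co_cons, if_neg (h1 p hp).1, if_neg (h1 p hp).2, sub_zero, zero_add]
      exact ih h2 hp

theorem sup_tm {α : X → ℕ} (hz : ∀ p ∈ z, p.2.1 ∈ fr ∧ p.2.2 ∈ fr ∧ p.2.1.w + p.2.2.w = α) :
    Sup fr α (tm z) := fun x hx => by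
  obtain ⟨p, hp, rfl⟩ := List.mem_map.1 hx
  exact ⟨_, (hz p hp).1, _, (hz p hp).2.1, rfl, rfl, (hz p hp).2.2⟩

theorem cop_swap {M : Type} [AddCommGroup M] [Module F M] (φ : ℕ → Dual F M) (t : Tms F)
    (u v : M) : cop φ t u v = -cop φ t v u := by
  induction t with
  | nil => exact neg_zero.symm
  | cons x t ih =>
    rw [cop_cons, cop_cons, ih]
    ring

variable (s fr) in
/-- The coefficients of a form on the columns. -/
noncomputable def zc (cols : List (EnF F X × EnF F X)) (ψ : Dual F (FL F X)) :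
    List (F × EnF F X × EnF F X) := cols.map fun c => (ψ (EE s fr c), c)

theorem ColsOk.zc {α : X → ℕ} (hc : ColsOk fr α cols) :
    ∀ p ∈ zc s fr cols ψ, p.2.1 ∈ fr ∧ p.2.2 ∈ fr ∧ p.2.1.w + p.2.2.w = α := fun p hp => by
  obtain ⟨c, h, rfl⟩ := List.mem_map.1 hp
  exact ⟨(hc.mem c h).1, (hc.mem c h).2.1, (hc.mem c h).2.2.1⟩

/-- The forms of a node are determined by their values on the columns. -/
theorem nw_real (hg : GoodF s fr) (h2 : 2 ≤ tot ν.1) (hc : ColsOk fr ν.1 cols)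
    (h : ψ ∈ NW s fr ν) : Real (ph s fr) ν.1 (tm (zc s fr cols ψ)) ψ := by
  have hs := sup_tm (hc.zc (s := s) (ψ := ψ))
  refine ⟨fun u v => ?_, fun y => (h.1 _ (ne_one_of_two h2 y).symm _ (gen_mem_mp y)).trans
    (if_neg (ne_one_of_two h2 y)).symm⟩
  let B : FL F X →ₗ[F] FL F X →ₗ[F] F :=
    (LinearMap.mk₂ F (fun u v : FL F X => ⁅u, v⁆) add_lie smul_lie lie_add
      fun c u v => lie_smul c u v).compr₂ ψ - copL (ph s fr) (tm (zc s fr cols ψ))
  have hB : ∀ u v, B u v = ψ ⁅u, v⁆ - cop (ph s fr) (tm (zc s fr cols ψ)) u v := fun u v => by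
    rw [← copL_apply]
    rfl
  have h3 : ∀ u v, B u v = -B v u := fun u v => by
    rw [hB, hB, ← lie_skew u v, map_neg, cop_swap]
    ring
  have h4 : ∀ β δ, β + δ = ν.1 → ∀ u ∈ KK s fr β, ∀ v ∈ mp F δ, B u v = 0 := fun β δ e u hu v hv => by
    rw [hB, h.2.1 _ (e ▸ lie_low (KC hg) 0 hu hv), hs.cop_left (mem_KK.1 hu).2, sub_zero]
  have h5 : ∀ c ∈ cols, B (ee s fr c.1.i) (ee s fr c.2.i) = 0 := fun c h5 => by
    obtain ⟨h6, h7, -, h8⟩ := hc.mem c h5
    rw [hB, cop_ee hg hs.idx (idx_mem h6) (idx_mem h7), sub_eq_zero]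
    exact (co_tm (z := zc s fr cols ψ) (p := (ψ (EE s fr c), c)) (List.pairwise_map.2 hc.pw)
      (List.mem_map.2 ⟨c, h5, rfl⟩) h8).symm
  have h6 : B = 0 := ext_mp fun β u hu => ext_mp fun δ v hv => by
    change B u v = 0
    by_cases e : β + δ = ν.1
    · have h7 := apply_eq_sum hg (f := B.flip v) (fun u hu => h4 β δ e u hu v hv) hu
      rw [LinearMap.flip_apply] at h7
      rw [h7]
      refine Finset.sum_eq_zero fun i hi => ?_
      obtain ⟨a, ha, rfl⟩ := mem_idx.1 hi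
      by_cases e1 : β = a.w
      · have h8 := e1 ▸ ee_mem hg ha
        rw [LinearMap.flip_apply, apply_eq_sum hg (f := B (ee s fr a.i)) (fun v hv => by
          rw [h3, h4 δ β ((add_comm _ _).trans e) v hv _ h8, neg_zero]) hv,
          Finset.sum_eq_zero fun k hk => ?_, smul_zero]
        obtain ⟨b, hb, rfl⟩ := mem_idx.1 hk
        by_cases e2 : δ = b.w
        · by_cases e3 : a.i = b.i
          · rw [e3, hB, lie_self, map_zero, cop_self, sub_zero, smul_zero]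
          · rcases hc.all a ha b hb e3 (by rw [← e1, ← e2, e]) with h9 | h9
            · rw [h5 _ h9, smul_zero]
            · rw [h3, h5 _ h9, neg_zero, smul_zero]
        · rw [hg.ph.homog hb e2 hv, zero_smul]
      · rw [hg.ph.homog ha e1 hu, zero_smul]
    · rw [hB, h.1 _ e _ (mp_lie hu hv),
        cop_homog (fun a ha β h u hu => hg.ph.homog ha h hu) hs e hu hv, sub_zero]
  rw [← sub_eq_zero, ← hB, h6]
  rfl

theorem nw_eqn (hg : GoodF s fr) (h2 : 2 ≤ tot ν.1) (hc : ColsOk fr ν.1 cols)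
    (h : ψ ∈ NW s fr ν) (k : ℕ) :
    (cols.map fun c => ψ (EE s fr c) * cv (colT s ν c) k).sum = 0 := by
  have h1 := (sol_iff hg h2 fun p hp => ⟨(hc.zc p hp).1, (hc.zc p hp).2.1⟩).2
    ⟨ψ, nw_real hg h2 hc h, h.2.2⟩ k
  rwa [zc, List.map_map] at h1

theorem nw_eq_zero (hg : GoodF s fr) (h2 : 2 ≤ tot ν.1) (hc : ColsOk fr ν.1 cols)
    (h : ψ ∈ NW s fr ν) (h' : ∀ c ∈ cols, ψ (EE s fr c) = 0) : ψ = 0 := by
  have h1 := nw_real hg h2 hc h
  refine ext_fun (fun y => (h1.2 y).trans (if_neg (ne_one_of_two h2 y))) fun u v => (h1.1 u v).trans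
    (List.sum_eq_zero fun y hy => ?_)
  obtain ⟨x, hx, rfl⟩ := List.mem_map.1 hy
  obtain ⟨p, hp, rfl⟩ := List.mem_map.1 hx
  obtain ⟨c, h3, rfl⟩ := List.mem_map.1 hp
  rw [h' c h3, zero_mul]

theorem lowK_TT (hg : GoodF s fr) {α : X → ℕ} (hx : Fx s α) :
    ∀ u ∈ lowK (KK s fr) α, TT s u ∈ lowK (KK s fr) α := by
  refine (iSup_le fun β => iSup₂_le fun y e => ?_ :
    lowK (KK s fr) α ≤ (lowK (KK s fr) α).comap (TT s))
  rintro _ ⟨u, hu, rfl⟩
  have h1 : TT s u ∈ KK s fr (β ∘ s.σ.symm) :=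
    KK_finv hg _ u (by rwa [Function.comp_assoc, s.σ.symm_comp_self, Function.comp_id])
  have h2 : β ∘ s.σ.symm + one (s.σ y) = α := by
    refine s.σ.surjective.right_cancellable.1 ?_
    rw [hx.2, ← e, ← one_comp s.σ y]
    funext x
    simp
  have h3 := lie_low (KC hg) 0 h1 (gen_mem_mp (s.σ y))
  rw [h2] at h3
  change ren F s.σ ⁅u, gen F y⁆ ∈ lowK (KK s fr) α
  rwa [LieHom.map_lie, ren_gen]

theorem exists_nw (hg : GoodF s fr) (he : ν.2 < s.L) {u : FL F X} (hu : u ∈ VV s ν.1 ν.2)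
    (h : u ∉ lowK (KK s fr) ν.1) : ∃ ψ ∈ NW s fr ν, ψ u ≠ 0 := by
  obtain ⟨χ, h1, h2⟩ := Submodule.exists_dual_map_eq_bot_of_notMem h inferInstance
  have h3 : ∀ v ∈ lowK (KK s fr) ν.1, χ v = 0 := fun v hv =>
    (Submodule.mem_bot F).1 (h2 ▸ Submodule.mem_map_of_mem hv)
  obtain ⟨P, h4, h5⟩ := exists_proj (F := F) ν.1
  have h6 : ∀ v ∈ lowK (KK s fr) ν.1, P v = v :=
    fun v hv => h4 v (KK_le _ (lowK_le (KC hg) 0 _ hv))
  by_cases hx : Fx s ν.1
  · refine ⟨χ.comp ((pr s ν.2).comp P), ⟨fun β hβ v hv => ?_, fun v hv => ?_, fun _ v => ?_⟩, ?_⟩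
    · rw [LinearMap.comp_apply, LinearMap.comp_apply, h5 β hβ v hv, map_zero, map_zero]
    · rw [LinearMap.comp_apply, LinearMap.comp_apply, h6 v hv]
      exact h3 _ (pr_mem (lowK_TT hg hx) _ hv)
    · have h7 : P.comp (TT s) = (TT s).comp P := ext_mp fun β w hw => by
        rw [LinearMap.comp_apply, LinearMap.comp_apply]
        by_cases e : β = ν.1
        · rw [h4 w (e ▸ hw), h4 _ (finv_mp.fix hx (e ▸ hw))]
        · rw [h5 β e w hw, map_zero]
          refine h5 (β ∘ s.σ.symm) (fun e' => e ?_) _ (finv_mp _ w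
            (by rwa [Function.comp_assoc, s.σ.symm_comp_self, Function.comp_id]))
          rw [← hx.2, ← e', Function.comp_assoc, s.σ.symm_comp_self, Function.comp_id]
      have h8 : P (TT s v) = TT s (P v) := LinearMap.congr_fun h7 v
      simp only [LinearMap.comp_apply]
      rw [h8, pr_TT, map_smul, smul_eq_mul]
    · rwa [LinearMap.comp_apply, LinearMap.comp_apply, h4 u (VV_le _ _ hu),
        pr_of_eig ((mem_VV.1 hu).2 hx)]
  · refine ⟨χ.comp P, ⟨fun β hβ v hv => ?_, fun v hv => ?_, fun h => absurd h hx⟩, ?_⟩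
    · rw [LinearMap.comp_apply, h5 β hβ v hv, map_zero]
    · rw [LinearMap.comp_apply, h6 v hv, h3 v hv]
    · rwa [LinearMap.comp_apply, h4 u (VV_le _ _ hu)]

theorem pendOk_of (hg : GoodF s fr) (h2 : 2 ≤ tot ν.1) (he : ν.2 < s.L) {κ : List (Tms F)}
    (h : ∀ t ∈ κ, Sup fr ν.1 t ∧ ∃ ψ, Real (ph s fr) ν.1 t ψ ∧
      (Fx s ν.1 → ∀ u, ψ (TT s u) = s.ζ ^ ν.2 * ψ u))
    (h3 : ∀ y : ℕ → F, ∃ u ∈ mp F ν.1, (∀ k (hk : k < κ.length), fn s fr ν.1 κ[k] u = y k) ∧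
      ∀ a ∈ fr, a.w = ν.1 → (Fx s ν.1 → ep s.L a.i = ν.2) → ph s fr a.i u = 0)
    (h4 : ∀ ψ ∈ NW s fr ν, ∀ u, (∀ t ∈ κ, fn s fr ν.1 t u = 0) → (∀ a ∈ fr, ph s fr a.i u = 0) →
      ψ u = 0) : PendOk s fr ν κ := by
  have h5 : ∀ t ∈ κ, Fx s ν.1 → ∀ u, fn s fr ν.1 t (TT s u) = s.ζ ^ ν.2 * fn s fr ν.1 t u :=
    fun t ht => by
      obtain ⟨ψ, h5, h6⟩ := (h t ht).2
      rwa [h5.fn_eq]
  refine ⟨h2, fun t ht => (h t ht).1, fun t ht => ?_, fun hx t ht => h5 t ht hx, fun y => ?_,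
    fun u hu => ?_⟩
  · obtain ⟨ψ, h5, -⟩ := (h t ht).2
    rwa [h5.fn_eq]
  · obtain ⟨u, hu, h6, h7⟩ := h3 y
    by_cases hx : Fx s ν.1
    · have h8 := (pr_mem_VV finv_mp (fun _ => le_rfl) hx ν.2 hu)
      refine ⟨pr s ν.2 u, ⟨mem_KK.2 ⟨h8.1, fun a ha => ?_⟩, h8.2⟩, fun k hk => by
        rw [eig_pr (h5 _ (List.getElem_mem hk) hx) he, h6 k hk]⟩
      by_cases e : ν.1 = a.w
      · by_cases e' : ep s.L a.i = ν.2
        · rw [eig_pr (e' ▸ hg.ph.eig ha (e ▸ hx)) he, h7 a ha e.symm fun _ => e']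
        · exact eig_zero (hg.ph.eig ha (e ▸ hx)) (ep_lt s _) he e' (TT_pr _ _)
      · exact hg.ph.homog ha e h8.1
    · refine ⟨u, ⟨mem_KK.2 ⟨hu, fun a ha => ?_⟩, mem_VV.2 ⟨hu, fun h => absurd h hx⟩⟩, h6⟩
      by_cases e : ν.1 = a.w
      · exact h7 a ha e.symm fun h => absurd h hx
      · exact hg.ph.homog ha e hu
  · by_contra h6
    obtain ⟨ψ, h7, h8⟩ := exists_nw hg he hu.1.2 h6
    refine h8 (h4 ψ h7 u ?_ (mem_KK.1 hu.1.1).2)
    simpa only [SetLike.mem_coe, Submodule.mem_iInf, LinearMap.mem_ker] using hu.2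

theorem Ech.echA {os : List (EnF F X)} {old : List (EnF F X × EnF F X)} (hg : GoodF s fr)
    (h : Ech os old) (h1 : ∀ a ∈ os, a ∈ fr) (h2 : ∀ c ∈ old, c.1 ∈ fr ∧ c.2 ∈ fr) :
    EchA (os.map fun a => ph s fr a.i) (old.map (EE s fr)) := by
  induction os generalizing old with
  | nil => exact List.map_eq_nil_iff.2 h
  | cons o os ih =>
    cases old with
    | nil => exact h.elim
    | cons c old =>
      have h3 := h1 o List.mem_cons_self
      have h4 := fun c hc => (hg.ph.real o h3).EE hg (hg.ph.sup o h3) (h2 c hc).1 (h2 c hc).2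
      refine ⟨(h4 c List.mem_cons_self).trans_ne h.1, fun m hm => ?_,
        ih h.2.2 (fun a ha => h1 a (List.mem_cons_of_mem _ ha))
          fun c hc => h2 c (List.mem_cons_of_mem _ hc)⟩
      obtain ⟨c', hc, rfl⟩ := List.mem_map.1 hm
      exact (h4 c' (List.mem_cons_of_mem _ hc)).trans (h.2.1 c' hc)

theorem echA_append {M ι : Type} [AddCommGroup M] [Module F M] {g : ι → Dual F M}
    {E : EnF F X × EnF F X → M} {P : EnF F X × EnF F X → Prop} {gs : List (Dual F M)}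
    {fre old : List (EnF F X × EnF F X)} {κ : List ι}
    (h : List.Forall₂ (fun f t => g t (E f) ≠ 0 ∧ ∀ c, P c → Dst f c → g t (E c) = 0) fre κ)
    (h1 : (fre ++ old).Pairwise Dst) (h2 : ∀ c ∈ fre ++ old, P c) (h3 : EchA gs (old.map E)) :
    EchA (κ.map g ++ gs) ((fre ++ old).map E) := by
  induction h with
  | nil => exact h3
  | cons h _ ih =>
    obtain ⟨h4, h5⟩ := List.pairwise_cons.1 h1
    refine ⟨h.1, fun m hm => ?_, ih h5 fun c hc => h2 c (List.mem_cons_of_mem _ hc)⟩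
    obtain ⟨c, hc, rfl⟩ := List.mem_map.1 hm
    exact h.2 c (h2 c (List.mem_cons_of_mem _ hc)) (h4 c hc)

theorem forall₂_imp_mem {α β : Type} {R R' : α → β → Prop} {l : List α} {l' : List β}
    (h : List.Forall₂ R l l') (h' : ∀ a ∈ l, ∀ b, R a b → R' a b) : List.Forall₂ R' l l' := by
  induction h with
  | nil => exact List.Forall₂.nil
  | cons h _ ih =>
    exact List.Forall₂.cons (h' _ List.mem_cons_self _ h)
      (ih fun a ha => h' a (List.mem_cons_of_mem _ ha))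

/-- The certificate of a node. -/
theorem node_cert (hg : GoodF s fr) (h2 : 2 ≤ tot ν.1) (he : ν.2 < s.L)
    {piv fre old : List (EnF F X × EnF F X)} (hc : ColsOk fr ν.1 (piv ++ fre ++ old))
    (hp : Tri [] (piv.map fun c => cv (colT s ν c))) {κ : List (Tms F)}
    (hκ : List.Forall₂ (fun f t => ∃ (a : F) (ys : List F), a ≠ 0 ∧
      (∀ k, a * cv (colT s ν f) k +
        (List.zipWith (fun y c => y * cv (colT s ν c) k) ys piv).sum = 0) ∧
      TRel 1 (kap f a ys piv) t) fre κ)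
    {os : List (EnF F X)}
    (ho : ∀ a, a ∈ os ↔ a ∈ fr ∧ a.w = ν.1 ∧ (Fx s ν.1 → ep s.L a.i = ν.2)) (hE : Ech os old) :
    PendOk s fr ν κ := by
  have hpw : (piv ++ (fre ++ old)).Pairwise Dst := List.append_assoc piv fre old ▸ hc.pw
  rw [List.pairwise_append] at hpw
  have hm : ∀ c ∈ fre ++ old, c ∈ piv ++ fre ++ old :=
    fun c h => List.append_assoc piv fre old ▸ List.mem_append_right _ h
  have h3 := forall₂_imp_mem hκ (R' := fun f t => (Sup fr ν.1 t ∧ ∃ ψ, Real (ph s fr) ν.1 t ψ ∧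
      (Fx s ν.1 → ∀ u, ψ (TT s u) = s.ζ ^ ν.2 * ψ u)) ∧ fn s fr ν.1 t (EE s fr f) ≠ 0 ∧
      ∀ c, c ∈ fre ++ old → Dst f c → fn s fr ν.1 t (EE s fr c) = 0) (by
    rintro f hf t ⟨a, ys, h3, h4, h5⟩
    have h6 : kap f a ys piv = tm ((a, f) :: ys.zip piv) := by
      rw [kap, tm, List.map_cons, List.zip, List.map_zipWith]
    have h7 : ∀ p ∈ (a, f) :: ys.zip piv, p.2 ∈ piv ++ fre ++ old := fun p hp => by
      rcases List.mem_cons.1 hp with rfl | hp
      · exact hm _ (List.mem_append_left _ hf)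
      · exact List.mem_append_left _ (List.mem_append_left _ (List.of_mem_zip hp).2)
    obtain ⟨ψ, h8, h9⟩ := (sol_iff hg h2 fun p hp =>
      ⟨(hc.mem _ (h7 p hp)).1, (hc.mem _ (h7 p hp)).2.1⟩).1 fun k => by
        rw [List.map_cons, List.sum_cons, List.zip, List.map_zipWith]
        exact h4 k
    have h10 := sup_tm fun p hp =>
      ⟨(hc.mem _ (h7 p hp)).1, (hc.mem _ (h7 p hp)).2.1, (hc.mem _ (h7 p hp)).2.2.1⟩
    rw [h6] at h5
    have h11 : Real (ph s fr) ν.1 t ψ := ⟨fun u v => by rw [h5.cop, one_mul, h8.1], h8.2⟩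
    have h12 := fun c h => h8.EE hg h10 (hc.mem c (hm c h)).1 (hc.mem c (hm c h)).2.1
    refine ⟨⟨h5.sup h10, ψ, h11, h9⟩, ?_, fun c h h' => ?_⟩
    · rw [h11.fn_eq, h12 f (List.mem_append_left _ hf)]
      exact (co_tm_cons (p := (a, f))
        (fun q hq => hpw.2.2 _ (List.of_mem_zip hq).2 _ (List.mem_append_left _ hf))
        (hc.mem f (hm f (List.mem_append_left _ hf))).2.2.2).trans_ne h3
    · rw [h11.fn_eq, h12 c h]
      refine co_tm_zero fun p hp => ?_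
      rcases List.mem_cons.1 hp with rfl | hp
      · exact h'
      · exact hpw.2.2 _ (List.of_mem_zip hp).2 _ h)
  have h4 := fun t ht => (forall₂_left h3 (b := t) ht).elim fun _ h => h.2.1
  have h5 := echA_append (h3.imp fun _ _ h => h.2) hpw.2.1 (fun _ h => h)
    (hE.echA hg (fun a ha => ((ho a).1 ha).1) fun c h =>
      ⟨(hc.mem c (List.mem_append_right _ h)).1, (hc.mem c (List.mem_append_right _ h)).2.1⟩)
  refine pendOk_of hg h2 he h4 (fun y => ?_) fun ψ hψ u h6 h7 => ?_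
  · obtain ⟨u, hu, h6, h7⟩ := (h5.sj (W := mp F ν.1) fun m h => by
      obtain ⟨c, h6, rfl⟩ := List.mem_map.1 h
      obtain ⟨h7, h8, h9, -⟩ := hc.mem c (hm c h6)
      exact h9 ▸ mp_lie (ee_mem hg h7) (ee_mem hg h8)).left y
    exact ⟨u, hu, h6, fun a ha e e' =>
      h7 _ (List.mem_map_of_mem (f := fun a => ph s fr a.i) ((ho a).2 ⟨ha, e, e'⟩))⟩
  · obtain ⟨χ, h8, h9⟩ := h5.exists_span ψ
    have h10 : χ ∈ NW s fr ν ⊓ LinearMap.ker (Dual.eval F _ u) := Submodule.span_le.2 (fun g h => by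
      rcases List.mem_append.1 h with h | h
      · obtain ⟨t, ht, rfl⟩ := List.mem_map.1 h
        obtain ⟨h10, ψ', h11, h12⟩ := h4 t ht
        exact ⟨h11.fn_eq ▸ nw_of_real hg h11 h10 h12, h6 t ht⟩
      · obtain ⟨a, ha, rfl⟩ := List.mem_map.1 h
        obtain ⟨h10, h11, h12⟩ := (ho a).1 ha
        exact ⟨ph_mem_nw hg h10 h11 h12, h7 a h10⟩) h8
    have h11 := sub_mem hψ h10.1
    have h12 : ∀ c ∈ fre ++ old, (ψ - χ) (EE s fr c) = 0 := fun c h => by
      rw [LinearMap.sub_apply, h9 _ (List.mem_map_of_mem h), sub_self]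
    have h13 := hp.eq_zero (ρ := fun c => (ψ - χ) (EE s fr c)) (by
      convert Submodule.zero_mem _
      funext k
      have h13 := nw_eqn hg h2 hc h11 k
      rw [List.append_assoc, List.map_append, List.sum_append,
        List.sum_eq_zero (l := List.map _ (fre ++ old)) fun x hx => by
          obtain ⟨c, h, rfl⟩ := List.mem_map.1 hx
          rw [h12 c h, zero_mul], add_zero] at h13
      rw [Pi.list_sum_apply, List.map_map]
      exact h13)
    have h14 := nw_eq_zero hg h2 hc h11 fun c h => by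
      rw [List.append_assoc, List.mem_append] at h
      exact h.elim (h13 c) (h12 c)
    rw [sub_eq_zero.1 h14]
    exact h10.2

end Pool.Agent.P.MP_8598be_al.K
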